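import Mathlib

set_option autoImplicit false

/-!
Elementary character sums for binary linear codes.
`sgn x` is `(-1)^x`; `PD F` says that `F` is a sum of characters.
-/

namespace Pool.Agent.MP_3ca114_lc

open Finset

/-- the sign `(-1)^x` -/
def sgn (x : ZMod 2) : ℤ := if x = 0 then 1 else -1

lemma sgn_zero : sgn 0 = 1 := by simp [sgn]

lemma sgn_one : sgn 1 = -1 := by decide

lemma sgn_add (x y : ZMod 2) : sgn (x + y) = sgn x * sgn y := by
  revert x y; decide

lemma sgn_mul_self (x : ZMod 2) : sgn x * sgn x = 1 := by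
  revert x; decide

lemma sgn_eq (x : ZMod 2) : sgn x = 1 ∨ sgn x = -1 := by
  revert x; decide

lemma zmod2_cases (x : ZMod 2) : x = 0 ∨ x = 1 := by
  revert x; decide

section PD

variable {G : Type*} [AddCommGroup G]

/-- `F` is a sum of characters of `G` with values in `{1,-1}` -/
inductive PD : (G → ℤ) → Prop
  | zero : PD (fun _ => 0)
  | char (f : G →+ ZMod 2) : PD (fun c => sgn (f c))
  | add {F H : G → ℤ} : PD F → PD H → PD (fun c => F c + H c)

lemma PD.congr {F H : G → ℤ} (hF : PD F) (h : ∀ c, H c = F c) : PD H := by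
  have : H = F := funext h
  rw [this]; exact hF

lemma PD.one : PD (fun _ : G => (1 : ℤ)) :=
  (PD.char (0 : G →+ ZMod 2)).congr (by intro c; simp [sgn_zero])

lemma PD.natMul {F : G → ℤ} (hF : PD F) (k : ℕ) : PD (fun c => (k : ℤ) * F c) := by
  induction k with
  | zero => exact PD.zero.congr (by intro c; simp)
  | succ k ih => exact (ih.add hF).congr (by intro c; push_cast; ring)

lemma PD.intMul {F : G → ℤ} (hF : PD F) {k : ℤ} (hk : 0 ≤ k) : PD (fun c => k * F c) := by
  obtain ⟨k, rfl⟩ := Int.eq_ofNat_of_zero_le hk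
  exact hF.natMul k

lemma PD.const {k : ℤ} (hk : 0 ≤ k) : PD (fun _ : G => k) :=
  (PD.one.intMul hk).congr (by intro c; simp)

lemma PD.charMul {F : G → ℤ} (hF : PD F) (f : G →+ ZMod 2) :
    PD (fun c => sgn (f c) * F c) := by
  induction hF with
  | zero => exact PD.zero.congr (by intro c; simp)
  | char g => exact (PD.char (f + g)).congr (by intro c; simp [sgn_add])
  | add _ _ ih1 ih2 => exact (ih1.add ih2).congr (by intro c; ring)

lemma PD.mul {F H : G → ℤ} (hF : PD F) (hH : PD H) : PD (fun c => F c * H c) := by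
  induction hF with
  | zero => exact PD.zero.congr (by intro c; simp)
  | char g => exact hH.charMul g
  | add _ _ ih1 ih2 => exact (ih1.add ih2).congr (by intro c; ring)

lemma PD.sum {ι : Type*} (s : Finset ι) {F : ι → G → ℤ} (h : ∀ i ∈ s, PD (F i)) :
    PD (fun c => ∑ i ∈ s, F i c) := by
  classical
  induction s using Finset.induction_on with
  | empty => exact PD.zero.congr (by intro c; simp)
  | insert a s ha ih =>
    have h1 : PD (F a) := h a (Finset.mem_insert_self a s)
    have h2 := ih (fun i hi => h i (Finset.mem_insert_of_mem hi))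
    exact (h1.add h2).congr (by intro c; rw [Finset.sum_insert ha])

/-- orthogonality -/
lemma sum_char [Fintype G] (f : G →+ ZMod 2) :
    ∑ c, sgn (f c) = if f = 0 then (Fintype.card G : ℤ) else 0 := by
  classical
  split_ifs with h
  · subst h; simp [sgn_zero]
  · have : ∃ a, f a ≠ 0 := by
      by_contra hcon
      push Not at hcon
      exact h (by ext a; simpa using hcon a)
    obtain ⟨a, ha⟩ := this
    have ha1 : f a = 1 := by
      rcases zmod2_cases (f a) with h0 | h1
      · exact absurd h0 ha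
      · exact h1
    have h2 : ∑ c, sgn (f (c + a)) = ∑ c, sgn (f c) :=
      Equiv.sum_comp (Equiv.addRight a) (fun c => sgn (f c))
    have h3 : ∑ c, sgn (f (c + a)) = - ∑ c, sgn (f c) := by
      rw [← Finset.sum_neg_distrib]
      refine Finset.sum_congr rfl (fun c _ => ?_)
      rw [map_add, sgn_add, ha1, sgn_one]; ring
    linarith

lemma sum_char_nonneg [Fintype G] (f : G →+ ZMod 2) : 0 ≤ ∑ c, sgn (f c) := by
  rw [sum_char]; split_ifs <;> positivity

lemma PD.sum_nonneg [Fintype G] {F : G → ℤ} (hF : PD F) : 0 ≤ ∑ c, F c := by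
  induction hF with
  | zero => simp
  | char f => exact sum_char_nonneg f
  | add _ _ ih1 ih2 => rw [Finset.sum_add_distrib]; linarith

end PD

section Words

variable {n : ℕ}

/-- partial character sum of a word over a set of coordinates -/
def WS (S : Finset (Fin n)) (v : Fin n → ZMod 2) : ℤ := ∑ i ∈ S, sgn (v i)

/-- full character sum `n - 2 wt(v)` -/
def W (v : Fin n → ZMod 2) : ℤ := ∑ i, sgn (v i)

lemma W_eq_WS (v : Fin n → ZMod 2) : W v = WS Finset.univ v := rfl

lemma W_split (S : Finset (Fin n)) (v : Fin n → ZMod 2) : W v = WS Sᶜ v + WS S v := by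
  classical
  unfold W WS
  rw [add_comm, Finset.sum_add_sum_compl]

lemma W_eq_sub (v : Fin n → ZMod 2) : W v = (n : ℤ) - 2 * (hammingNorm v : ℤ) := by
  classical
  have h : ∀ i, sgn (v i) = 1 - 2 * (if v i ≠ 0 then 1 else 0) := by
    intro i
    rcases zmod2_cases (v i) with h | h <;> simp [h, sgn]
  unfold W
  rw [Finset.sum_congr rfl (fun i _ => h i), Finset.sum_sub_distrib, ← Finset.mul_sum]
  rw [Finset.sum_boole]
  simp [hammingNorm]

lemma W_zero : W (0 : Fin n → ZMod 2) = n := by
  simp [W, sgn_zero]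

lemma WS_zero (S : Finset (Fin n)) : WS S (0 : Fin n → ZMod 2) = S.card := by
  simp [WS, sgn_zero]

/-- the coordinate character of a code -/
def coordHom (C : Submodule (ZMod 2) (Fin n → ZMod 2)) (i : Fin n) : C →+ ZMod 2 where
  toFun c := (c : Fin n → ZMod 2) i
  map_zero' := by simp
  map_add' := by intro x y; simp

lemma coordHom_apply (C : Submodule (ZMod 2) (Fin n → ZMod 2)) (i : Fin n) (c : C) :
    coordHom C i c = (c : Fin n → ZMod 2) i := rfl

variable (C : Submodule (ZMod 2) (Fin n → ZMod 2))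

lemma pd_coord (i : Fin n) : PD (fun c : C => sgn ((c : Fin n → ZMod 2) i)) :=
  PD.char (coordHom C i)

lemma pd_WS (S : Finset (Fin n)) : PD (fun c : C => WS S (c : Fin n → ZMod 2)) :=
  PD.sum S (fun i _ => pd_coord C i)

/-- `WS² - |S|` as a sum over ordered pairs -/
lemma WS_sq (S : Finset (Fin n)) (v : Fin n → ZMod 2) :
    (WS S v) ^ 2 - (S.card : ℤ) = ∑ p ∈ S.offDiag, sgn (v p.1) * sgn (v p.2) := by
  classical
  have h1 : (WS S v) ^ 2 = ∑ p ∈ S ×ˢ S, sgn (v p.1) * sgn (v p.2) := by
    rw [sq, WS, Finset.sum_mul_sum, Finset.sum_product]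
  have h2 : ∑ p ∈ S ×ˢ S, sgn (v p.1) * sgn (v p.2)
      = ∑ p ∈ S.diag, sgn (v p.1) * sgn (v p.2) + ∑ p ∈ S.offDiag, sgn (v p.1) * sgn (v p.2) := by
    rw [← Finset.diag_union_offDiag, Finset.sum_union (Finset.disjoint_diag_offDiag S)]
  have h3 : ∑ p ∈ S.diag, sgn (v p.1) * sgn (v p.2) = (S.card : ℤ) := by
    rw [Finset.sum_congr rfl (g := fun _ => (1 : ℤ))]
    · simp [Finset.diag_card]
    · intro p hp
      rw [Finset.mem_diag] at hp
      rw [← hp.2]; exact sgn_mul_self _
  rw [h1, h2, h3]; ring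

lemma pd_pair (p : Fin n × Fin n) :
    PD (fun c : C => sgn ((c : Fin n → ZMod 2) p.1) * sgn ((c : Fin n → ZMod 2) p.2)) :=
  (pd_coord C p.1).mul (pd_coord C p.2)

lemma pd_Q (S : Finset (Fin n)) :
    PD (fun c : C => (WS S (c : Fin n → ZMod 2)) ^ 2 - (S.card : ℤ)) :=
  (PD.sum S.offDiag (fun p _ => pd_pair C p)).congr (by intro c; rw [WS_sq])

/-- `Q² - 2|S|(|S|-1)` is a sum of characters -/
lemma pd_Q_sq (S : Finset (Fin n)) :
    PD (fun c : C => ((WS S (c : Fin n → ZMod 2)) ^ 2 - (S.card : ℤ)) ^ 2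
      - 2 * ((S.card : ℤ) * (S.card : ℤ) - S.card)) := by
  classical
  have key : ∀ v : Fin n → ZMod 2,
      ((WS S v) ^ 2 - (S.card : ℤ)) ^ 2 - 2 * ((S.card : ℤ) * (S.card : ℤ) - S.card)
      = ∑ p ∈ S.offDiag, ∑ q ∈ (S.offDiag.erase p).erase p.swap,
          (sgn (v p.1) * sgn (v p.2)) * (sgn (v q.1) * sgn (v q.2)) := by
    intro v
    rw [WS_sq, sq, Finset.sum_mul_sum]
    have hcard : ((S.card : ℤ) * (S.card : ℤ) - S.card) = (S.offDiag.card : ℤ) := by
      rw [Finset.offDiag_card]
      have : S.card ≤ S.card * S.card := Nat.le_mul_self _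
      push_cast [Nat.cast_sub this]; ring
    have h2 : (2 : ℤ) * (S.offDiag.card : ℤ) = ∑ p ∈ S.offDiag, (2 : ℤ) := by
      simp; ring
    rw [hcard, h2, ← Finset.sum_sub_distrib]
    refine Finset.sum_congr rfl (fun p hp => ?_)
    rw [Finset.mem_offDiag] at hp
    have hswap : p.swap ∈ S.offDiag.erase p := by
      rw [Finset.mem_erase, Finset.mem_offDiag]
      refine ⟨?_, hp.2.1, hp.1, ?_⟩
      · intro h
        have := congrArg Prod.fst h
        simp at this
        exact hp.2.2 this.symm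
      · simpa using fun h => hp.2.2 h.symm
    have hpmem : p ∈ S.offDiag := by rw [Finset.mem_offDiag]; exact hp
    rw [← Finset.add_sum_erase _ _ hpmem, ← Finset.add_sum_erase _ _ hswap]
    have e1 : (sgn (v p.1) * sgn (v p.2)) * (sgn (v p.1) * sgn (v p.2)) = 1 := by
      have a := sgn_mul_self (v p.1); have b := sgn_mul_self (v p.2)
      calc _ = (sgn (v p.1) * sgn (v p.1)) * (sgn (v p.2) * sgn (v p.2)) := by ring
        _ = 1 := by rw [a, b]; ring
    have e2 : (sgn (v p.1) * sgn (v p.2)) * (sgn (v p.swap.1) * sgn (v p.swap.2)) = 1 := by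
      simp only [Prod.fst_swap, Prod.snd_swap]
      rw [mul_comm (sgn (v p.2)) (sgn (v p.1))]; exact e1
    rw [e1, e2]; ring
  exact (PD.sum S.offDiag (fun p _ => PD.sum _ (fun q _ =>
    (pd_pair C p).mul (pd_pair C q)))).congr (by intro c; rw [key])

end Words

end Pool.Agent.MP_3ca114_lc
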