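import Pool.Agent.Lib.MP_3ca114_lc.Basic

set_option autoImplicit false

namespace Pool.Agent.MP_3ca114_lc

open Finset

/-- a code of size at least `n²` (`n = 4^t`, `t ≥ 2`) containing the all-one word cannot have
all other words with `W ∈ {0, ±2^t}` -/
theorem no_three_valued (t : ℕ) (ht : 2 ≤ t) {n : ℕ} (hn : n = 2 ^ t * 2 ^ t)
    (B : Submodule (ZMod 2) (Fin n → ZMod 2))
    (hcard : n * n ≤ Nat.card B) (h1 : (1 : Fin n → ZMod 2) ∈ B)
    (hW : ∀ b ∈ B, b ≠ 0 → b ≠ 1 → W b * ((W b) ^ 2 - (n : ℤ)) = 0) : False := by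
  classical
  have hnpos : 0 < n := by rw [hn]; positivity
  rw [Nat.card_eq_fintype_card] at hcard
  set one : B := ⟨1, h1⟩ with hone
  set Z : Finset B := Finset.univ.filter (fun b => b = 0 ∨ b = one ∨ W (b : Fin n → ZMod 2) = 0)
    with hZ
  -- values off Z
  have hoff : ∀ b : B, b ∉ Z → (W (b : Fin n → ZMod 2)) ^ 2 = (n : ℤ) := by
    intro b hb
    rw [hZ, Finset.mem_filter] at hb
    push Not at hb
    obtain ⟨hb0, hb1, hbW⟩ := hb (Finset.mem_univ _)
    have h2 := hW b b.2 (by simpa using hb0) (by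
      intro h; exact hb1 (Subtype.ext h))
    rcases mul_eq_zero.mp h2 with h | h
    · exact absurd h hbW
    · linarith
  -- lower bound for the second moment
  have hlow : (Fintype.card B : ℤ) * n ≤ ∑ b : B, (W (b : Fin n → ZMod 2)) ^ 2 := by
    have := (pd_Q B Finset.univ).sum_nonneg
    rw [Finset.sum_sub_distrib] at this
    simp only [Finset.sum_const, Finset.card_univ, Fintype.card_fin, nsmul_eq_mul] at this
    have h2 : ∀ b : B, (WS Finset.univ (b : Fin n → ZMod 2)) ^ 2 = (W (b : Fin n → ZMod 2)) ^ 2 :=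
      fun b => by rw [W_eq_WS]
    rw [Finset.sum_congr rfl (fun b _ => h2 b)] at this
    linarith
  -- bound for |Z|
  have hZcard : (Z.card : ℤ) ≤ 2 * n := by
    have hup : ∀ b : B, (W (b : Fin n → ZMod 2)) ^ 2 ≤
        (n : ℤ) ^ 2 * (if b = 0 then 1 else 0) + (n : ℤ) ^ 2 * (if b = one then 1 else 0)
          + (n : ℤ) * (1 - if b ∈ Z then 1 else 0) := by
      intro b
      by_cases hb : b ∈ Z
      · have hb' := hb
        rw [hZ, Finset.mem_filter] at hb'
        rcases hb'.2 with h | h | h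
        · subst h
          simp only [hb, if_true, ZeroMemClass.coe_zero, W_zero]
          split_ifs <;> nlinarith
        · subst h
          have hW1 : W (1 : Fin n → ZMod 2) = -(n : ℤ) := by simp [W, sgn_one]
          have : W ((one : B) : Fin n → ZMod 2) = -(n : ℤ) := by rw [hone]; exact hW1
          rw [this]
          simp only [hb, if_true]
          split_ifs <;> nlinarith
        · rw [h]
          simp only [hb, if_true]
          split_ifs <;> nlinarith
      · rw [hoff b hb]
        simp only [hb, if_false]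
        split_ifs <;> nlinarith
    have hsum := Finset.sum_le_sum (fun b (_ : b ∈ (Finset.univ : Finset B)) => hup b)
    rw [Finset.sum_add_distrib, Finset.sum_add_distrib, ← Finset.mul_sum, ← Finset.mul_sum,
      ← Finset.mul_sum, Finset.sum_sub_distrib] at hsum
    simp only [Finset.sum_ite_eq', Finset.mem_univ, if_true, Finset.sum_const, Finset.card_univ,
      nsmul_eq_mul, mul_one, Finset.sum_ite_mem, Finset.univ_inter] at hsum
    have hn' : (0 : ℤ) < n := by exact_mod_cast hnpos
    have h3 : (n : ℤ) * (Z.card : ℤ) ≤ n * (2 * n) := by nlinarith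
    exact le_of_mul_le_mul_left h3 hn'
  -- a maximal submodule avoiding Z
  set P : Set (Submodule (ZMod 2) B) := {L | ∀ b ∈ L, b ≠ 0 → b ∉ Z} with hP
  have hPne : P.Nonempty := ⟨⊥, by
    intro b hb hb0
    exact absurd ((Submodule.mem_bot _).mp hb) hb0⟩
  obtain ⟨L, hL⟩ := (Set.toFinite P).exists_maximal hPne
  have hLP : ∀ b ∈ L, b ≠ 0 → b ∉ Z := hL.1
  -- covering
  have hcover : ∀ b : B, ∃ l ∈ L, ∃ z ∈ Z, b = l + z := by
    intro b
    by_cases hb : b ∈ L
    · exact ⟨b, hb, 0, by simp [hZ], by simp⟩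
    · set L' := L ⊔ Submodule.span (ZMod 2) {b} with hL'
      have hnot : L' ∉ P := by
        intro hmem
        have hle : L' ≤ L := hL.2 hmem le_sup_left
        exact hb (hle (Submodule.mem_sup_right (Submodule.mem_span_singleton_self b)))
      rw [hP, Set.mem_ofPred_eq] at hnot
      push Not at hnot
      obtain ⟨b', hb', hb'0, hb'Z⟩ := hnot
      rw [hL', Submodule.mem_sup] at hb'
      obtain ⟨l, hl, y, hy, hly⟩ := hb'
      rw [Submodule.mem_span_singleton] at hy
      obtain ⟨k, hk⟩ := hy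
      rcases zmod2_cases k with h0 | h1'
      · rw [h0, zero_smul] at hk
        rw [← hk, add_zero] at hly
        exact absurd hb'Z (hLP b' (hly ▸ hl) hb'0)
      · rw [h1', one_smul] at hk
        refine ⟨-l, L.neg_mem hl, b', hb'Z, ?_⟩
        rw [← hly, ← hk]; abel
  have hcardLZ : Fintype.card B ≤ Fintype.card L * Z.card := by
    have hsurj : Function.Surjective (fun p : L × Z => ((p.1 : B) + (p.2 : B))) := by
      intro b
      obtain ⟨l, hl, z, hz, h⟩ := hcover b
      exact ⟨(⟨l, hl⟩, ⟨z, hz⟩), h.symm⟩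
    have h5 := Fintype.card_le_of_surjective _ hsurj
    rw [Fintype.card_prod, Fintype.card_coe] at h5
    exact h5
  have hLbig : n ≤ 2 * Fintype.card L := by
    have h2 : Z.card ≤ 2 * n := by exact_mod_cast hZcard
    have h3 : n * n ≤ Fintype.card L * (2 * n) :=
      hcard.trans (hcardLZ.trans (Nat.mul_le_mul_left _ h2))
    have h4 : n * n ≤ (2 * Fintype.card L) * n := by linarith
    exact Nat.le_of_mul_le_mul_right h4 hnpos
  -- |L| is a power of two
  have hLpow : Fintype.card L = 2 ^ Module.finrank (ZMod 2) L := by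
    have := Module.card_eq_pow_finrank (K := ZMod 2) (V := L)
    simpa [ZMod.card] using this
  set l := Module.finrank (ZMod 2) L with hl
  -- divisibility
  have hdiv : ((Fintype.card L : ℕ) : ℤ) ∣ ∑ b : L, W ((b : B) : Fin n → ZMod 2) := by
    unfold W
    rw [Finset.sum_comm]
    refine Finset.dvd_sum (fun i _ => ?_)
    have h2 : ∑ b : L, sgn (((b : B) : Fin n → ZMod 2) i)
        = ∑ b : L, sgn (((coordHom B i).comp L.subtype.toAddMonoidHom) b) := by
      refine Finset.sum_congr rfl (fun b _ => ?_)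
      rfl
    rw [h2, sum_char]
    split_ifs
    · exact dvd_refl _
    · exact dvd_zero _
  -- the value of the sum
  set s : ℤ := 2 ^ t with hs
  have hsn : (n : ℤ) = s * s := by rw [hn, hs]; push_cast; ring
  have hspos : 0 < s := by rw [hs]; positivity
  have hval : ∀ b : L, ∃ e : ℤ, W ((b : B) : Fin n → ZMod 2) = s * e ∧
      ((e : ZMod 2) = if b = 0 then 0 else 1) := by
    intro b
    by_cases hb : b = 0
    · refine ⟨s, ?_, ?_⟩
      · subst hb
        simp only [ZeroMemClass.coe_zero, W_zero, hsn]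
      · rw [if_pos hb, hs]
        have ht0 : t ≠ 0 := by omega
        push_cast
        rw [show ((2 : ZMod 2)) = 0 from by decide]
        exact zero_pow ht0
    · have hbB : (b : B) ≠ 0 := by
        intro h; exact hb (Subtype.ext h)
      have h2 := hoff (b : B) (hLP (b : B) b.2 hbB)
      rw [hsn] at h2
      have h3 : (W ((b : B) : Fin n → ZMod 2) - s) * (W ((b : B) : Fin n → ZMod 2) + s) = 0 := by
        linarith [h2]
      rcases mul_eq_zero.mp h3 with h | h
      · refine ⟨1, by linarith, ?_⟩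
        rw [if_neg hb]; simp
      · refine ⟨-1, by linarith, ?_⟩
        rw [if_neg hb]; decide
  choose e he1 he2 using hval
  have hsum : ∑ b : L, W ((b : B) : Fin n → ZMod 2) = s * ∑ b : L, e b := by
    rw [Finset.mul_sum]; exact Finset.sum_congr rfl (fun b _ => he1 b)
  have hl1 : 1 ≤ l := by
    by_contra hcon
    have : l = 0 := by omega
    rw [this, pow_zero] at hLpow
    rw [hLpow, hn] at hLbig
    have : 2 ^ 2 * 2 ^ 2 ≤ 2 ^ t * 2 ^ t :=
      Nat.mul_le_mul (Nat.pow_le_pow_right (by norm_num) ht) (Nat.pow_le_pow_right (by norm_num) ht)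
    omega
  have hodd : ((∑ b : L, e b : ℤ) : ZMod 2) = 1 := by
    rw [Int.cast_sum, Finset.sum_congr rfl (fun b _ => he2 b)]
    have h5 : ∀ b : L, (if b = 0 then (0 : ZMod 2) else 1) = 1 - if b = 0 then 1 else 0 := by
      intro b; split_ifs <;> simp
    rw [Finset.sum_congr rfl (fun b _ => h5 b), Finset.sum_sub_distrib]
    simp only [Finset.sum_const, Finset.card_univ, nsmul_eq_mul, mul_one, Finset.sum_ite_eq',
      Finset.mem_univ, if_true]
    rw [hLpow]
    have hl0 : l ≠ 0 := by omega
    push_cast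
    rw [show ((2 : ZMod 2)) = 0 from by decide, zero_pow hl0]
    decide
  have hodd' : Odd (∑ b : L, e b) := by
    rw [← Int.not_even_iff_odd]
    intro heven
    rw [even_iff_two_dvd] at heven
    have : ((∑ b : L, e b : ℤ) : ZMod 2) = 0 := by
      have := (ZMod.intCast_zmod_eq_zero_iff_dvd (∑ b : L, e b) 2).mpr (by exact_mod_cast heven)
      exact this
    rw [this] at hodd
    exact absurd hodd (by decide)
  rw [hsum, hLpow] at hdiv
  have hdiv2 : ((2 : ℤ) ^ l) ∣ (2 : ℤ) ^ t := by
    have hcop : IsCoprime ((2 : ℤ) ^ l) (∑ b : L, e b) := by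
      apply IsCoprime.pow_left
      have := (Int.not_even_iff_odd.mpr hodd')
      exact (Int.prime_two.coprime_iff_not_dvd).mpr (by rwa [even_iff_two_dvd] at this)
    have : ((2 : ℤ) ^ l) ∣ (2 : ℤ) ^ t * ∑ b : L, e b := by
      have h6 := hdiv
      push_cast at h6
      exact h6
    exact hcop.dvd_of_dvd_mul_right this
  have hlt : l ≤ t := by
    have h7 : (2 : ℕ) ^ l ∣ 2 ^ t := by exact_mod_cast hdiv2
    exact (Nat.pow_dvd_pow_iff_le_right (by norm_num)).mp h7
  have : 2 ^ l ≤ 2 ^ t := Nat.pow_le_pow_right (by norm_num) hlt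
  rw [hLpow, hn] at hLbig
  have h8 : 2 ^ t * 2 ^ t ≤ 2 * 2 ^ t := hLbig.trans (Nat.mul_le_mul_left 2 this)
  have h9 : 2 ^ t ≤ 2 := Nat.le_of_mul_le_mul_right h8 (by positivity)
  have h10 : 2 ^ 2 ≤ 2 ^ t := Nat.pow_le_pow_right (by norm_num) ht
  omega

end Pool.Agent.MP_3ca114_lc
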