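import Mathlib

set_option autoImplicit false

/-!
A form of the theorem of Ax over the field with two elements: the parity of normalised
character sums of a divisible code.
-/

namespace Pool.Agent.MP_3ca114_lc.Gt

open Finset

/-- the sign of an integer by parity -/
def par (z : ℤ) : ℤ := if Even z then 1 else -1

lemma par_add (a b : ℤ) : par (a + b) = par a * par b := by
  unfold par
  by_cases ha : Even a <;> by_cases hb : Even b <;> simp [Int.even_add, ha, hb]

lemma par_sum {ι : Type*} (s : Finset ι) (f : ι → ℤ) :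
    par (∑ i ∈ s, f i) = ∏ i ∈ s, par (f i) := by
  classical
  induction s using Finset.induction_on with
  | empty => simp [par]
  | insert a s ha ih => rw [Finset.sum_insert ha, Finset.prod_insert ha, par_add, ih]

/-- A family of at most `h`-element sets: the signed number of subsets. -/
lemma ax_family {K h e : ℕ} (hh : 1 ≤ h) (hK : (h - 1) * (e - 1) + e ≤ K)
    (F : Finset (Finset (Fin K))) (hF : ∀ S ∈ F, S.card ≤ h) :
    (2 : ℤ) ^ e ∣ ∑ T : Finset (Fin K), ∏ S ∈ F, (if S ⊆ T then (-1 : ℤ) else 1) := by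
  classical
  have h1 : ∀ T : Finset (Fin K), ∏ S ∈ F, (if S ⊆ T then (-1 : ℤ) else 1)
      = ∑ G ∈ F.powerset, (-2) ^ G.card * (if G.sup id ⊆ T then (1 : ℤ) else 0) := by
    intro T
    have h2 : ∀ S ∈ F, (if S ⊆ T then (-1 : ℤ) else 1)
        = (-2) * (if S ⊆ T then (1 : ℤ) else 0) + 1 := by
      intro S _; split_ifs <;> norm_num
    rw [Finset.prod_congr rfl h2, Finset.prod_add]
    refine Finset.sum_congr rfl (fun G hG => ?_)
    rw [Finset.prod_const_one, mul_one, Finset.prod_mul_distrib, Finset.prod_const]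
    congr 1
    by_cases hs : G.sup id ⊆ T
    · rw [if_pos hs]
      refine Finset.prod_eq_one (fun S hS => ?_)
      rw [if_pos]
      exact (Finset.le_sup (f := id) hS).trans hs
    · rw [if_neg hs]
      have : ∃ S ∈ G, ¬ S ⊆ T := by
        by_contra hcon
        push Not at hcon
        exact hs (Finset.sup_le (fun S hS => hcon S hS))
      obtain ⟨S, hS, hST⟩ := this
      exact Finset.prod_eq_zero hS (if_neg hST)
  rw [Finset.sum_congr rfl (fun T _ => h1 T), Finset.sum_comm]
  refine Finset.dvd_sum (fun G hG => ?_)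
  rw [← Finset.mul_sum]
  have hcount : ∑ T : Finset (Fin K), (if G.sup id ⊆ T then (1 : ℤ) else 0)
      = 2 ^ (K - (G.sup id).card) := by
    rw [Finset.sum_boole]
    have h3 : (Finset.univ.filter (fun T : Finset (Fin K) => G.sup id ⊆ T))
        = Finset.Icc (G.sup id) Finset.univ := by
      ext T; simp
    rw [h3, Finset.card_Icc_finset (Finset.subset_univ _)]
    simp
  rw [hcount]
  have hcard : (G.sup id).card ≤ h * G.card := by
    have h4 : ∀ G' ⊆ F, (G'.sup id).card ≤ h * G'.card := by
      intro G'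
      induction G' using Finset.induction_on with
      | empty => intro _; simp
      | insert a s ha ih =>
        intro hsub
        rw [Finset.sup_insert, Finset.card_insert_of_notMem ha]
        have h5 := ih (fun x hx => hsub (Finset.mem_insert_of_mem hx))
        have h6 := hF a (hsub (Finset.mem_insert_self a s))
        calc _ ≤ (id a).card + (s.sup id).card := Finset.card_union_le _ _
          _ ≤ h + h * s.card := Nat.add_le_add h6 h5
          _ = h * (s.card + 1) := by ring
    exact h4 G (Finset.mem_powerset.mp hG)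
  have e1 : ((-2 : ℤ)) ^ G.card * 2 ^ (K - (G.sup id).card)
      = (-1) ^ G.card * 2 ^ (G.card + (K - (G.sup id).card)) := by
    rw [pow_add, neg_pow]; ring
  rw [e1]
  apply Dvd.dvd.mul_left
  apply pow_dvd_pow
  by_cases hr : e ≤ G.card
  · omega
  · have hr' : G.card ≤ e - 1 := by omega
    have h7 : h * G.card = (h - 1) * G.card + G.card := by
      obtain ⟨h', rfl⟩ : ∃ h', h = h' + 1 := ⟨h - 1, by omega⟩
      simp; ring
    have h8 : (h - 1) * G.card ≤ (h - 1) * (e - 1) := Nat.mul_le_mul_left _ hr'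
    omega

/-- parity sums of the normalised character sums of a divisible code -/
theorem ax_code {W : Type*} [Fintype W] {K h e : ℕ} (hh : 1 ≤ h)
    (hK : (h - 1) * (e - 1) + e ≤ K) (β : Fin K → W → ℤ) (x : Finset (Fin K) → ℤ)
    (hx : ∀ T, 2 ^ h * x T = ∑ v, ∏ i ∈ T, (1 - 2 * β i v)) :
    (2 : ℤ) ^ e ∣ ∑ T : Finset (Fin K), par (x T) := by
  classical
  set NS : Finset (Fin K) → ℤ := fun S => ∑ v, ∏ i ∈ S, β i v with hNS
  have hexp : ∀ T, 2 ^ h * x T = ∑ S ∈ T.powerset, (-2) ^ S.card * NS S := by
    intro T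
    rw [hx]
    have h1 : ∀ v, ∏ i ∈ T, (1 - 2 * β i v) = ∑ S ∈ T.powerset, (-2) ^ S.card * ∏ i ∈ S, β i v := by
      intro v
      have h2 : ∀ i ∈ T, (1 - 2 * β i v) = (-2) * β i v + 1 := by intro i _; ring
      rw [Finset.prod_congr rfl h2, Finset.prod_add]
      refine Finset.sum_congr rfl (fun S _ => ?_)
      rw [Finset.prod_const_one, mul_one, Finset.prod_mul_distrib, Finset.prod_const]
    rw [Finset.sum_congr rfl (fun v _ => h1 v), Finset.sum_comm]
    refine Finset.sum_congr rfl (fun S _ => ?_)
    rw [← Finset.mul_sum]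
  have hdvd : ∀ S : Finset (Fin K), (2 : ℤ) ^ h ∣ (-2) ^ S.card * NS S := by
    intro S
    induction S using Finset.strongInduction with
    | H S ih =>
      have h1 := hexp S
      rw [← Finset.insert_erase (Finset.mem_powerset_self S),
        Finset.sum_insert (Finset.notMem_erase _ _)] at h1
      have h2 : (2 : ℤ) ^ h ∣ ∑ S' ∈ S.powerset.erase S, (-2) ^ S'.card * NS S' := by
        refine Finset.dvd_sum (fun S' hS' => ih S' ?_)
        rw [Finset.mem_erase, Finset.mem_powerset] at hS'
        exact Finset.ssubset_iff_subset_ne.mpr ⟨hS'.2, hS'.1⟩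
      have h3 : (-2) ^ S.card * NS S
          = 2 ^ h * x S - ∑ S' ∈ S.powerset.erase S, (-2) ^ S'.card * NS S' := by
        linarith
      rw [h3]
      exact dvd_sub (dvd_mul_right _ _) h2
  choose c hc using hdvd
  have hxc : ∀ T, x T = ∑ S ∈ T.powerset, c S := by
    intro T
    have h1 := hexp T
    rw [Finset.sum_congr rfl (fun S _ => hc S), ← Finset.mul_sum] at h1
    exact mul_left_cancel₀ (by positivity) h1
  have hce : ∀ S : Finset (Fin K), ¬ Even (c S) → S.card ≤ h := by
    intro S hodd
    by_contra hcon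
    push Not at hcon
    apply hodd
    have h1 := hc S
    obtain ⟨r, hr⟩ : ∃ r, S.card = h + 1 + r := ⟨S.card - (h + 1), by omega⟩
    rw [hr] at h1
    have h2 : (-2 : ℤ) ^ (h + 1 + r) = 2 ^ h * (2 * ((-1) ^ (h + 1 + r) * 2 ^ r)) := by
      rw [neg_pow]; ring
    rw [h2, mul_assoc] at h1
    have h3 := mul_left_cancel₀ (by positivity) h1
    rw [← h3]
    exact ⟨(-1) ^ (h + 1 + r) * 2 ^ r * NS S, by ring⟩
  set Fam : Finset (Finset (Fin K)) := Finset.univ.filter (fun S => ¬ Even (c S)) with hFam
  have hpar : ∀ T, par (x T) = ∏ S ∈ Fam, (if S ⊆ T then (-1 : ℤ) else 1) := by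
    intro T
    rw [hxc, par_sum]
    have h1 : ∏ S ∈ Fam, (if S ⊆ T then (-1 : ℤ) else 1)
        = ∏ S : Finset (Fin K), (if ¬ Even (c S) then (if S ⊆ T then (-1 : ℤ) else 1) else 1) := by
      rw [hFam, Finset.prod_filter]
    have h2 : ∏ S ∈ T.powerset, par (c S)
        = ∏ S : Finset (Fin K), (if S ⊆ T then par (c S) else 1) := by
      rw [← Finset.prod_filter]
      congr 1
      ext S; simp
    rw [h1, h2]
    refine Finset.prod_congr rfl (fun S _ => ?_)
    unfold par
    by_cases h3 : Even (c S) <;> by_cases h4 : S ⊆ T <;> simp [h3, h4]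
  rw [Finset.sum_congr rfl (fun T _ => hpar T)]
  refine ax_family hh hK Fam (fun S hS => hce S ?_)
  rw [hFam, Finset.mem_filter] at hS
  exact hS.2

end Pool.Agent.MP_3ca114_lc.Gt
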