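import Pool.Agent.Lib.MP_3ca114_lc.GtPlateau

set_option autoImplicit false

/-!
Words orthogonal to the Reed-Muller code of order `m-3` are plateaued functions.
-/

namespace Pool.Agent.MP_3ca114_lc.Gt

open Finset

variable {m : ℕ}

/-- the binary Reed-Muller code of order `r` and length `2 ^ m` -/
def RM (r m : ℕ) : Set (Pt m → ZMod 2) :=
  {f | ∃ p : MvPolynomial (Fin m) (ZMod 2), p.totalDegree ≤ r ∧ ∀ x, f x = MvPolynomial.eval x p}

/-- sum over the eight points of a (possibly degenerate) cube -/
def cubeSum (g : Pt m → ZMod 2) (x a b c : Pt m) : ZMod 2 :=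
  ∑ u : ZMod 2 × ZMod 2 × ZMod 2, g (x + (u.1 • a + (u.2.1 • b + u.2.2 • c)))

/-- the linear map of a cube -/
def cubeMap (a b c : Pt m) : (ZMod 2 × ZMod 2 × ZMod 2) →ₗ[ZMod 2] Pt m :=
  LinearMap.coprod (LinearMap.toSpanSingleton (ZMod 2) (Pt m) a)
    (LinearMap.coprod (LinearMap.toSpanSingleton (ZMod 2) (Pt m) b)
      (LinearMap.toSpanSingleton (ZMod 2) (Pt m) c))

lemma cubeMap_apply (a b c : Pt m) (u : ZMod 2 × ZMod 2 × ZMod 2) :
    cubeMap a b c u = u.1 • a + (u.2.1 • b + u.2.2 • c) := by
  simp [cubeMap]

lemma self_add {M : Type*} [AddCommGroup M] [Module (ZMod 2) M] (x : M) : x + x = 0 := by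
  have h : (2 : ZMod 2) • x = x + x := two_smul _ x
  have h2 : (2 : ZMod 2) = 0 := by decide
  rw [h2, zero_smul] at h
  exact h.symm

/-- the degenerate case -/
lemma cubeSum_degenerate (g : Pt m → ZMod 2) (x a b c : Pt m)
    (h : ¬ Function.Injective (cubeMap a b c)) : cubeSum g x a b c = 0 := by
  have h1 : ∃ k, k ≠ 0 ∧ cubeMap a b c k = 0 := by
    by_contra hcon
    push Not at hcon
    apply h
    rw [← LinearMap.ker_eq_bot, LinearMap.ker_eq_bot']
    intro k hk
    by_contra hk0
    exact hcon k hk0 hk
  obtain ⟨k, hk0, hk⟩ := h1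
  unfold cubeSum
  refine Finset.sum_involution (fun u _ => u + k) (fun u _ => ?_) (fun u _ _ h2 => ?_)
    (fun u _ => Finset.mem_univ _) (fun u _ => ?_)
  · have h2 : x + ((u + k).1 • a + ((u + k).2.1 • b + (u + k).2.2 • c))
        = x + (u.1 • a + (u.2.1 • b + u.2.2 • c)) := by
      rw [← cubeMap_apply, ← cubeMap_apply, map_add, hk, add_zero]
    rw [h2]
    exact CharTwo.add_self_eq_zero _
  · apply hk0
    have : u + k = u + 0 := by rw [add_zero]; exact h2
    exact add_left_cancel this
  · rw [add_assoc, self_add, add_zero]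

/-- the characteristic word of a nondegenerate cube lies in the Reed-Muller code -/
lemma cube_mem_RM (x a b c : Pt m) (h : Function.Injective (cubeMap a b c)) :
    (fun y => ∑ u : ZMod 2 × ZMod 2 × ZMod 2,
      if x + cubeMap a b c u = y then (1 : ZMod 2) else 0) ∈ RM (m - 3) m := by
  classical
  set ψ := cubeMap a b c with hψ
  set W := LinearMap.range ψ with hW
  have hrank : Module.finrank (ZMod 2) W = 3 := by
    rw [hW, LinearMap.finrank_range_of_inj h]
    simp
  have hquot : Module.finrank (ZMod 2) (Pt m ⧸ W) = m - 3 := by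
    have h1 := Submodule.finrank_quotient_add_finrank W
    rw [hrank] at h1
    simp at h1
    omega
  let e : (Pt m ⧸ W) ≃ₗ[ZMod 2] (Fin (m - 3) → ZMod 2) :=
    LinearEquiv.ofFinrankEq _ _ (by rw [hquot]; simp)
  let φ : Pt m →ₗ[ZMod 2] (Fin (m - 3) → ZMod 2) := e.toLinearMap ∘ₗ W.mkQ
  have hφ : ∀ z, φ z = 0 ↔ z ∈ W := by
    intro z
    change e (W.mkQ z) = 0 ↔ z ∈ W
    rw [e.map_eq_zero_iff]
    simp
  let p : MvPolynomial (Fin m) (ZMod 2) := ∏ i : Fin (m - 3),
    (MvPolynomial.C (1 + φ x i) + ∑ j : Fin m,
      MvPolynomial.C (φ (Pi.single j 1) i) * MvPolynomial.X j)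
  refine ⟨p, ?_, ?_⟩
  · refine (MvPolynomial.totalDegree_finsetProd _ _).trans ?_
    calc ∑ i : Fin (m - 3), (MvPolynomial.C (1 + φ x i) + ∑ j : Fin m,
          MvPolynomial.C (φ (Pi.single j 1) i) * MvPolynomial.X j).totalDegree
        ≤ ∑ _i : Fin (m - 3), 1 := by
          refine Finset.sum_le_sum (fun i _ => ?_)
          refine (MvPolynomial.totalDegree_add _ _).trans ?_
          rw [MvPolynomial.totalDegree_C]
          refine max_le (by norm_num) ?_
          refine (MvPolynomial.totalDegree_finsetSum _ _).trans ?_
          refine Finset.sup_le (fun j _ => ?_)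
          refine (MvPolynomial.totalDegree_mul _ _).trans ?_
          rw [MvPolynomial.totalDegree_C, MvPolynomial.totalDegree_X]
      _ = m - 3 := by simp
  · intro y
    have h1 : MvPolynomial.eval y p = ∏ i : Fin (m - 3), (1 + φ (x + y) i) := by
      change MvPolynomial.eval y (∏ i : Fin (m - 3), _) = _
      rw [map_prod]
      refine Finset.prod_congr rfl (fun i _ => ?_)
      rw [map_add, map_sum, MvPolynomial.eval_C]
      have h2 : φ (x + y) i = φ x i + ∑ j : Fin m, φ (Pi.single j 1) i * y j := by
        rw [map_add, Pi.add_apply]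
        congr 1
        have h3 : y = ∑ j : Fin m, y j • (Pi.single j (1 : ZMod 2) : Pt m) := by
          funext k
          simp [Finset.sum_apply, Pi.single_apply]
        conv_lhs => rw [h3]
        rw [map_sum, Finset.sum_apply]
        refine Finset.sum_congr rfl (fun j _ => ?_)
        rw [map_smul, Pi.smul_apply, smul_eq_mul, mul_comm]
      rw [h2]
      simp only [map_mul, MvPolynomial.eval_C, MvPolynomial.eval_X]
      ring
    rw [h1]
    by_cases hy : x + y ∈ W
    · have h2 : φ (x + y) = 0 := (hφ _).mpr hy
      obtain ⟨u0, hu0⟩ := hy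
      rw [h2]
      simp only [Pi.zero_apply, add_zero, Finset.prod_const_one]
      rw [Finset.sum_eq_single u0]
      · rw [if_pos]
        rw [hu0, ← add_assoc, self_add, zero_add]
      · intro u _ hu
        rw [if_neg]
        intro h3
        apply hu
        apply h
        rw [hu0, ← h3, ← add_assoc, self_add, zero_add]
      · intro h3; exact absurd (Finset.mem_univ _) h3
    · have h2 : φ (x + y) ≠ 0 := fun h3 => hy ((hφ _).mp h3)
      have h3 : ∃ i, φ (x + y) i ≠ 0 := by
        by_contra hcon
        push Not at hcon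
        exact h2 (funext hcon)
      obtain ⟨i, hi⟩ := h3
      have h4 : 1 + φ (x + y) i = 0 := by
        rcases zmod2_cases (φ (x + y) i) with h5 | h5
        · exact absurd h5 hi
        · rw [h5]; decide
      rw [Finset.prod_eq_zero (Finset.mem_univ i) h4]
      refine Finset.sum_eq_zero (fun u _ => ?_)
      rw [if_neg]
      intro h5
      apply hy
      refine ⟨u, ?_⟩
      rw [← h5, ← add_assoc, self_add, zero_add]

/-- a word orthogonal to the Reed-Muller code has zero sum over every cube -/
lemma cubeSum_eq_zero {g : Pt m → ZMod 2} (hg : ∀ f ∈ RM (m - 3) m, pr g f = 0)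
    (x a b c : Pt m) : cubeSum g x a b c = 0 := by
  by_cases h : Function.Injective (cubeMap a b c)
  · have h1 := hg _ (cube_mem_RM x a b c h)
    unfold pr at h1
    simp only [Finset.mul_sum] at h1
    rw [Finset.sum_comm] at h1
    rw [← h1]
    unfold cubeSum
    refine Finset.sum_congr rfl (fun u _ => ?_)
    rw [Finset.sum_eq_single (x + cubeMap a b c u)]
    · rw [if_pos rfl, mul_one, cubeMap_apply]
    · intro y _ hy; rw [if_neg (fun h2 => hy h2.symm), mul_zero]
    · intro h2; exact absurd (Finset.mem_univ _) h2
  · exact cubeSum_degenerate g x a b c h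

lemma cubeSum_expand (g : Pt m → ZMod 2) (x a b c : Pt m) :
    cubeSum g x a b c = g x + g (x + c) + (g (x + b) + g (x + (b + c)))
      + (g (x + a) + g (x + (a + c)) + (g (x + (a + b)) + g (x + (a + (b + c))))) := by
  unfold cubeSum
  have h2 : ∀ f : ZMod 2 → ZMod 2, ∑ a : ZMod 2, f a = f 0 + f 1 := fun f => Fin.sum_univ_two f
  rw [Fintype.sum_prod_type]
  simp only [Fintype.sum_prod_type, h2]
  simp

/-- the associated bilinear form -/
def bil (g : Pt m → ZMod 2) (a b : Pt m) : ZMod 2 := g (a + b) + g a + g b + g 0

lemma bil_add {g : Pt m → ZMod 2} (hg : ∀ x a b c, cubeSum g x a b c = 0) (a a' b : Pt m) :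
    bil g (a + a') b = bil g a b + bil g a' b := by
  have h1 := hg 0 a a' b
  rw [cubeSum_expand] at h1
  simp only [zero_add] at h1
  unfold bil
  have e : a + a' + b = a + (a' + b) := add_assoc _ _ _
  rw [e]
  have key : ∀ p q r s t u v w : ZMod 2, p + q + (r + s) + (t + u + (v + w)) = 0 →
      w + v + q + p = u + t + q + p + (s + r + q + p) := by decide
  exact key _ _ _ _ _ _ _ _ h1

/-- quadratic functions are plateaued -/
theorem plateaued_of_cube {g : Pt m → ZMod 2} (hg : ∀ x a b c, cubeSum g x a b c = 0) :
    Plateaued g := by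
  classical
  -- the radical
  let R : AddSubgroup (Pt m) :=
    { carrier := {a | ∀ x, bil g x a = 0}
      zero_mem' := by
        intro x; unfold bil; rw [add_zero]
        generalize g x = p
        generalize g 0 = q
        revert p q; decide
      add_mem' := by
        intro a b ha hb x
        have hs : ∀ y z : Pt m, bil g y z = bil g z y := by
          intro y z; unfold bil; rw [add_comm y z]; ring
        rw [hs, bil_add hg, hs a x, hs b x, ha x, hb x, add_zero]
      neg_mem' := by
        intro a ha x
        have : -a = a := by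
          rw [neg_eq_iff_add_eq_zero]; exact self_add a
        rw [this]; exact ha x }
  have hsq : ∀ α : Pt m, walsh g α ^ 2
      = 2 ^ m * ∑ a : R, sgn (chi α a + g a + g 0) := by
    intro α
    have h1 : walsh g α ^ 2 = ∑ a : Pt m, ∑ x : Pt m,
        sgn (g x + g (x + a) + chi α a) := by
      rw [sq]
      unfold walsh
      rw [Finset.sum_mul_sum, Finset.sum_comm]
      have h2 : ∀ x : Pt m, ∑ a : Pt m, sgn (g x + g (x + a) + chi α a)
          = ∑ y : Pt m, sgn (g x + ∑ i, α i * x i) * sgn (g y + ∑ i, α i * y i) := by
        intro x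
        rw [← Equiv.sum_comp (Equiv.addLeft x)
          (fun y => sgn (g x + ∑ i, α i * x i) * sgn (g y + ∑ i, α i * y i))]
        refine Finset.sum_congr rfl (fun a _ => ?_)
        change _ = sgn (g x + ∑ i, α i * x i) * sgn (g (x + a) + ∑ i, α i * (x + a) i)
        rw [← sgn_add]
        congr 1
        have h3 : (∑ i, α i * (x + a) i) = (∑ i, α i * x i) + ∑ i, α i * a i := by
          rw [← Finset.sum_add_distrib]
          exact Finset.sum_congr rfl (fun i _ => by rw [Pi.add_apply]; ring)
        rw [h3]
        unfold chi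
        generalize (∑ i, α i * x i) = p
        generalize (∑ i, α i * a i) = q
        generalize g x = r
        generalize g (x + a) = s
        revert p q r s; decide
      rw [Finset.sum_comm (s := Finset.univ) (t := Finset.univ)
        (f := fun a x => sgn (g x + g (x + a) + chi α a))]
      rw [Finset.sum_congr rfl (fun x _ => h2 x)]
      rw [Finset.sum_comm]
    rw [h1]
    have h4 : ∀ a : Pt m, ∑ x : Pt m, sgn (g x + g (x + a) + chi α a)
        = sgn (chi α a + g a + g 0) * (if a ∈ R then (2 : ℤ) ^ m else 0) := by
      intro a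
      let φ : Pt m →+ ZMod 2 :=
        { toFun := fun x => bil g x a
          map_zero' := by
            change bil g 0 a = 0
            unfold bil; rw [zero_add]
            generalize g a = p
            generalize g 0 = q
            revert p q; decide
          map_add' := fun x y => bil_add hg x y a }
      have h5 := sum_char φ
      have h6 : φ = 0 ↔ a ∈ R := by
        constructor
        · intro h x; exact DFunLike.congr_fun h x
        · intro h; exact AddMonoidHom.ext (fun x => h x)
      have h7 : ∑ x : Pt m, sgn (φ x) = if a ∈ R then (2 : ℤ) ^ m else 0 := by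
        rw [h5]
        by_cases h0 : a ∈ R
        · rw [if_pos (h6.mpr h0), if_pos h0, card_Pt]
        · rw [if_neg (fun h => h0 (h6.mp h)), if_neg h0]
      rw [← h7, Finset.mul_sum]
      refine Finset.sum_congr rfl (fun x _ => ?_)
      rw [← sgn_add]
      congr 1
      change _ = chi α a + g a + g 0 + bil g x a
      unfold bil
      generalize chi α a = p
      generalize g a = q
      generalize g x = r
      generalize g (x + a) = s
      generalize g 0 = t
      revert p q r s t; decide
    rw [Finset.sum_congr rfl (fun a _ => h4 a)]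
    have h8 : ∀ a : Pt m, sgn (chi α a + g a + g 0) * (if a ∈ R then (2 : ℤ) ^ m else 0)
        = if a ∈ R then 2 ^ m * sgn (chi α a + g a + g 0) else 0 := by
      intro a; split_ifs <;> ring
    rw [Finset.sum_congr rfl (fun a _ => h8 a), ← Finset.sum_filter, Finset.mul_sum]
    refine (Finset.sum_subtype _ (fun a => ?_) _)
    simp
  have hval : ∀ α : Pt m, walsh g α = 0 ∨ walsh g α ^ 2 = 2 ^ m * Fintype.card R := by
    intro α
    let φ : R →+ ZMod 2 :=
      { toFun := fun a => chi α a + g a + g 0
        map_zero' := by
          change chi α 0 + g 0 + g 0 = 0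
          rw [add_assoc, CharTwo.add_self_eq_zero, add_zero]
          simp [chi]
        map_add' := by
          intro a b
          have h1 : bil g (a : Pt m) (b : Pt m) = 0 := b.2 a
          unfold bil at h1
          change chi α ((a : Pt m) + (b : Pt m)) + g ((a : Pt m) + (b : Pt m)) + g 0
            = chi α a + g a + g 0 + (chi α b + g b + g 0)
          have h2 : chi α ((a : Pt m) + (b : Pt m)) = chi α a + chi α b := by
            unfold chi
            rw [← Finset.sum_add_distrib]
            exact Finset.sum_congr rfl (fun i _ => by rw [Pi.add_apply]; ring)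
          rw [h2]
          revert h1
          generalize g ((a : Pt m) + (b : Pt m)) = p
          generalize g (a : Pt m) = q
          generalize g (b : Pt m) = r
          generalize g 0 = s
          generalize chi α (a : Pt m) = t
          generalize chi α (b : Pt m) = u
          revert p q r s t u; decide }
    have h1 := sum_char φ
    have h2 := hsq α
    have h3 : ∑ a : R, sgn (chi α a + g a + g 0) = if φ = 0 then (Fintype.card R : ℤ) else 0 := h1
    rw [h3] at h2
    split_ifs at h2 with h4
    · right; exact h2
    · left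
      rw [mul_zero] at h2
      exact pow_eq_zero_iff (two_ne_zero) |>.mp h2
  by_cases hall : ∀ α, walsh g α = 0
  · exact ⟨0, fun α => Or.inl (hall α)⟩
  · push Not at hall
    obtain ⟨α0, h0⟩ := hall
    refine ⟨walsh g α0, fun α => ?_⟩
    rcases hval α with h1 | h1
    · exact Or.inl h1
    · right
      apply sq_eq_sq_iff_eq_or_eq_neg.mp
      rw [h1, (hval α0).resolve_left h0]

end Pool.Agent.MP_3ca114_lc.Gt
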