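import Pool.Agent.Lib.MP_3ca114_lc.GtMain
import Pool.Agent.Lib.MP_3ca114_lc.GtQuad

set_option autoImplicit false

/-!
From the dual code to the code.
-/

namespace Pool.Agent.MP_3ca114_lc.Gt

open Finset

variable {m : ℕ}

/-- the dual code -/
def dual {V : Type*} [Fintype V] (C : Submodule (ZMod 2) (V → ZMod 2)) :
    Submodule (ZMod 2) (V → ZMod 2) where
  carrier := {g | ∀ c ∈ C, ∑ x, g x * c x = 0}
  zero_mem' := by intro c _; simp
  add_mem' := by
    intro a b ha hb c hc
    have h1 := ha c hc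
    have h2 := hb c hc
    calc ∑ x, (a + b) x * c x = ∑ x, a x * c x + ∑ x, b x * c x := by
          rw [← Finset.sum_add_distrib]
          exact Finset.sum_congr rfl (fun x _ => by rw [Pi.add_apply]; ring)
      _ = 0 := by rw [h1, h2, add_zero]
  smul_mem' := by
    intro r g hg c hc
    calc ∑ x, (r • g) x * c x = r * ∑ x, g x * c x := by
          rw [Finset.mul_sum]
          exact Finset.sum_congr rfl (fun x _ => by rw [Pi.smul_apply, smul_eq_mul]; ring)
      _ = 0 := by rw [hg c hc, mul_zero]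

lemma pr_comm {V : Type*} [Fintype V] (g w : V → ZMod 2) : pr g w = pr w g :=
  Finset.sum_congr rfl (fun _ _ => mul_comm _ _)

lemma sum_all_pr {V : Type*} [Fintype V] [DecidableEq V] (w : V → ZMod 2) :
    ∑ g : V → ZMod 2, sgn (pr g w) = if w = 0 then (2 : ℤ) ^ Fintype.card V else 0 := by
  let φ : (V → ZMod 2) →+ ZMod 2 :=
    { toFun := fun g => pr g w
      map_zero' := by simp [pr]
      map_add' := by intro a b; exact pr_add_left _ _ _ }
  have h3 := sum_char φ
  have h4 : (φ = 0) ↔ w = 0 := by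
    constructor
    · intro h
      ext v
      have := DFunLike.congr_fun h (Pi.single v (1 : ZMod 2))
      change pr (Pi.single v (1 : ZMod 2)) w = 0 at this
      unfold pr at this
      rw [Finset.sum_eq_single v] at this
      · simpa using this
      · intro b _ hb; simp [hb]
      · intro hb; exact absurd (Finset.mem_univ v) hb
    · intro h
      refine AddMonoidHom.ext (fun g => ?_)
      change pr g w = 0
      rw [h]; simp [pr]
  change ∑ g : V → ZMod 2, sgn (φ g) = _
  rw [h3]
  by_cases h0 : w = 0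
  · rw [if_pos (h4.mpr h0), if_pos h0]
    simp [ZMod.card]
  · rw [if_neg (fun h5 => h0 (h4.mp h5)), if_neg h0]

lemma card_dual_mul {V : Type*} [Fintype V] [DecidableEq V]
    (C : Submodule (ZMod 2) (V → ZMod 2)) :
    Nat.card (dual C) * Nat.card C = 2 ^ Fintype.card V := by
  classical
  have h1 : ∑ g : V → ZMod 2, ∑ c : C, sgn (pr g (c : V → ZMod 2))
      = (Fintype.card (dual C) : ℤ) * Fintype.card C := by
    have h2 : ∀ g : V → ZMod 2, ∑ c : C, sgn (pr g (c : V → ZMod 2))
        = if g ∈ dual C then (Fintype.card C : ℤ) else 0 := by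
      intro g
      have h3 : ∑ c : C, sgn (pr g (c : V → ZMod 2)) = ∑ c : C, sgn (pr (c : V → ZMod 2) g) :=
        Finset.sum_congr rfl (fun c _ => by rw [pr_comm])
      rw [h3]
      have h4 := sum_char (prHom C g)
      have h5 : prHom C g = 0 ↔ g ∈ dual C := by
        constructor
        · intro h c hc
          have h6 := DFunLike.congr_fun h (⟨c, hc⟩ : C)
          change pr c g = 0 at h6
          rw [pr_comm] at h6
          exact h6
        · intro h
          refine AddMonoidHom.ext (fun c => ?_)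
          change pr (c : V → ZMod 2) g = 0
          rw [pr_comm]
          exact h c c.2
      change ∑ c : C, sgn (prHom C g c) = _
      rw [h4]
      by_cases h0 : g ∈ dual C
      · rw [if_pos (h5.mpr h0), if_pos h0]
      · rw [if_neg (fun h => h0 (h5.mp h)), if_neg h0]
    have h7 : Fintype.card (dual C) = (Finset.univ.filter (fun g => g ∈ dual C)).card :=
      Fintype.card_subtype _
    rw [Finset.sum_congr rfl (fun g _ => h2 g), ← Finset.sum_filter, Finset.sum_const,
      nsmul_eq_mul, h7]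
  have h2 : ∑ g : V → ZMod 2, ∑ c : C, sgn (pr g (c : V → ZMod 2)) = (2 : ℤ) ^ Fintype.card V := by
    rw [Finset.sum_comm]
    have h8 : ∀ c : C, ∑ g : V → ZMod 2, sgn (pr g (c : V → ZMod 2))
        = if (c : V → ZMod 2) = 0 then (2 : ℤ) ^ Fintype.card V else 0 :=
      fun c => sum_all_pr (c : V → ZMod 2)
    rw [Finset.sum_congr rfl (fun c _ => h8 c)]
    have h3 : ∀ c : C, (if (c : V → ZMod 2) = 0 then (2 : ℤ) ^ Fintype.card V else 0)
        = if c = 0 then (2 : ℤ) ^ Fintype.card V else 0 := by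
      intro c
      by_cases h0 : c = 0
      · subst h0; simp
      · have h4 : (c : V → ZMod 2) ≠ 0 := fun h => h0 (Subtype.ext h)
        rw [if_neg h0, if_neg h4]
    rw [Finset.sum_congr rfl (fun c _ => h3 c)]
    simp
  rw [Nat.card_eq_fintype_card, Nat.card_eq_fintype_card]
  have h3 := h1.symm.trans h2
  exact_mod_cast h3

/-- a word outside of a code is detected by the dual code -/
lemma exists_dual_ne {V : Type*} [Fintype V] [DecidableEq V]
    (C : Submodule (ZMod 2) (V → ZMod 2)) {w : V → ZMod 2} (hw : w ∉ C) :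
    ∃ g ∈ dual C, pr g w ≠ 0 := by
  obtain ⟨f, hf, hker⟩ := Submodule.exists_le_ker_of_notMem hw
  have hrep : ∀ v : V → ZMod 2, f v = ∑ x, f (Pi.single x 1) * v x := by
    intro v
    have h3 : v = ∑ x : V, v x • (Pi.single x (1 : ZMod 2) : V → ZMod 2) := by
      funext k
      simp [Finset.sum_apply, Pi.single_apply]
    conv_lhs => rw [h3]
    rw [map_sum]
    refine Finset.sum_congr rfl (fun x _ => ?_)
    rw [map_smul, smul_eq_mul, mul_comm]
  refine ⟨fun x => f (Pi.single x 1), ?_, ?_⟩
  · intro c hc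
    rw [← hrep]
    exact hker hc
  · unfold pr
    rw [← hrep]
    exact hf

lemma dd_dual {V : Type*} [Fintype V] [DecidableEq V] (C : Submodule (ZMod 2) (V → ZMod 2))
    (hC : ∀ c ∈ C, c ≠ 0 → 8 ≤ hammingNorm c) : DD (dual C) := by
  intro w hw h7
  apply exists_dual_ne
  intro hwC
  have := hC w hwC hw
  omega

/-- the bound for codes with plateaued dual words -/
theorem bound_plateaued (hm : Even m) (h6 : 6 ≤ m)
    (C : Submodule (ZMod 2) (Pt m → ZMod 2)) (hC : ∀ c ∈ C, c ≠ 0 → 8 ≤ hammingNorm c)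
    (hpl : ∀ g : Pt m → ZMod 2, (∀ c ∈ C, ∑ x, g x * c x = 0) → Plateaued g) :
    Nat.card C ≤ 2 ^ (2 ^ m - 3 * m) := by
  obtain ⟨k, hk⟩ := hm
  have h1 := main_bound (k := k) (by omega) (by omega) (dual C) (dd_dual C hC)
    (fun g hg => hpl g hg)
  have h2 := card_dual_mul C
  have h3 : Fintype.card (Pt m) = 2 ^ m := by simp [ZMod.card]
  rw [h3] at h2
  have h4 : 2 ^ (3 * m) * Nat.card C ≤ 2 ^ (2 ^ m) := by
    rw [← h2]; exact Nat.mul_le_mul_right _ h1
  have h5 : 3 * m ≤ 2 ^ m := by
    by_contra hcon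
    push Not at hcon
    have h7 : 2 ^ (2 ^ m) < 2 ^ (3 * m) := Nat.pow_lt_pow_right (by norm_num) hcon
    have h8 : 0 < Nat.card C := Nat.card_pos
    have h9 : 2 ^ (3 * m) * 1 ≤ 2 ^ (3 * m) * Nat.card C := Nat.mul_le_mul_left _ h8
    omega
  have h7 : 2 ^ (2 ^ m) = 2 ^ (3 * m) * 2 ^ (2 ^ m - 3 * m) := by
    rw [← pow_add]; congr 1; omega
  rw [h7] at h4
  exact Nat.le_of_mul_le_mul_left h4 (by positivity)

/-- the bound for codes containing a Reed-Muller code -/
theorem bound_RM (hm : Even m) (h6 : 6 ≤ m)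
    (C : Submodule (ZMod 2) (Pt m → ZMod 2)) (hC : ∀ c ∈ C, c ≠ 0 → 8 ≤ hammingNorm c)
    (hRM : ∀ f ∈ RM (m - 3) m, f ∈ C) :
    Nat.card C ≤ 2 ^ (2 ^ m - 3 * m) := by
  refine bound_plateaued hm h6 C hC (fun g hg => ?_)
  refine plateaued_of_cube (fun x a b c => cubeSum_eq_zero (fun f hf => ?_) x a b c)
  exact hg f (hRM f hf)

end Pool.Agent.MP_3ca114_lc.Gt
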