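import Mathlib

set_option autoImplicit false

/-!
The counting argument: the even moments up to the sixth together with the odd moments force
the distribution of the Walsh amplitudes.
-/

namespace Pool.Agent.MP_3ca114_lc.Gt

open Finset

lemma card_filter_eq_sum {ι : Type*} [Fintype ι] (p : ι → Prop) [DecidablePred p] :
    ((Finset.univ.filter p).card : ℤ) = ∑ g, if p g then (1 : ℤ) else 0 := by
  rw [Finset.sum_boole]

theorem counting {ι : Type*} [Fintype ι] [DecidableEq ι] (F T : ι → ℤ) (n N : ℤ)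
    (hn : 5 ≤ n) (hN : N = Fintype.card ι)
    (h1 : ∀ g, F g = 0 ∨ F g ^ 2 = n * T g)
    (hT1 : ∀ g, T g = 1 ∨ 4 ≤ T g) (hTn : ∀ g, T g ≤ n) (hF : ∀ g, -n ≤ F g)
    (hT1F : ∀ g, T g = 1 → F g ^ 2 = n)
    (o : ι) (ho : F o = n) (huo : ∀ g, F g = n → g = o)
    (hue : ∀ g g', F g = -n → F g' = -n → g = g')
    (m2 : ∑ g, F g ^ 2 = N * n) (m3 : ∑ g, F g ^ 3 = 0)
    (m4 : ∑ g, F g ^ 4 = N * (3 * n ^ 2 - 2 * n)) (m5 : ∑ g, F g ^ 5 = 0)
    (m6 : ∑ g, F g ^ 6 = N * (15 * n ^ 3 - 30 * n ^ 2 + 16 * n)) (m7 : ∑ g, F g ^ 7 = 0)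
    (t1 : n ^ 2 * ∑ g, T g = N * (3 * n ^ 2 - 2 * n))
    (t2 : n ^ 3 * ∑ g, T g ^ 2 = N * (15 * n ^ 3 - 30 * n ^ 2 + 16 * n))
    (hle : 2 * N ≤ n ^ 3) :
    2 * N = n ^ 3 ∧ 6 * ((Finset.univ.filter (fun g => T g = 1)).card : ℤ) = n * (n - 2) * (n + 8)
      ∧ ((Finset.univ.filter (fun g => T g = n)).card : ℤ) = 2 * n
      ∧ ∀ g, T g = 1 ∨ T g = 4 ∨ T g = n := by
  have hn0 : 0 < n := by linarith
  have hp : 0 < (n - 1) * (n - 4) := by
    apply mul_pos <;> linarith
  -- step A
  set A : ι → ℤ := fun g => F g ^ 2 * (F g ^ 2 - n) * (F g ^ 2 - 4 * n) * (n + F g) with hA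
  have hTpos : ∀ g, 0 ≤ T g * (T g - 1) * (T g - 4) := by
    intro g
    rcases hT1 g with h | h
    · rw [h]; norm_num
    · apply mul_nonneg
      · apply mul_nonneg <;> linarith
      · linarith
  have hA0 : ∀ g, 0 ≤ A g := by
    intro g
    rcases h1 g with h | h
    · simp [hA, h]
    · have e : A g = n ^ 3 * (T g * (T g - 1) * (T g - 4)) * (n + F g) := by
        simp only [hA, h]; ring
      rw [e]
      apply mul_nonneg
      · exact mul_nonneg (by positivity) (hTpos g)
      · have := hF g; linarith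
  have hAsum : ∑ g, A g = 4 * n ^ 2 * N * ((n - 1) * (n - 4)) := by
    have e : ∀ g, A g = n * F g ^ 6 - 5 * n ^ 2 * F g ^ 4 + 4 * n ^ 3 * F g ^ 2
        + F g ^ 7 - 5 * n * F g ^ 5 + 4 * n ^ 2 * F g ^ 3 := by
      intro g; simp only [hA]; ring
    rw [Finset.sum_congr rfl (fun g _ => e g)]
    simp only [Finset.sum_add_distrib, Finset.sum_sub_distrib, ← Finset.mul_sum]
    rw [m2, m3, m4, m5, m6, m7]; ring
  have hAo : A o = 2 * n ^ 5 * ((n - 1) * (n - 4)) := by
    simp only [hA, ho]; ring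
  have hsplit : A o + ∑ g ∈ Finset.univ.erase o, A g = ∑ g, A g :=
    Finset.add_sum_erase _ _ (Finset.mem_univ o)
  have hrest : 0 ≤ ∑ g ∈ Finset.univ.erase o, A g := Finset.sum_nonneg (fun g _ => hA0 g)
  have hge : n ^ 3 ≤ 2 * N := by
    have h2 : 2 * n ^ 5 * ((n - 1) * (n - 4)) ≤ 4 * n ^ 2 * N * ((n - 1) * (n - 4)) := by
      rw [← hAo, ← hAsum, ← hsplit]; linarith
    have h3 : 2 * n ^ 5 ≤ 4 * n ^ 2 * N := le_of_mul_le_mul_right h2 hp
    have h4 : (2 * n ^ 2) * n ^ 3 ≤ (2 * n ^ 2) * (2 * N) := by linarith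
    exact le_of_mul_le_mul_left h4 (by positivity)
  have hNn : 2 * N = n ^ 3 := le_antisymm hle hge
  have hrest0 : ∑ g ∈ Finset.univ.erase o, A g = 0 := by
    have : ∑ g ∈ Finset.univ.erase o, A g = ∑ g, A g - A o := by linarith
    rw [this, hAsum, hAo]
    have : 4 * n ^ 2 * N * ((n - 1) * (n - 4)) = 2 * n ^ 2 * (2 * N) * ((n - 1) * (n - 4)) := by
      ring
    rw [this, hNn]; ring
  have hzero : ∀ g, g ≠ o → A g = 0 := by
    intro g hg
    exact (Finset.sum_eq_zero_iff_of_nonneg (fun g _ => hA0 g)).mp hrest0 g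
      (Finset.mem_erase.mpr ⟨hg, Finset.mem_univ g⟩)
  -- step B
  have hcases : ∀ g, g ≠ o → F g = 0 ∨ F g ^ 2 = n ∨ F g ^ 2 = 4 * n ∨ F g = -n := by
    intro g hg
    have := hzero g hg
    simp only [hA, mul_eq_zero] at this
    rcases this with ((h | h) | h) | h
    · left; exact pow_eq_zero_iff (two_ne_zero) |>.mp h
    · right; left; linarith
    · right; right; left; linarith
    · right; right; right; linarith
  set B : ι → ℤ := fun g => F g ^ 2 * (F g ^ 2 - n) * (F g ^ 2 - 4 * n) with hB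
  have hBsum : ∑ g, B g = 2 * n ^ 4 * ((n - 1) * (n - 4)) := by
    have e : ∀ g, B g = F g ^ 6 - 5 * n * F g ^ 4 + 4 * n ^ 2 * F g ^ 2 := by
      intro g; simp only [hB]; ring
    rw [Finset.sum_congr rfl (fun g _ => e g)]
    simp only [Finset.sum_add_distrib, Finset.sum_sub_distrib, ← Finset.mul_sum]
    rw [m2, m4, m6]
    have : N * (15 * n ^ 3 - 30 * n ^ 2 + 16 * n) - 5 * n * (N * (3 * n ^ 2 - 2 * n))
        + 4 * n ^ 2 * (N * n) = (2 * N) * (2 * n * ((n - 1) * (n - 4))) := by ring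
    rw [this, hNn]; ring
  have hBo : B o = n ^ 4 * ((n - 1) * (n - 4)) := by
    simp only [hB, ho]; ring
  obtain ⟨e, heo, hFe⟩ : ∃ e, e ≠ o ∧ F e = -n := by
    by_contra hcon
    push Not at hcon
    have h2 : ∑ g, B g = B o := by
      refine Finset.sum_eq_single o (fun g _ hg => ?_) (fun h => absurd (Finset.mem_univ o) h)
      rcases hcases g hg with h | h | h | h
      · simp [hB, h]
      · simp [hB, h]
      · simp [hB, h]
      · exact absurd h (hcon g hg)
    rw [hBsum, hBo] at h2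
    have h3 : 0 < n ^ 4 * ((n - 1) * (n - 4)) := by positivity
    linarith
  have hcases2 : ∀ g, g ≠ o → g ≠ e → F g = 0 ∨ F g ^ 2 = n ∨ F g ^ 2 = 4 * n := by
    intro g hg hge
    rcases hcases g hg with h | h | h | h
    · exact Or.inl h
    · exact Or.inr (Or.inl h)
    · exact Or.inr (Or.inr h)
    · exact absurd (hue g e h hFe) hge
  -- step C
  have hiff : ∀ g, T g = 1 ↔ F g ^ 2 = n := by
    intro g
    refine ⟨hT1F g, fun h => ?_⟩
    rcases h1 g with h2 | h2
    · rw [h2] at h; norm_num at h; linarith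
    · rw [h] at h2
      have h3 : n * (T g - 1) = 0 := by linarith
      rcases mul_eq_zero.mp h3 with h4 | h4
      · linarith
      · linarith
  have hnn : n ^ 2 ≠ n := by
    intro h; nlinarith
  have hind : ∀ g, F g ^ 2 * (4 * n - F g ^ 2) = 3 * n ^ 2 * (if T g = 1 then (1 : ℤ) else 0)
      - n ^ 3 * (n - 4) * ((if g = o then (1 : ℤ) else 0) + (if g = e then (1 : ℤ) else 0)) := by
    intro g
    by_cases hgo : g = o
    · subst hgo
      have h2 : ¬ (T g = 1) := by
        rw [hiff, ho]; exact hnn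
      rw [if_neg h2, if_pos rfl, if_neg (fun h => heo h.symm), ho]; ring
    · by_cases hge : g = e
      · subst hge
        have h2 : ¬ (T g = 1) := by
          rw [hiff, hFe]; intro h; apply hnn; linarith [h, neg_sq n]
        rw [if_neg h2, if_neg hgo, if_pos rfl, hFe]; ring
      · rw [if_neg hgo, if_neg hge]
        rcases hcases2 g hgo hge with h | h | h
        · have h2 : ¬ (T g = 1) := by
            rw [hiff, h]; intro h3; norm_num at h3; linarith
          rw [if_neg h2, h]; ring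
        · rw [if_pos ((hiff g).mpr h), h]; ring
        · have h2 : ¬ (T g = 1) := by
            rw [hiff, h]; intro h3; linarith
          rw [if_neg h2, h]; ring
  set a : ℤ := ((Finset.univ.filter (fun g => T g = 1)).card : ℤ) with ha
  have ha' : a = ∑ g, if T g = 1 then (1 : ℤ) else 0 := card_filter_eq_sum _
  have h6a : 6 * a = n * (n - 2) * (n + 8) := by
    have h2 : ∑ g, F g ^ 2 * (4 * n - F g ^ 2) = N * (n ^ 2 + 2 * n) := by
      have e2 : ∀ g, F g ^ 2 * (4 * n - F g ^ 2) = 4 * n * F g ^ 2 - F g ^ 4 := by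
        intro g; ring
      rw [Finset.sum_congr rfl (fun g _ => e2 g), Finset.sum_sub_distrib, ← Finset.mul_sum, m2, m4]
      ring
    have h3 : ∑ g, F g ^ 2 * (4 * n - F g ^ 2) = 3 * n ^ 2 * a - n ^ 3 * (n - 4) * 2 := by
      rw [Finset.sum_congr rfl (fun g _ => hind g), Finset.sum_sub_distrib, ← Finset.mul_sum,
        ← Finset.mul_sum, Finset.sum_add_distrib, ← ha']
      simp
    have h4 : n ^ 2 * (6 * a) = n ^ 2 * (n * (n - 2) * (n + 8)) := by
      have h5 : N * (n ^ 2 + 2 * n) = 3 * n ^ 2 * a - n ^ 3 * (n - 4) * 2 := by rw [← h2, h3]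
      have h6 : (2 * N) * (n ^ 2 + 2 * n) = 6 * n ^ 2 * a - 4 * n ^ 3 * (n - 4) := by
        linear_combination 2 * h5
      rw [hNn] at h6
      linear_combination -h6
    exact mul_left_cancel₀ (by positivity) h4
  -- step D
  have hD0 : ∀ g, T g ≠ 1 → 0 ≤ (T g - 4) * (n - T g) := by
    intro g hg
    rcases hT1 g with h | h
    · exact absurd h hg
    · have := hTn g
      apply mul_nonneg <;> linarith
  set G : ι → ℤ := fun g => (T g - 4) * (n - T g) + 3 * (n - 1) * (if T g = 1 then (1 : ℤ) else 0)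
    with hG
  have hG0 : ∀ g, 0 ≤ G g := by
    intro g
    by_cases h : T g = 1
    · simp only [hG, if_pos h]; rw [h]; ring_nf; exact le_refl _
    · simp only [hG, if_neg h]; have := hD0 g h; linarith
  have hGsum : ∑ g, G g = 0 := by
    have h2 : n ^ 3 * ∑ g, (T g - 4) * (n - T g)
        = - (N * (n * (n - 1) * (n - 2) * (n + 8))) := by
      have e2 : ∀ g, (T g - 4) * (n - T g) = (n + 4) * T g - T g ^ 2 - 4 * n := by
        intro g; ring
      rw [Finset.sum_congr rfl (fun g _ => e2 g), Finset.sum_sub_distrib, Finset.sum_sub_distrib,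
        ← Finset.mul_sum, Finset.sum_const, Finset.card_univ, nsmul_eq_mul, ← hN]
      linear_combination (n * (n + 4)) * t1 - t2
    have h3 : ∑ g, G g = ∑ g, (T g - 4) * (n - T g) + 3 * (n - 1) * a := by
      simp only [hG]
      rw [Finset.sum_add_distrib, ← Finset.mul_sum, ← ha']
    have h4 : n ^ 3 * ∑ g, G g = n ^ 3 * 0 := by
      rw [h3, mul_add, h2]
      have h5 : 2 * (-(N * (n * (n - 1) * (n - 2) * (n + 8))) + n ^ 3 * (3 * (n - 1) * a)) = 0 := by
        linear_combination (-(n * (n - 1) * (n - 2) * (n + 8))) * hNn + (n ^ 3 * (n - 1)) * h6a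
      have h6 : -(N * (n * (n - 1) * (n - 2) * (n + 8))) + n ^ 3 * (3 * (n - 1) * a) = 0 := by
        omega
      rw [h6]; ring
    exact mul_left_cancel₀ (by positivity) h4
  have hGz : ∀ g, G g = 0 := fun g =>
    (Finset.sum_eq_zero_iff_of_nonneg (fun g _ => hG0 g)).mp hGsum g (Finset.mem_univ g)
  have hall : ∀ g, T g = 1 ∨ T g = 4 ∨ T g = n := by
    intro g
    by_cases h : T g = 1
    · exact Or.inl h
    · right
      have := hGz g
      simp only [hG, if_neg h, mul_zero, add_zero, mul_eq_zero] at this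
      rcases this with h2 | h2
      · left; linarith
      · right; linarith
  -- step E
  set r : ℤ := ((Finset.univ.filter (fun g => T g = n)).card : ℤ) with hr
  have hr' : r = ∑ g, if T g = n then (1 : ℤ) else 0 := card_filter_eq_sum _
  have hrval : r = 2 * n := by
    have e2 : ∀ g, T g - 4 = (n - 4) * (if T g = n then (1 : ℤ) else 0)
        - 3 * (if T g = 1 then (1 : ℤ) else 0) := by
      intro g
      rcases hall g with h | h | h
      · have h2 : ¬ (T g = n) := by rw [h]; intro h3; linarith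
        rw [if_neg h2, if_pos h, h]; ring
      · have h2 : ¬ (T g = n) := by rw [h]; intro h3; linarith
        have h3 : ¬ (T g = 1) := by rw [h]; norm_num
        rw [if_neg h2, if_neg h3, h]; ring
      · have h3 : ¬ (T g = 1) := by rw [h]; intro h3; linarith
        rw [if_pos h, if_neg h3, h]; ring
    have h3 : ∑ g, (T g - 4) = (n - 4) * r - 3 * a := by
      rw [Finset.sum_congr rfl (fun g _ => e2 g), Finset.sum_sub_distrib, ← Finset.mul_sum,
        ← Finset.mul_sum, ← ha', ← hr']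
    have h4 : ∑ g, (T g - 4) = ∑ g, T g - 4 * N := by
      rw [Finset.sum_sub_distrib, Finset.sum_const, Finset.card_univ, nsmul_eq_mul, ← hN]; ring
    have h5 : 2 * ∑ g, T g = 3 * n ^ 3 - 2 * n ^ 2 := by
      have h6 : n ^ 2 * (2 * ∑ g, T g) = n ^ 2 * (3 * n ^ 3 - 2 * n ^ 2) := by
        linear_combination 2 * t1 + (3 * n ^ 2 - 2 * n) * hNn
      exact mul_left_cancel₀ (by positivity) h6
    have h7 : (n - 4) * r = (n - 4) * (2 * n) := by
      have h8 : 2 * ((n - 4) * r) = 2 * ((n - 4) * (2 * n)) := by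
        have h9 : (n - 4) * r - 3 * a = ∑ g, T g - 4 * N := by rw [← h3, h4]
        linear_combination 2 * h9 + h5 + h6a - 4 * hNn
      linarith
    exact mul_left_cancel₀ (by intro h; linarith) h7
  exact ⟨hNn, h6a, hrval, hall⟩

end Pool.Agent.MP_3ca114_lc.Gt
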