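import Pool.Agent.Lib.MP_3ca114_lc.GtPlateau

set_option autoImplicit false

/-!
No code of dimension `3m-1` and dual distance `8` consists of plateaued functions.
-/

namespace Pool.Agent.MP_3ca114_lc.Gt

open Finset

variable {m : ℕ}

/-- affine functions inside a code -/
def affIn (D : Submodule (ZMod 2) (Pt m → ZMod 2)) : Submodule (ZMod 2) D where
  carrier := {g | ∃ (b : Pt m) (c : ZMod 2), (g : Pt m → ZMod 2) = chi b + fun _ => c}
  zero_mem' := ⟨0, 0, by rw [chi_zero]; funext x; simp⟩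
  add_mem' := by
    rintro g h ⟨b, c, h1⟩ ⟨b', c', h2⟩
    refine ⟨b + b', c + c', ?_⟩
    rw [Submodule.coe_add, h1, h2, chi_add]
    funext x; simp only [Pi.add_apply]; ring
  smul_mem' := by
    rintro r g ⟨b, c, h1⟩
    rcases zmod2_cases r with h | h
    · subst h
      exact ⟨0, 0, by rw [chi_zero]; funext x; simp⟩
    · subst h
      exact ⟨b, c, by rw [one_smul]; exact h1⟩

lemma mem_affIn {D : Submodule (ZMod 2) (Pt m → ZMod 2)} {g : D} :
    g ∈ affIn D ↔ ∃ (b : Pt m) (c : ZMod 2), (g : Pt m → ZMod 2) = chi b + fun _ => c := Iff.rfl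

/-- the main bound: a code with dual distance at least `8` all of whose words are plateaued
has at least `2 ^ (3 m)` words -/
theorem main_bound {k : ℕ} (hk : 3 ≤ k) (hm : m = 2 * k)
    (D : Submodule (ZMod 2) (Pt m → ZMod 2)) (hD : DD D)
    (hpl : ∀ g ∈ D, Plateaued g) : 2 ^ (3 * m) ≤ Nat.card D := by
  classical
  by_contra hcon
  push Not at hcon
  rw [Nat.card_eq_fintype_card] at hcon
  -- the number of words is a power of two
  obtain ⟨K1, hK1⟩ : ∃ K1, Fintype.card D = 2 ^ K1 := by
    refine ⟨Module.finrank (ZMod 2) D, ?_⟩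
    have := Module.card_eq_pow_finrank (K := ZMod 2) (V := D)
    rw [this, ZMod.card]
  have hK1lt : K1 < 3 * m := by
    rw [hK1] at hcon
    exact (Nat.pow_lt_pow_iff_right (by norm_num)).mp hcon
  have hcardV : (Fintype.card (Pt m) : ℤ) = 2 ^ m := card_Pt
  set n : ℤ := 2 ^ m with hn
  have hn64 : 64 ≤ n := by
    have : (2 : ℤ) ^ 6 ≤ 2 ^ m := pow_le_pow_right₀ (by norm_num) (by omega)
    rw [hn]; linarith
  have hle : 2 * (Fintype.card D : ℤ) ≤ n ^ 3 := by
    rw [hK1, hn]
    push_cast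
    have : (2 : ℤ) * 2 ^ K1 = 2 ^ (K1 + 1) := by ring
    rw [this, ← pow_mul]
    exact pow_le_pow_right₀ (by norm_num) (by omega)
  -- amplitudes
  choose t ht1 ht2 ht3 using fun g : D => amplitude hm (hpl g g.2)
  have hpos : ∀ g : D, 1 ≤ t g := by
    intro g
    rcases Nat.eq_zero_or_pos (t g) with h | h
    · have h1 := ht3 g
      rw [h] at h1
      norm_num at h1
      have : (0 : ℤ) < 2 ^ m := by positivity
      rw [← h1] at this
      exact absurd this (lt_irrefl _)
    · exact h
  have hw0 : ∀ g : D, walsh (g : Pt m → ZMod 2) 0 = FS (g : Pt m → ZMod 2) := by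
    intro g
    rw [walsh_eq, chi_zero, add_zero]
  have hT1 : ∀ g : D, (t g : ℤ) ^ 2 = 1 ∨ 4 ≤ (t g : ℤ) ^ 2 := by
    intro g
    rcases ht1 g with h | h
    · left; rw [h]; norm_num
    · right
      have h1 : 2 ≤ t g := Nat.le_of_dvd (hpos g) h
      have h2 : (2 : ℤ) ≤ t g := by exact_mod_cast h1
      nlinarith
  have hNpos : ∀ g : D, 1 ≤ ((Finset.univ.filter
      (fun a => walsh (g : Pt m → ZMod 2) a ≠ 0)).card : ℤ) := by
    intro g
    by_contra hc
    have h1 : ((Finset.univ.filter (fun a => walsh (g : Pt m → ZMod 2) a ≠ 0)).card : ℤ) = 0 := by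
      have : (0 : ℤ) ≤ ((Finset.univ.filter
        (fun a => walsh (g : Pt m → ZMod 2) a ≠ 0)).card : ℤ) := by positivity
      omega
    have h2 := ht3 g
    rw [h1, zero_mul] at h2
    have : (0 : ℤ) < 2 ^ m := by positivity
    rw [← h2] at this
    exact absurd this (lt_irrefl _)
  have hTn : ∀ g : D, (t g : ℤ) ^ 2 ≤ n := by
    intro g
    have h1 := ht3 g
    have h2 := hNpos g
    have h3 : 0 ≤ (t g : ℤ) ^ 2 := by positivity
    rw [hn, ← h1]
    nlinarith
  -- the number of nonzero Walsh coefficients is maximal for amplitude one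
  have hT1F : ∀ g : D, (t g : ℤ) ^ 2 = 1 → FS (g : Pt m → ZMod 2) ^ 2 = n := by
    intro g hg
    have h1 := ht3 g
    rw [hg, mul_one] at h1
    have h2 : (Finset.univ.filter (fun a => walsh (g : Pt m → ZMod 2) a ≠ 0))
        = Finset.univ := by
      apply Finset.eq_univ_of_card
      have : ((Finset.univ.filter (fun a => walsh (g : Pt m → ZMod 2) a ≠ 0)).card : ℤ)
          = (Fintype.card (Pt m) : ℤ) := by rw [h1, hcardV]
      exact_mod_cast this
    have h3 : (0 : Pt m) ∈ (Finset.univ.filter (fun a => walsh (g : Pt m → ZMod 2) a ≠ 0)) := by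
      rw [h2]; exact Finset.mem_univ _
    rw [Finset.mem_filter] at h3
    have h4 := (ht2 g 0).resolve_left h3.2
    rw [hw0, hg, mul_one] at h4
    rw [h4]
  -- moments
  have mom : ∀ j, j ≤ 7 → ∑ g : D, FS (g : Pt m → ZMod 2) ^ j
      = (Fintype.card D : ℤ) * ZT (Pt m) j := by
    intro j hj
    have := moment D hD 0 hj
    simpa using this
  have hz3 : ZT (Pt m) 3 = 0 := ZT_odd (by decide)
  have hz5 : ZT (Pt m) 5 = 0 := ZT_odd (by decide)
  have hz7 : ZT (Pt m) 7 = 0 := ZT_odd (by decide)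
  have hz2 : (ZT (Pt m) 2 : ℤ) = n := by rw [ZT_two, hcardV]
  have hz4 : (ZT (Pt m) 4 : ℤ) = 3 * n ^ 2 - 2 * n := by rw [ZT_four, hcardV]
  have hz6 : (ZT (Pt m) 6 : ℤ) = 15 * n ^ 3 - 30 * n ^ 2 + 16 * n := by rw [ZT_six, hcardV]
  have tot : ∀ j, 2 * j ≤ 7 → 0 < j → ∑ g : D, n ^ (j + 1) * ((t g : ℤ) ^ 2) ^ (j - 1)
      = n * ((Fintype.card D : ℤ) * ZT (Pt m) (2 * j)) := by
    intro j hj hj0
    have h1 : ∀ g : D, n ^ (j + 1) * ((t g : ℤ) ^ 2) ^ (j - 1)
        = ∑ a, walsh (g : Pt m → ZMod 2) a ^ (2 * j) :=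
      fun g => (power_sum (ht2 g) (ht3 g) j hj0).symm
    rw [Finset.sum_congr rfl (fun g _ => h1 g), Finset.sum_comm]
    have h2 : ∀ a : Pt m, ∑ g : D, walsh (g : Pt m → ZMod 2) a ^ (2 * j)
        = (Fintype.card D : ℤ) * ZT (Pt m) (2 * j) := by
      intro a
      simp only [walsh_eq]
      exact moment D hD (chi a) hj
    rw [Finset.sum_congr rfl (fun a _ => h2 a), Finset.sum_const, Finset.card_univ, nsmul_eq_mul,
      hcardV]
  have hn0 : (0 : ℤ) < n := by linarith
  have t1 : n ^ 2 * ∑ g : D, (t g : ℤ) ^ 2 = (Fintype.card D : ℤ) * (3 * n ^ 2 - 2 * n) := by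
    have h1 := tot 2 (by norm_num) (by norm_num)
    rw [← Finset.mul_sum] at h1
    have h2 : ∑ g : D, ((t g : ℤ) ^ 2) ^ (2 - 1) = ∑ g : D, (t g : ℤ) ^ 2 := by
      refine Finset.sum_congr rfl (fun g _ => by norm_num)
    rw [h2] at h1
    norm_num at h1
    rw [hz4] at h1
    have h3 : n * (n ^ 2 * ∑ g : D, (t g : ℤ) ^ 2)
        = n * ((Fintype.card D : ℤ) * (3 * n ^ 2 - 2 * n)) := by
      rw [← h1]; ring
    exact mul_left_cancel₀ (ne_of_gt hn0) h3
  have t2 : n ^ 3 * ∑ g : D, ((t g : ℤ) ^ 2) ^ 2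
      = (Fintype.card D : ℤ) * (15 * n ^ 3 - 30 * n ^ 2 + 16 * n) := by
    have h1 := tot 3 (by norm_num) (by norm_num)
    rw [← Finset.mul_sum] at h1
    have h2 : ∑ g : D, ((t g : ℤ) ^ 2) ^ (3 - 1) = ∑ g : D, ((t g : ℤ) ^ 2) ^ 2 := by
      refine Finset.sum_congr rfl (fun g _ => by norm_num)
    rw [h2] at h1
    have h4 : 2 * 3 = 6 := by norm_num
    rw [h4, hz6] at h1
    have h3 : n * (n ^ 3 * ∑ g : D, ((t g : ℤ) ^ 2) ^ 2)
        = n * ((Fintype.card D : ℤ) * (15 * n ^ 3 - 30 * n ^ 2 + 16 * n)) := by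
      rw [← h1]; ring
    exact mul_left_cancel₀ (ne_of_gt hn0) h3
  have hcount := counting (ι := D) (fun g => FS (g : Pt m → ZMod 2)) (fun g => (t g : ℤ) ^ 2)
    n (Fintype.card D : ℤ) (by linarith) rfl
    (by
      intro g
      have := ht2 g 0
      rw [hw0] at this
      exact this)
    hT1 hTn
    (by
      intro g
      have := neg_le_FS (g : Pt m → ZMod 2)
      rw [hcardV] at this
      exact this)
    hT1F 0
    (by
      rw [← hcardV]; simp [FS, sgn_zero])
    (by
      intro g hg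
      have h1 : FS (g : Pt m → ZMod 2) = (Fintype.card (Pt m) : ℤ) := by rw [hcardV]; exact hg
      exact Subtype.ext (FS_eq_card h1))
    (by
      intro g g' hg hg'
      have h1 : FS (g : Pt m → ZMod 2) = -(Fintype.card (Pt m) : ℤ) := by rw [hcardV]; exact hg
      have h2 : FS (g' : Pt m → ZMod 2) = -(Fintype.card (Pt m) : ℤ) := by rw [hcardV]; exact hg'
      exact Subtype.ext ((FS_eq_neg_card h1).trans (FS_eq_neg_card h2).symm))
    (by rw [mom 2 (by norm_num), hz2])
    (by rw [mom 3 (by norm_num), hz3]; simp)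
    (by rw [mom 4 (by norm_num), hz4])
    (by rw [mom 5 (by norm_num), hz5]; simp)
    (by rw [mom 6 (by norm_num), hz6])
    (by rw [mom 7 (by norm_num), hz7]; simp)
    t1 t2 hle
  obtain ⟨hN, h6a, hr, _⟩ := hcount
  -- affine functions
  have haff : ∀ g : D, (t g : ℤ) ^ 2 = n ↔ g ∈ affIn D := by
    intro g
    rw [mem_affIn]
    constructor
    · intro h
      have h1 := ht3 g
      rw [h] at h1
      have h2 : ((Finset.univ.filter (fun a => walsh (g : Pt m → ZMod 2) a ≠ 0)).card : ℤ) = 1 := by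
        have h3 : ((Finset.univ.filter (fun a => walsh (g : Pt m → ZMod 2) a ≠ 0)).card : ℤ) * n
            = 1 * n := by rw [h1]; ring
        exact mul_right_cancel₀ (ne_of_gt hn0) h3
      have h3 : (Finset.univ.filter (fun a => walsh (g : Pt m → ZMod 2) a ≠ 0)).card = 1 := by
        exact_mod_cast h2
      obtain ⟨a0, ha0⟩ := Finset.card_eq_one.mp h3
      have h4 : a0 ∈ Finset.univ.filter (fun a => walsh (g : Pt m → ZMod 2) a ≠ 0) := by
        rw [ha0]; exact Finset.mem_singleton_self _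
      rw [Finset.mem_filter] at h4
      have h5 := (ht2 g a0).resolve_left h4.2
      rw [h] at h5
      have h6 : walsh (g : Pt m → ZMod 2) a0 = n ∨ walsh (g : Pt m → ZMod 2) a0 = -n := by
        apply sq_eq_sq_iff_eq_or_eq_neg.mp
        rw [h5]; ring
      have hself : ∀ f : Pt m → ZMod 2, f + f = 0 := fun f => by
        funext x; exact CharTwo.add_self_eq_zero _
      rcases h6 with h7 | h7
      · rw [walsh_eq] at h7
        have h8 := FS_eq_card (h := (g : Pt m → ZMod 2) + chi a0) (by rw [h7, hcardV])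
        refine ⟨a0, 0, ?_⟩
        calc (g : Pt m → ZMod 2) = ((g : Pt m → ZMod 2) + chi a0) + chi a0 := by
              rw [add_assoc, hself, add_zero]
          _ = _ := by rw [h8]; funext x; simp
      · rw [walsh_eq] at h7
        have h8 := FS_eq_neg_card (h := (g : Pt m → ZMod 2) + chi a0) (by rw [h7, hcardV])
        refine ⟨a0, 1, ?_⟩
        calc (g : Pt m → ZMod 2) = ((g : Pt m → ZMod 2) + chi a0) + chi a0 := by
              rw [add_assoc, hself, add_zero]
          _ = _ := by rw [h8]; funext x; simp only [Pi.add_apply]; ring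
    · rintro ⟨b, c, hg⟩
      -- fourth power sum
      have h1 : ∑ a, walsh (g : Pt m → ZMod 2) a ^ 4 = n ^ 4 := by
        have h2 := fourth_affine (0 : Pt m → ZMod 2) b c
        rw [zero_add] at h2
        rw [hg, h2]
        have h3 : ∀ a : Pt m, walsh (0 : Pt m → ZMod 2) a ^ 4 = if a = 0 then n ^ 4 else 0 := by
          intro a
          have h4 : walsh (0 : Pt m → ZMod 2) a = if a = 0 then n else 0 := by
            have h5 := sum_chi a
            have h6 : ∑ x : Pt m, sgn (chi x a) = walsh (0 : Pt m → ZMod 2) a := by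
              unfold walsh
              refine Finset.sum_congr rfl (fun x _ => ?_)
              rw [chi_comm]; simp [chi]
            rw [← h6, h5]
          rw [h4]
          split_ifs <;> simp
        rw [Finset.sum_congr rfl (fun a _ => h3 a)]
        simp
      have h2 := power_sum (ht2 g) (ht3 g) 2 (by norm_num)
      norm_num at h2
      rw [h1] at h2
      have h3 : n ^ 3 * (t g : ℤ) ^ 2 = n ^ 3 * n := by
        rw [hn] at h2 ⊢
        rw [← h2]; ring
      exact mul_left_cancel₀ (by positivity) h3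
  -- the amplitude is constant on the cosets of the affine functions
  have hinv : ∀ (l g : D), l ∈ affIn D → (t (l + g) : ℤ) ^ 2 = (t g : ℤ) ^ 2 := by
    intro l g hl
    obtain ⟨b, c, hbc⟩ := mem_affIn.mp hl
    have h1 := power_sum (ht2 (l + g)) (ht3 (l + g)) 2 (by norm_num)
    have h2 := power_sum (ht2 g) (ht3 g) 2 (by norm_num)
    have h3 := fourth_affine (g : Pt m → ZMod 2) b c
    have h4 : ((l + g : D) : Pt m → ZMod 2) = (g : Pt m → ZMod 2) + (chi b + fun _ => c) := by
      rw [Submodule.coe_add, hbc, add_comm]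
    rw [← h4] at h3
    rw [show 2 * 2 = 4 from rfl, show 2 + 1 = 3 from rfl, show 2 - 1 = 1 from rfl, pow_one]
      at h1 h2
    rw [h3, h2] at h1
    exact (mul_left_cancel₀ (by positivity) h1).symm
  -- number of affine functions
  have hcardR : (Fintype.card (affIn D) : ℤ) = 2 * n := by
    rw [← hr, Fintype.card_subtype]
    congr 1
    congr 1
    ext g
    simp only [Finset.mem_filter, Finset.mem_univ, true_and]
    exact (haff g).symm
  obtain ⟨D0, hD0⟩ := Submodule.exists_isCompl (affIn D)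
  let e := Submodule.prodEquivOfIsCompl (affIn D) D0 hD0
  have he : ∀ p : affIn D × D0, e p = (p.1 : D) + (p.2 : D) := fun p => rfl
  have hcardD : (Fintype.card D : ℤ) = 2 * n * Fintype.card D0 := by
    have h1 := Fintype.card_congr e.toEquiv
    rw [Fintype.card_prod] at h1
    rw [← h1]; push_cast; rw [hcardR]
  set a0 : ℤ := ((Finset.univ.filter (fun d : D0 => (t (d : D) : ℤ) ^ 2 = 1)).card : ℤ) with ha0
  have ha0' : ((Finset.univ.filter (fun g : D => (t g : ℤ) ^ 2 = 1)).card : ℤ) = 2 * n * a0 := by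
    rw [card_filter_eq_sum, ← e.toEquiv.sum_comp, Fintype.sum_prod_type]
    have h1 : ∀ l : affIn D, ∑ d : D0, (if (t (e.toEquiv (l, d)) : ℤ) ^ 2 = 1 then (1 : ℤ) else 0)
        = a0 := by
      intro l
      rw [ha0, card_filter_eq_sum]
      refine Finset.sum_congr rfl (fun d _ => ?_)
      have h2 : (t (e.toEquiv (l, d)) : ℤ) ^ 2 = (t (d : D) : ℤ) ^ 2 := by
        have h3 : e.toEquiv (l, d) = (l : D) + (d : D) := rfl
        rw [h3]; exact hinv _ _ l.2
      rw [h2]
    rw [Finset.sum_congr rfl (fun l _ => h1 l), Finset.sum_const, Finset.card_univ, nsmul_eq_mul,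
      hcardR]
  have hD0n : 4 * (Fintype.card D0 : ℤ) = n ^ 2 := by
    have h1 : n * (4 * (Fintype.card D0 : ℤ)) = n * n ^ 2 := by
      rw [hcardD] at hN
      linear_combination hN
    exact mul_left_cancel₀ (ne_of_gt hn0) h1
  have h12 : 12 * a0 = (n - 2) * (n + 8) := by
    rw [ha0'] at h6a
    have h1 : n * (12 * a0) = n * ((n - 2) * (n + 8)) := by linear_combination h6a
    exact mul_left_cancel₀ (ne_of_gt hn0) h1
  -- basis of the complement
  set K : ℕ := Module.finrank (ZMod 2) D0 with hKdef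
  have hcardK : Fintype.card D0 = 2 ^ K := by
    have := Module.card_eq_pow_finrank (K := ZMod 2) (V := D0)
    rw [this, ZMod.card]
  have hKm : K = 2 * m - 2 := by
    have h1 : (4 : ℤ) * 2 ^ K = (2 ^ m) ^ 2 := by
      have := hD0n
      rw [hcardK, hn] at this
      push_cast at this
      exact this
    have h2 : (2 : ℕ) ^ (K + 2) = 2 ^ (2 * m) := by
      have : ((2 : ℤ)) ^ (K + 2) = 2 ^ (2 * m) := by
        rw [pow_add, mul_comm 2 m, pow_mul, ← h1]; ring
      exact_mod_cast this
    have h3 := Nat.pow_right_injective (le_refl 2) h2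
    omega
  let b : Module.Basis (Fin K) (ZMod 2) D0 := Module.finBasis (ZMod 2) D0
  let Φ : Finset (Fin K) → D0 := fun T => ∑ i ∈ T, b i
  have hΦ : Function.Bijective Φ := by
    rw [Fintype.bijective_iff_surjective_and_card]
    constructor
    · intro d
      refine ⟨Finset.univ.filter (fun i => b.repr d i = 1), ?_⟩
      change ∑ i ∈ Finset.univ.filter (fun i => b.repr d i = 1), b i = d
      conv_rhs => rw [← b.sum_repr d]
      rw [Finset.sum_filter]
      refine Finset.sum_congr rfl (fun i _ => ?_)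
      rcases zmod2_cases (b.repr d i) with h | h
      · rw [h]; simp
      · rw [h]; simp
    · rw [hcardK]; simp
  -- normalised character sums
  have hdiv : ∀ g : D, ∃ x : ℤ, (2 : ℤ) ^ k * x = FS (g : Pt m → ZMod 2) ∧
      (par x = if (t g : ℤ) ^ 2 = 1 then -1 else 1) := by
    intro g
    have hnk : n = (2 ^ k) ^ 2 := by rw [hn, hm, mul_comm, pow_mul]
    have h1 := ht2 g 0
    rw [hw0] at h1
    rcases h1 with h1 | h1
    · refine ⟨0, by rw [h1]; ring, ?_⟩
      have h2 : ¬ ((t g : ℤ) ^ 2 = 1) := by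
        intro h3
        have h4 := hT1F g h3
        rw [h1] at h4
        norm_num at h4
        linarith
      rw [if_neg h2]; simp [par]
    · have h2 : FS (g : Pt m → ZMod 2) = 2 ^ k * t g ∨ FS (g : Pt m → ZMod 2) = -(2 ^ k * t g) := by
        apply sq_eq_sq_iff_eq_or_eq_neg.mp
        rw [h1, ← hn, hnk]; ring
      have h3 : par (t g : ℤ) = if (t g : ℤ) ^ 2 = 1 then -1 else 1 := by
        rcases ht1 g with h4 | h4
        · rw [h4]; simp [par]
        · have h5 : ¬ ((t g : ℤ) ^ 2 = 1) := by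
            intro h6
            obtain ⟨r, hr⟩ := h4
            have h7 : 1 ≤ t g := hpos g
            have h8 : (2 : ℤ) ≤ t g := by
              have : 2 ≤ t g := by omega
              exact_mod_cast this
            nlinarith
          rw [if_neg h5]
          have h6 : Even (t g : ℤ) := by
            obtain ⟨r, hr⟩ := h4
            exact ⟨r, by rw [hr]; push_cast; ring⟩
          simp [par, h6]
      rcases h2 with h2 | h2
      · exact ⟨t g, h2.symm, h3⟩
      · refine ⟨-(t g : ℤ), by rw [h2]; ring, ?_⟩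
        rw [← h3]
        unfold par
        simp [even_neg]
  choose xv hxv hxp using fun d : D0 => hdiv (d : D)
  have hax := ax_code (W := Pt m) (K := K) (h := k) (e := 4) (by omega) (by rw [hKm, hm]; omega)
    (fun i v => if ((b i : D0) : D).1 v = 0 then (0 : ℤ) else 1) (fun T => xv (Φ T))
    (by
      intro T
      rw [hxv]
      unfold FS
      refine Finset.sum_congr rfl (fun v _ => ?_)
      have h1 : (((Φ T : D0) : D) : Pt m → ZMod 2) v = ∑ i ∈ T, ((b i : D0) : D).1 v := by
        change (((∑ i ∈ T, b i : D0) : D) : Pt m → ZMod 2) v = _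
        rw [Submodule.coe_sum, Submodule.coe_sum, Finset.sum_apply]
      rw [h1, sgn_sum]
      refine Finset.prod_congr rfl (fun i _ => ?_)
      unfold sgn
      split_ifs <;> norm_num)
  have hsum : ∑ T : Finset (Fin K), par (xv (Φ T)) = (Fintype.card D0 : ℤ) - 2 * a0 := by
    have h1 : ∑ T : Finset (Fin K), par (xv (Φ T)) = ∑ d : D0, par (xv d) :=
      (Equiv.ofBijective Φ hΦ).sum_comp (fun d => par (xv d))
    have h2 : (Fintype.card D0 : ℤ) = ∑ _d : D0, (1 : ℤ) := by simp
    rw [h1, Finset.sum_congr rfl (fun d _ => hxp d), ha0, card_filter_eq_sum, Finset.mul_sum, h2,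
      ← Finset.sum_sub_distrib]
    refine Finset.sum_congr rfl (fun d _ => ?_)
    split_ifs <;> norm_num
  rw [hsum] at hax
  -- arithmetic contradiction
  have h64 : (64 : ℤ) ∣ n := by
    rw [hn]
    exact ⟨2 ^ (m - 6), by
      have : (64 : ℤ) = 2 ^ 6 := by norm_num
      rw [this, ← pow_add]
      congr 1
      omega⟩
  obtain ⟨q, hq⟩ := h64
  obtain ⟨r, hr2⟩ := hax
  have h1 : (Fintype.card D0 : ℤ) = 1024 * q ^ 2 := by
    have := hD0n
    rw [hq] at this
    linarith [this]
  rw [h1] at hr2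
  rw [hq] at h12
  have h2 : 2 * a0 = 1024 * q ^ 2 - 16 * r := by linarith
  have h3 : 6 * (1024 * q ^ 2 - 16 * r) = (64 * q - 2) * (64 * q + 8) := by
    rw [← h2]; linarith
  have h4 : 32 * (32 * q ^ 2 + 0 * q) * 2 = 0 * q + 64 * (16 * q ^ 2) * 2 := by ring
  have h5 : (64 * q - 2) * (64 * q + 8) = 4096 * q ^ 2 + 384 * q - 16 := by ring
  rw [h5] at h3
  have h6 : ∃ w : ℤ, w = q ^ 2 := ⟨_, rfl⟩
  obtain ⟨w, hw⟩ := h6
  rw [← hw] at h3
  omega

end Pool.Agent.MP_3ca114_lc.Gt
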