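import Pool.Agent.Lib.MP_3ca114_lc.Basic

set_option autoImplicit false

/-!
Moments of a binary linear code whose dual distance is at least `8`.
-/

namespace Pool.Agent.MP_3ca114_lc.Gt

open Finset

variable {V : Type*} [Fintype V] [DecidableEq V]

/-- the character sum of a function -/
def FS (g : V → ZMod 2) : ℤ := ∑ x, sgn (g x)

/-- the word attached to a tuple of positions -/
def wd {j : ℕ} (x : Fin j → V) : V → ZMod 2 := fun v => ∑ i, if x i = v then 1 else 0

/-- the pairing -/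
def pr (g w : V → ZMod 2) : ZMod 2 := ∑ v, g v * w v

omit [DecidableEq V] in
lemma pr_add_left (g h w : V → ZMod 2) : pr (g + h) w = pr g w + pr h w := by
  unfold pr
  rw [← Finset.sum_add_distrib]
  exact Finset.sum_congr rfl (fun v _ => by rw [Pi.add_apply]; ring)

lemma pr_wd {j : ℕ} (g : V → ZMod 2) (x : Fin j → V) : pr g (wd x) = ∑ i, g (x i) := by
  unfold pr wd
  simp only [Finset.mul_sum]
  rw [Finset.sum_comm]
  refine Finset.sum_congr rfl (fun i _ => ?_)
  simp

lemma sgn_sum {ι : Type*} (s : Finset ι) (f : ι → ZMod 2) :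
    sgn (∑ i ∈ s, f i) = ∏ i ∈ s, sgn (f i) := by
  classical
  induction s using Finset.induction_on with
  | empty => simp [sgn_zero]
  | insert a s ha ih => rw [Finset.sum_insert ha, Finset.prod_insert ha, sgn_add, ih]

lemma FS_pow (g : V → ZMod 2) (j : ℕ) :
    FS g ^ j = ∑ x : Fin j → V, sgn (pr g (wd x)) := by
  unfold FS
  rw [Fintype.sum_pow]
  refine Finset.sum_congr rfl (fun x _ => ?_)
  rw [pr_wd, sgn_sum]

/-- weight of the word of a tuple -/
lemma hammingNorm_wd_le {j : ℕ} (x : Fin j → V) : hammingNorm (wd x) ≤ j := by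
  classical
  unfold hammingNorm
  have h : (Finset.univ.filter (fun v => wd x v ≠ 0)) ⊆ Finset.univ.image x := by
    intro v hv
    rw [Finset.mem_filter] at hv
    rw [Finset.mem_image]
    by_contra hcon
    push Not at hcon
    apply hv.2
    unfold wd
    refine Finset.sum_eq_zero (fun i _ => ?_)
    rw [if_neg (hcon i (Finset.mem_univ i))]
  calc _ ≤ (Finset.univ.image x).card := Finset.card_le_card h
    _ ≤ (Finset.univ : Finset (Fin j)).card := Finset.card_image_le
    _ = j := by simp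

/-- dual distance at least `8` -/
def DD (D : Submodule (ZMod 2) (V → ZMod 2)) : Prop :=
  ∀ w : V → ZMod 2, w ≠ 0 → hammingNorm w ≤ 7 → ∃ g ∈ D, pr g w ≠ 0

/-- pairing with a fixed word as a character of the code -/
def prHom (D : Submodule (ZMod 2) (V → ZMod 2)) (w : V → ZMod 2) : D →+ ZMod 2 where
  toFun g := pr (g : V → ZMod 2) w
  map_zero' := by simp [pr]
  map_add' := by intro a b; exact pr_add_left _ _ _

omit [DecidableEq V] in
lemma sum_pr_zero (D : Submodule (ZMod 2) (V → ZMod 2)) [Fintype D] {w : V → ZMod 2}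
    (hw : w = 0) : ∑ g : D, sgn (pr (g : V → ZMod 2) w) = Fintype.card D := by
  subst hw
  simp [pr, sgn_zero]

omit [DecidableEq V] in
lemma sum_pr_ne (D : Submodule (ZMod 2) (V → ZMod 2)) [Fintype D] {w : V → ZMod 2}
    (hw : ∃ g ∈ D, pr g w ≠ 0) : ∑ g : D, sgn (pr (g : V → ZMod 2) w) = 0 := by
  obtain ⟨g, hg, hgw⟩ := hw
  have h1 : prHom D w ≠ 0 := by
    intro h
    exact hgw (DFunLike.congr_fun h (⟨g, hg⟩ : D))
  have h2 := sum_char (prHom D w)
  rw [if_neg h1] at h2
  exact h2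

/-- number of tuples with zero word -/
def ZT (V : Type*) [Fintype V] [DecidableEq V] (j : ℕ) : ℕ :=
  (Finset.univ.filter (fun x : Fin j → V => wd x = 0)).card

/-- translated moments -/
lemma moment (D : Submodule (ZMod 2) (V → ZMod 2)) [Fintype D] (hD : DD D) (h : V → ZMod 2)
    {j : ℕ} (hj : j ≤ 7) :
    ∑ g : D, FS ((g : V → ZMod 2) + h) ^ j = (Fintype.card D : ℤ) * ZT V j := by
  classical
  have h1 : ∀ g : D, FS ((g : V → ZMod 2) + h) ^ j
      = ∑ x : Fin j → V, sgn (pr (g : V → ZMod 2) (wd x)) * sgn (pr h (wd x)) := by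
    intro g
    rw [FS_pow]
    refine Finset.sum_congr rfl (fun x _ => ?_)
    rw [pr_add_left, sgn_add]
  rw [Finset.sum_congr rfl (fun g _ => h1 g), Finset.sum_comm]
  have h2 : ∀ x : Fin j → V,
      ∑ g : D, sgn (pr (g : V → ZMod 2) (wd x)) * sgn (pr h (wd x))
        = if wd x = 0 then (Fintype.card D : ℤ) else 0 := by
    intro x
    rw [← Finset.sum_mul]
    split_ifs with h0
    · rw [sum_pr_zero D h0, h0]
      simp [pr, sgn_zero]
    · rw [sum_pr_ne D (hD _ h0 ((hammingNorm_wd_le x).trans hj)), zero_mul]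
  rw [Finset.sum_congr rfl (fun x _ => h2 x), ← Finset.sum_filter, Finset.sum_const, ZT,
    nsmul_eq_mul, mul_comm]

lemma ZT_odd {j : ℕ} (hj : Odd j) : ZT V j = 0 := by
  classical
  unfold ZT
  rw [Finset.card_eq_zero, Finset.filter_eq_empty_iff]
  intro x _ h
  have h1 := pr_wd (fun _ => (1 : ZMod 2)) x
  rw [h] at h1
  have h2 : pr (fun _ => (1 : ZMod 2)) (0 : V → ZMod 2) = 0 := by simp [pr]
  rw [h2] at h1
  simp only [Finset.sum_const, Finset.card_univ, Fintype.card_fin, nsmul_eq_mul, mul_one] at h1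
  obtain ⟨k, hk⟩ := hj
  rw [hk] at h1
  push_cast at h1
  have h3 : ((2 : ZMod 2)) = 0 := by decide
  rw [h3] at h1
  simp at h1

/-- the full space -/
lemma full_moment (j : ℕ) :
    ∑ g : V → ZMod 2, FS g ^ j = (2 : ℤ) ^ (Fintype.card V) * ZT V j := by
  classical
  rw [Finset.sum_congr rfl (fun g _ => FS_pow g j), Finset.sum_comm]
  have h2 : ∀ x : Fin j → V, ∑ g : V → ZMod 2, sgn (pr g (wd x))
      = if wd x = 0 then (2 : ℤ) ^ (Fintype.card V) else 0 := by
    intro x
    let φ : (V → ZMod 2) →+ ZMod 2 :=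
      { toFun := fun g => pr g (wd x)
        map_zero' := by simp [pr]
        map_add' := by intro a b; exact pr_add_left _ _ _ }
    have h3 := sum_char φ
    have h4 : (φ = 0) ↔ wd x = 0 := by
      constructor
      · intro h
        ext v
        have := DFunLike.congr_fun h (Pi.single v (1 : ZMod 2))
        change pr (Pi.single v (1 : ZMod 2)) (wd x) = 0 at this
        unfold pr at this
        rw [Finset.sum_eq_single v] at this
        · simpa using this
        · intro b _ hb; simp [hb]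
        · intro hb; exact absurd (Finset.mem_univ v) hb
      · intro h
        refine AddMonoidHom.ext (fun g => ?_)
        change pr g (wd x) = 0
        rw [h]; simp [pr]
    change ∑ g : V → ZMod 2, sgn (φ g) = _
    rw [h3]
    by_cases h0 : wd x = 0
    · rw [if_pos (h4.mpr h0), if_pos h0]
      simp [ZMod.card]
    · rw [if_neg (fun h5 => h0 (h4.mp h5)), if_neg h0]
  rw [Finset.sum_congr rfl (fun x _ => h2 x), ← Finset.sum_filter, Finset.sum_const, ZT,
    nsmul_eq_mul, mul_comm]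

/-- moments on `Fin n` -/
def MM (n j : ℕ) : ℤ := ∑ g : Fin n → ZMod 2, (FS g) ^ j

lemma FS_cons (n : ℕ) (a : ZMod 2) (g : Fin n → ZMod 2) :
    FS (Fin.cons a g : Fin (n + 1) → ZMod 2) = sgn a + FS g := by
  unfold FS
  rw [Fin.sum_univ_succ]
  simp

lemma MM_succ (n j : ℕ) :
    MM (n + 1) j = ∑ g : Fin n → ZMod 2, ((1 + FS g) ^ j + (-1 + FS g) ^ j) := by
  unfold MM
  rw [← (Fin.consEquiv (fun _ : Fin (n + 1) => ZMod 2)).sum_comp, Fintype.sum_prod_type,
    Finset.sum_comm]
  refine Finset.sum_congr rfl (fun g _ => ?_)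
  have h : ∀ a : ZMod 2, FS ((Fin.consEquiv (fun _ : Fin (n + 1) => ZMod 2)) (a, g))
      = sgn a + FS g := fun a => FS_cons n a g
  simp only [h]
  have h2 : ∀ f : ZMod 2 → ℤ, ∑ a : ZMod 2, f a = f 0 + f 1 := fun f => by
    exact Fin.sum_univ_two f
  rw [h2]
  simp [sgn_zero, sgn_one]

lemma MM_zero (n : ℕ) : MM n 0 = 2 ^ n := by
  unfold MM; simp [ZMod.card]

lemma MM_two (n : ℕ) : MM n 2 = 2 ^ n * n := by
  induction n with
  | zero => simp [MM, FS]
  | succ n ih =>
    rw [MM_succ]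
    have h : ∀ g : Fin n → ZMod 2, ((1 + FS g) ^ 2 + (-1 + FS g) ^ 2)
        = 2 * FS g ^ 2 + 2 * FS g ^ 0 := fun g => by ring
    rw [Finset.sum_congr rfl (fun g _ => h g), Finset.sum_add_distrib, ← Finset.mul_sum,
      ← Finset.mul_sum]
    change 2 * MM n 2 + 2 * MM n 0 = _
    rw [ih, MM_zero]; push_cast; ring

lemma MM_four (n : ℕ) : MM n 4 = 2 ^ n * (3 * n ^ 2 - 2 * n) := by
  induction n with
  | zero => simp [MM, FS]
  | succ n ih =>
    rw [MM_succ]
    have h : ∀ g : Fin n → ZMod 2, ((1 + FS g) ^ 4 + (-1 + FS g) ^ 4)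
        = 2 * FS g ^ 4 + 12 * FS g ^ 2 + 2 * FS g ^ 0 := fun g => by ring
    rw [Finset.sum_congr rfl (fun g _ => h g), Finset.sum_add_distrib, Finset.sum_add_distrib,
      ← Finset.mul_sum, ← Finset.mul_sum, ← Finset.mul_sum]
    change 2 * MM n 4 + 12 * MM n 2 + 2 * MM n 0 = _
    rw [ih, MM_zero, MM_two]; push_cast; ring

lemma MM_six (n : ℕ) : MM n 6 = 2 ^ n * (15 * n ^ 3 - 30 * n ^ 2 + 16 * n) := by
  induction n with
  | zero => simp [MM, FS]
  | succ n ih =>
    rw [MM_succ]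
    have h : ∀ g : Fin n → ZMod 2, ((1 + FS g) ^ 6 + (-1 + FS g) ^ 6)
        = 2 * FS g ^ 6 + 30 * FS g ^ 4 + 30 * FS g ^ 2 + 2 * FS g ^ 0 := fun g => by ring
    rw [Finset.sum_congr rfl (fun g _ => h g), Finset.sum_add_distrib, Finset.sum_add_distrib,
      Finset.sum_add_distrib, ← Finset.mul_sum, ← Finset.mul_sum, ← Finset.mul_sum,
      ← Finset.mul_sum]
    change 2 * MM n 6 + 30 * MM n 4 + 30 * MM n 2 + 2 * MM n 0 = _
    rw [ih, MM_zero, MM_two, MM_four]; push_cast; ring

lemma full_eq_MM (j : ℕ) : ∑ g : V → ZMod 2, FS g ^ j = MM (Fintype.card V) j := by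
  classical
  unfold MM
  let e := Fintype.equivFin V
  refine Fintype.sum_equiv (Equiv.arrowCongr e (Equiv.refl (ZMod 2))) _ _ (fun g => ?_)
  congr 1
  unfold FS
  refine Fintype.sum_equiv e _ _ (fun v => ?_)
  simp [Equiv.arrowCongr]

lemma ZT_of_MM {j : ℕ} {k : ℤ} (h : MM (Fintype.card V) j = 2 ^ (Fintype.card V) * k) :
    (ZT V j : ℤ) = k := by
  have h1 := full_moment (V := V) j
  rw [full_eq_MM, h] at h1
  have h2 : (2 : ℤ) ^ (Fintype.card V) ≠ 0 := by positivity
  exact (mul_left_cancel₀ h2 h1).symm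

lemma ZT_two : (ZT V 2 : ℤ) = Fintype.card V := ZT_of_MM (MM_two _)

lemma ZT_four : (ZT V 4 : ℤ) = 3 * (Fintype.card V : ℤ) ^ 2 - 2 * Fintype.card V :=
  ZT_of_MM (MM_four _)

lemma ZT_six : (ZT V 6 : ℤ)
    = 15 * (Fintype.card V : ℤ) ^ 3 - 30 * (Fintype.card V : ℤ) ^ 2 + 16 * Fintype.card V :=
  ZT_of_MM (MM_six _)

end Pool.Agent.MP_3ca114_lc.Gt
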