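import Pool.Agent.Lib.MP_3ca114_lc.GtMoments
import Pool.Agent.Lib.MP_3ca114_lc.GtCounting
import Pool.Agent.Lib.MP_3ca114_lc.GtAx

set_option autoImplicit false

/-!
Plateaued Boolean functions: amplitudes and their invariance under affine functions.
-/

namespace Pool.Agent.MP_3ca114_lc.Gt

open Finset

/-- points of the binary affine space of dimension `m` -/
abbrev Pt (m : ℕ) := Fin m → ZMod 2

variable {m : ℕ}

/-- linear functions -/
def chi (a : Pt m) : Pt m → ZMod 2 := fun x => ∑ i, a i * x i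

/-- Walsh coefficients -/
def walsh (g : Pt m → ZMod 2) (a : Pt m) : ℤ := ∑ x : Pt m, sgn (g x + ∑ i, a i * x i)

/-- plateaued functions: the Walsh coefficients are `0`, `c`, `-c` for one number `c` -/
def Plateaued (g : Pt m → ZMod 2) : Prop :=
  ∃ c : ℤ, ∀ a, walsh g a = 0 ∨ walsh g a = c ∨ walsh g a = -c

lemma walsh_eq (g : Pt m → ZMod 2) (a : Pt m) : walsh g a = FS (g + chi a) := rfl

lemma chi_add (a b : Pt m) : chi (a + b) = chi a + chi b := by
  funext x
  simp only [chi, Pi.add_apply, add_mul, Finset.sum_add_distrib]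

lemma chi_zero : chi (0 : Pt m) = 0 := by
  funext x; simp [chi]

lemma chi_comm (a x : Pt m) : chi a x = chi x a := by
  unfold chi; exact Finset.sum_congr rfl (fun i _ => mul_comm _ _)

lemma card_Pt : (Fintype.card (Pt m) : ℤ) = 2 ^ m := by simp [ZMod.card]

lemma sum_chi (z : Pt m) : ∑ a : Pt m, sgn (chi a z) = if z = 0 then (2 : ℤ) ^ m else 0 := by
  let φ : Pt m →+ ZMod 2 :=
    { toFun := fun a => chi a z
      map_zero' := by rw [chi_zero]; rfl
      map_add' := by intro a b; rw [chi_add]; rfl }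
  have h1 := sum_char φ
  have h2 : φ = 0 ↔ z = 0 := by
    constructor
    · intro h
      funext i
      have h3 := DFunLike.congr_fun h (Pi.single i (1 : ZMod 2))
      change chi (Pi.single i (1 : ZMod 2)) z = 0 at h3
      unfold chi at h3
      rw [Finset.sum_eq_single i] at h3
      · simpa using h3
      · intro b _ hb; simp [hb]
      · intro hb; exact absurd (Finset.mem_univ i) hb
    · intro h
      refine AddMonoidHom.ext (fun a => ?_)
      change chi a z = 0
      rw [h]; simp [chi]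
  change ∑ a : Pt m, sgn (φ a) = _
  rw [h1]
  by_cases h0 : z = 0
  · rw [if_pos (h2.mpr h0), if_pos h0, card_Pt]
  · rw [if_neg (fun h => h0 (h2.mp h)), if_neg h0]

lemma add_eq_zero_iff_eq' (x y : Pt m) : x + y = 0 ↔ x = y := by
  constructor
  · intro h
    funext i
    have := congrFun h i
    simp only [Pi.add_apply, Pi.zero_apply] at this
    revert this
    generalize x i = a
    generalize y i = b
    revert a b
    decide
  · rintro rfl
    funext i
    exact CharTwo.add_self_eq_zero _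

lemma parseval (g : Pt m → ZMod 2) : ∑ a, walsh g a ^ 2 = ((2 : ℤ) ^ m) ^ 2 := by
  have h1 : ∀ a, walsh g a ^ 2 = ∑ x : Pt m, ∑ y : Pt m, sgn (g x + g y) * sgn (chi a (x + y)) := by
    intro a
    rw [sq]
    unfold walsh
    rw [Finset.sum_mul_sum]
    refine Finset.sum_congr rfl (fun x _ => Finset.sum_congr rfl (fun y _ => ?_))
    rw [← sgn_add, ← sgn_add]
    congr 1
    have : chi a (x + y) = (∑ i, a i * x i) + ∑ i, a i * y i := by
      simp only [chi, Pi.add_apply, mul_add, Finset.sum_add_distrib]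
    rw [this]; ring
  rw [Finset.sum_congr rfl (fun a _ => h1 a), Finset.sum_comm]
  have h2 : ∀ x : Pt m, ∑ a : Pt m, ∑ y : Pt m, sgn (g x + g y) * sgn (chi a (x + y))
      = (2 : ℤ) ^ m := by
    intro x
    rw [Finset.sum_comm]
    have h3 : ∀ y : Pt m, ∑ a : Pt m, sgn (g x + g y) * sgn (chi a (x + y))
        = if y = x then (2 : ℤ) ^ m else 0 := by
      intro y
      rw [← Finset.mul_sum, sum_chi]
      by_cases h4 : y = x
      · rw [if_pos h4, if_pos ((add_eq_zero_iff_eq' x y).mpr h4.symm), h4]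
        have : sgn (g x + g x) = 1 := by rw [sgn_add, sgn_mul_self]
        rw [this, one_mul]
      · rw [if_neg h4, if_neg (fun h5 => h4 ((add_eq_zero_iff_eq' x y).mp h5).symm), mul_zero]
    rw [Finset.sum_congr rfl (fun y _ => h3 y)]
    simp
  rw [Finset.sum_congr rfl (fun x _ => h2 x), Finset.sum_const, Finset.card_univ, nsmul_eq_mul,
    card_Pt, sq]

lemma FS_le {V : Type*} [Fintype V] (h : V → ZMod 2) : FS h ≤ Fintype.card V := by
  unfold FS
  calc _ ≤ ∑ _x : V, (1 : ℤ) := Finset.sum_le_sum (fun x _ => by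
        rcases sgn_eq (h x) with h1 | h1 <;> rw [h1]; norm_num)
    _ = _ := by simp

lemma neg_le_FS {V : Type*} [Fintype V] (h : V → ZMod 2) : -(Fintype.card V : ℤ) ≤ FS h := by
  unfold FS
  calc -(Fintype.card V : ℤ) = ∑ _x : V, (-1 : ℤ) := by simp
    _ ≤ _ := Finset.sum_le_sum (fun x _ => by
        rcases sgn_eq (h x) with h1 | h1 <;> rw [h1]; norm_num)

lemma FS_eq_card {V : Type*} [Fintype V] {h : V → ZMod 2} (hh : FS h = Fintype.card V) :
    h = 0 := by
  have h1 : ∑ x, (1 - sgn (h x)) = 0 := by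
    rw [Finset.sum_sub_distrib]
    have : ∑ x, sgn (h x) = FS h := rfl
    rw [this, hh]; simp
  have h2 := (Finset.sum_eq_zero_iff_of_nonneg (fun x _ => by
    rcases sgn_eq (h x) with h1 | h1 <;> rw [h1] <;> norm_num)).mp h1
  funext x
  have h3 := h2 x (Finset.mem_univ x)
  rcases zmod2_cases (h x) with h4 | h4
  · exact h4
  · rw [h4, sgn_one] at h3; norm_num at h3

lemma FS_eq_neg_card {V : Type*} [Fintype V] {h : V → ZMod 2}
    (hh : FS h = -(Fintype.card V : ℤ)) : h = fun _ => 1 := by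
  have h1 : ∑ x, (1 + sgn (h x)) = 0 := by
    rw [Finset.sum_add_distrib]
    have : ∑ x, sgn (h x) = FS h := rfl
    rw [this, hh]; simp
  have h2 := (Finset.sum_eq_zero_iff_of_nonneg (fun x _ => by
    rcases sgn_eq (h x) with h1 | h1 <;> rw [h1] <;> norm_num)).mp h1
  funext x
  have h3 := h2 x (Finset.mem_univ x)
  rcases zmod2_cases (h x) with h4 | h4
  · rw [h4, sgn_zero] at h3; norm_num at h3
  · exact h4

/-- the amplitude of a plateaued function in an even number of variables -/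
theorem amplitude {k : ℕ} (hm : m = 2 * k) {g : Pt m → ZMod 2} (hg : Plateaued g) :
    ∃ t : ℕ, (t = 1 ∨ 2 ∣ t) ∧ (∀ a, walsh g a = 0 ∨ walsh g a ^ 2 = 2 ^ m * (t : ℤ) ^ 2) ∧
      ((Finset.univ.filter (fun a => walsh g a ≠ 0)).card : ℤ) * (t : ℤ) ^ 2 = 2 ^ m := by
  classical
  obtain ⟨c, hc⟩ := hg
  have hc2 : ∀ a, walsh g a = 0 ∨ walsh g a ^ 2 = c ^ 2 := by
    intro a
    rcases hc a with h | h | h
    · exact Or.inl h
    · right; rw [h]
    · right; rw [h]; ring
  set N : ℕ := (Finset.univ.filter (fun a => walsh g a ≠ 0)).card with hN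
  have h1 : (N : ℤ) * c ^ 2 = (2 ^ m) ^ 2 := by
    rw [← parseval g]
    have h2 : ∀ a, walsh g a ^ 2 = if walsh g a ≠ 0 then c ^ 2 else 0 := by
      intro a
      by_cases h3 : walsh g a = 0
      · rw [if_neg (not_not.mpr h3), h3]; norm_num
      · rw [if_pos h3]; exact (hc2 a).resolve_left h3
    rw [Finset.sum_congr rfl (fun a _ => h2 a), ← Finset.sum_filter, Finset.sum_const,
      nsmul_eq_mul]
  have h1' : N * c.natAbs ^ 2 = (2 ^ m) ^ 2 := by
    have : ((N * c.natAbs ^ 2 : ℕ) : ℤ) = (((2 ^ m) ^ 2 : ℕ) : ℤ) := by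
      push_cast
      rw [← h1, sq_abs]
    exact_mod_cast this
  have h4 : c.natAbs ^ 2 ∣ (2 ^ m) ^ 2 := ⟨N, by rw [← h1']; ring⟩
  have h5 : c.natAbs ∣ 2 ^ m := (Nat.pow_dvd_pow_iff (by norm_num)).mp h4
  obtain ⟨j, hj, hcj⟩ := (Nat.dvd_prime_pow Nat.prime_two).mp h5
  have hNle : N ≤ 2 ^ m := by
    calc N ≤ (Finset.univ : Finset (Pt m)).card := Finset.card_filter_le _ _
      _ = 2 ^ m := by simp [ZMod.card]
  have hkj : k ≤ j := by
    by_contra hcon
    push Not at hcon
    have h6 : c.natAbs ^ 2 < 2 ^ m := by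
      rw [hcj, ← pow_mul]
      exact Nat.pow_lt_pow_right (by norm_num) (by omega)
    have h7 : N * c.natAbs ^ 2 < 2 ^ m * 2 ^ m := by
      calc N * c.natAbs ^ 2 ≤ 2 ^ m * c.natAbs ^ 2 := Nat.mul_le_mul_right _ hNle
        _ < 2 ^ m * 2 ^ m := Nat.mul_lt_mul_of_pos_left h6 (by positivity)
    rw [h1', sq] at h7
    exact lt_irrefl _ h7
  have hcsq : c ^ 2 = 2 ^ m * (2 ^ (j - k)) ^ 2 := by
    have : c ^ 2 = ((c.natAbs ^ 2 : ℕ) : ℤ) := by push_cast; rw [sq_abs]
    rw [this, hcj]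
    push_cast
    obtain ⟨r, rfl⟩ : ∃ r, j = k + r := ⟨j - k, by omega⟩
    rw [hm]
    have : k + r - k = r := by omega
    rw [this]; ring
  refine ⟨2 ^ (j - k), ?_, ?_, ?_⟩
  · rcases Nat.eq_zero_or_pos (j - k) with h0 | h0
    · left; rw [h0]; rfl
    · right; exact dvd_pow_self 2 (by omega)
  · intro a
    rcases hc2 a with h | h
    · exact Or.inl h
    · right; rw [h, hcsq]; push_cast; ring
  · have h8 : (2 : ℤ) ^ m * ((N : ℤ) * ((2 ^ (j - k) : ℕ) : ℤ) ^ 2) = 2 ^ m * 2 ^ m := by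
      have : (2 : ℤ) ^ m * ((N : ℤ) * ((2 ^ (j - k) : ℕ) : ℤ) ^ 2) = (N : ℤ) * c ^ 2 := by
        rw [hcsq]; push_cast; ring
      rw [this, h1]; ring
    exact mul_left_cancel₀ (by positivity) h8

/-- higher power sums of the Walsh coefficients -/
lemma power_sum {g : Pt m → ZMod 2} {t : ℕ}
    (h1 : ∀ a, walsh g a = 0 ∨ walsh g a ^ 2 = 2 ^ m * (t : ℤ) ^ 2)
    (h2 : ((Finset.univ.filter (fun a => walsh g a ≠ 0)).card : ℤ) * (t : ℤ) ^ 2 = 2 ^ m)
    (j : ℕ) (hj : 0 < j) :
    ∑ a, walsh g a ^ (2 * j) = (2 ^ m) ^ (j + 1) * ((t : ℤ) ^ 2) ^ (j - 1) := by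
  classical
  have h3 : ∀ a, walsh g a ^ (2 * j) = if walsh g a ≠ 0 then (2 ^ m * (t : ℤ) ^ 2) ^ j else 0 := by
    intro a
    by_cases h4 : walsh g a = 0
    · rw [if_neg (not_not.mpr h4), h4]
      exact zero_pow (by omega)
    · rw [if_pos h4, pow_mul, (h1 a).resolve_left h4]
  rw [Finset.sum_congr rfl (fun a _ => h3 a), ← Finset.sum_filter, Finset.sum_const,
    nsmul_eq_mul]
  obtain ⟨i, rfl⟩ : ∃ i, j = i + 1 := ⟨j - 1, by omega⟩
  have : i + 1 - 1 = i := by omega
  rw [this, mul_pow, pow_succ ((t : ℤ) ^ 2) i]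
  calc _ = (2 ^ m) ^ (i + 1) * ((t : ℤ) ^ 2) ^ i
        * (((Finset.univ.filter (fun a => walsh g a ≠ 0)).card : ℤ) * (t : ℤ) ^ 2) := by ring
    _ = _ := by rw [h2]; ring

/-- translation of the spectrum by an affine function -/
lemma walsh_affine (g : Pt m → ZMod 2) (b : Pt m) (c : ZMod 2) (a : Pt m) :
    walsh (g + (chi b + fun _ => c)) a = sgn c * walsh g (a + b) := by
  rw [walsh_eq, walsh_eq, chi_add]
  unfold FS
  rw [Finset.mul_sum]
  refine Finset.sum_congr rfl (fun x _ => ?_)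
  rw [← sgn_add]
  congr 1
  simp only [Pi.add_apply]
  ring

lemma fourth_affine (g : Pt m → ZMod 2) (b : Pt m) (c : ZMod 2) :
    ∑ a, walsh (g + (chi b + fun _ => c)) a ^ 4 = ∑ a, walsh g a ^ 4 := by
  have h1 : ∀ a, walsh (g + (chi b + fun _ => c)) a ^ 4 = walsh g (a + b) ^ 4 := by
    intro a
    rw [walsh_affine]
    rcases sgn_eq c with h | h <;> rw [h] <;> ring
  rw [Finset.sum_congr rfl (fun a _ => h1 a)]
  exact Equiv.sum_comp (Equiv.addRight b) (fun a => walsh g a ^ 4)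

end Pool.Agent.MP_3ca114_lc.Gt
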