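import Pool.Agent.Lib.MP_3ca114_lc.Final

set_option autoImplicit false

namespace Pool.Agent.MP_3ca114_lc

open Finset

section Kerdock

variable {n : ℕ} (C : Submodule (ZMod 2) (Fin n → ZMod 2))

lemma abs_WS_le (S : Finset (Fin n)) (v : Fin n → ZMod 2) : |WS S v| ≤ S.card := by
  unfold WS
  refine (Finset.abs_sum_le_sum_abs _ _).trans ?_
  have : ∀ i ∈ S, |sgn (v i)| ≤ 1 := by
    intro i _
    rcases sgn_eq (v i) with h | h <;> rw [h] <;> simp
  refine (Finset.sum_le_sum this).trans ?_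
  simp

/-- the zero set of a word -/
def zeros (h : Fin n → ZMod 2) : Finset (Fin n) := Finset.univ.filter (fun i => h i = 0)

lemma WS_add_zeros (h c : Fin n → ZMod 2) : WS (zeros h) (c + h) = WS (zeros h) c := by
  unfold WS
  refine Finset.sum_congr rfl (fun i hi => ?_)
  rw [zeros, Finset.mem_filter] at hi
  rw [Pi.add_apply, hi.2, add_zero]

lemma WS_add_compl (h c : Fin n → ZMod 2) : WS (zeros h)ᶜ (c + h) = - WS (zeros h)ᶜ c := by
  unfold WS
  rw [← Finset.sum_neg_distrib]
  refine Finset.sum_congr rfl (fun i hi => ?_)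
  rw [zeros, Finset.mem_compl, Finset.mem_filter] at hi
  have h1 : h i = 1 := by
    rcases zmod2_cases (h i) with h0 | h1
    · exact absurd ⟨Finset.mem_univ _, h0⟩ hi
    · exact h1
  rw [Pi.add_apply, h1, sgn_add, sgn_one]; ring

lemma WS_zeros_self (h : Fin n → ZMod 2) : WS (zeros h) h = (zeros h).card := by
  have := WS_add_zeros h 0
  rw [zero_add] at this
  rw [this, WS_zero]

lemma WS_compl_self (h : Fin n → ZMod 2) : WS (zeros h)ᶜ h = -((zeros h)ᶜ.card : ℤ) := by
  have := WS_add_compl h 0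
  rw [zero_add] at this
  rw [this, WS_zero]

lemma card_compl_zeros (h : Fin n → ZMod 2) :
    ((zeros h)ᶜ.card : ℤ) = (n : ℤ) - (zeros h).card := by
  have := Finset.card_add_card_compl (zeros h)
  rw [Fintype.card_fin] at this
  have h2 : ((zeros h).card : ℤ) + ((zeros h)ᶜ.card : ℤ) = n := by exact_mod_cast this
  linarith

lemma W_zeros (h : Fin n → ZMod 2) : W h = 2 * ((zeros h).card : ℤ) - n := by
  rw [W_split (zeros h) h, WS_zeros_self, WS_compl_self, card_compl_zeros]; ring

/-- no word with between `1` and `s-1` zeros -/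
lemma case_small [Fintype C] (s : ℤ) (hs : 8 ≤ s) (hn : (n : ℤ) = s * s)
    (hcard : (n : ℤ) * n ≤ Fintype.card C)
    (hW : ∀ c ∈ C, c ≠ 0 → W c ≤ s)
    (h : Fin n → ZMod 2) (hC : h ∈ C)
    (hj1 : 1 ≤ ((zeros h).card : ℤ)) (hj2 : ((zeros h).card : ℤ) ≤ s - 1) : False := by
  classical
  set j : ℤ := ((zeros h).card : ℤ) with hj
  set N : ℤ := ((zeros h)ᶜ.card : ℤ) with hN
  have hNj : N = n - j := card_compl_zeros h
  set F : C → ℤ := fun c =>
    ((WS (zeros h)ᶜ (c : Fin n → ZMod 2)) ^ 2 - N) * ((j + WS (zeros h) (c : Fin n → ZMod 2)) *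
        (j + WS (zeros h) (c : Fin n → ZMod 2)))
      + (- j ^ 3 + 2 * (s - 1) * j ^ 2 * WS (zeros h) (c : Fin n → ZMod 2)
        + (4 * s * j - 2 * j ^ 2 - j) * (WS (zeros h) (c : Fin n → ZMod 2)) ^ 2
        + 2 * (s - j) * (WS (zeros h) (c : Fin n → ZMod 2)) ^ 3) with hF
  -- lower bound
  have hT := pd_WS C (zeros h)
  have hlow : (Fintype.card C : ℤ) * (j ^ 2 * (4 * s - 3 * j - 1)) ≤ ∑ c : C, F c := by
    have hg : PD (fun c : C => j + WS (zeros h) (c : Fin n → ZMod 2)) :=
      (PD.const (by linarith)).add hT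
    have h1 := (pd_Q C (zeros h)ᶜ).mul (hg.mul hg)
    have h2 := hT.intMul (k := 2 * (s - 1) * j ^ 2) (by
      have : 0 ≤ s - 1 := by linarith
      positivity)
    have h3 := (pd_Q C (zeros h)).intMul (k := 4 * s * j - 2 * j ^ 2 - j) (by nlinarith)
    have h4 := (hT.mul (hT.mul hT)).intMul (k := 2 * (s - j)) (by linarith)
    have h5 := (((h1.add h2).add h3).add h4).sum_nonneg
    have h6 : ∀ c : C, F c - j ^ 2 * (4 * s - 3 * j - 1) =
        ((((WS (zeros h)ᶜ (c : Fin n → ZMod 2)) ^ 2 - ((zeros h)ᶜ.card : ℤ)) *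
            ((j + WS (zeros h) (c : Fin n → ZMod 2)) * (j + WS (zeros h) (c : Fin n → ZMod 2)))
          + 2 * (s - 1) * j ^ 2 * WS (zeros h) (c : Fin n → ZMod 2))
          + (4 * s * j - 2 * j ^ 2 - j) *
            ((WS (zeros h) (c : Fin n → ZMod 2)) ^ 2 - ((zeros h).card : ℤ)))
          + 2 * (s - j) * (WS (zeros h) (c : Fin n → ZMod 2) *
            (WS (zeros h) (c : Fin n → ZMod 2) * WS (zeros h) (c : Fin n → ZMod 2))) := by
      intro c
      rw [hF, ← hN, ← hj]; ring
    rw [← Finset.sum_congr rfl (fun c _ => h6 c), Finset.sum_sub_distrib] at h5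
    simp only [Finset.sum_const, Finset.card_univ, nsmul_eq_mul] at h5
    linarith
  -- pointwise upper bound
  set K : ℤ := 4 * j ^ 2 * (N ^ 2 - N + 2 * s * j - j ^ 2 - j) with hK
  set hh : C := ⟨h, hC⟩ with hhh
  have hup : ∀ c : C, F c ≤ K * (if c = 0 then 1 else 0) + K * (if c = hh then 1 else 0) := by
    have hKnn : 0 ≤ K := by
      have hNs : s ≤ N := by rw [hNj, hn]; nlinarith
      have : 0 ≤ N ^ 2 - N + 2 * s * j - j ^ 2 - j := by nlinarith
      positivity
    intro c
    by_cases hc0 : c = 0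
    · subst hc0
      have e : F 0 = K := by
        rw [hF, hK]
        simp only [ZeroMemClass.coe_zero, WS_zero]
        rw [← hN, ← hj]; ring
      rw [e]
      simp only [if_true]
      split_ifs <;> nlinarith
    by_cases hch : c = hh
    · subst hch
      have e : F hh = K := by
        rw [hF, hK, hhh]
        simp only [WS_zeros_self, WS_compl_self]
        rw [← hN, ← hj]; ring
      rw [e]
      simp only [if_true]
      split_ifs <;> nlinarith
    rw [if_neg hc0, if_neg hch]
    have hc0' : (c : Fin n → ZMod 2) ≠ 0 := by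
      intro h'; exact hc0 (Subtype.ext h')
    have hch' : (c : Fin n → ZMod 2) + h ≠ 0 := by
      intro h'
      apply hch
      apply Subtype.ext
      have h2 : (c : Fin n → ZMod 2) = -h := eq_neg_of_add_eq_zero_left h'
      rw [h2]
      ext i
      simp only [Pi.neg_apply, ZMod.neg_eq_self_mod_two]
      rfl
    have b1 := hW c c.2 hc0'
    have b2 := hW _ (C.add_mem c.2 hC) hch'
    rw [W_split (zeros h)] at b1 b2
    rw [WS_add_zeros, WS_add_compl] at b2
    have b3 := abs_WS_le (zeros h) (c : Fin n → ZMod 2)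
    rw [← hj, abs_le] at b3
    rw [hF]
    simp only
    set X := WS (zeros h)ᶜ (c : Fin n → ZMod 2)
    set T := WS (zeros h) (c : Fin n → ZMod 2)
    have hX : X ^ 2 ≤ (s - T) ^ 2 := by
      apply sq_le_sq'
      · linarith
      · linarith
    have hT4 : T ^ 2 * (j ^ 2 - T ^ 2) ≥ 0 := by
      have : T ^ 2 ≤ j ^ 2 := sq_le_sq' b3.1 b3.2
      have h1 : 0 ≤ T ^ 2 := sq_nonneg T
      nlinarith
    have hmain : (X ^ 2 - (s - T) ^ 2) * ((j + T) * (j + T)) ≤ 0 := by
      have h1 : 0 ≤ (j + T) * (j + T) := mul_self_nonneg _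
      have h2 : X ^ 2 - (s - T) ^ 2 ≤ 0 := by linarith
      exact mul_nonpos_of_nonpos_of_nonneg h2 h1
    have hid : (X ^ 2 - N) * ((j + T) * (j + T)) + (-j ^ 3 + 2 * (s - 1) * j ^ 2 * T
        + (4 * s * j - 2 * j ^ 2 - j) * T ^ 2 + 2 * (s - j) * T ^ 3)
        = (X ^ 2 - (s - T) ^ 2) * ((j + T) * (j + T)) - T ^ 2 * (j ^ 2 - T ^ 2)
          + (s * s - j - N) * ((j + T) * (j + T)) := by ring
    rw [hid]
    have : s * s - j - N = 0 := by rw [hNj, hn]; ring
    rw [this]; linarith
  have hsum := Finset.sum_le_sum (fun c (_ : c ∈ (Finset.univ : Finset C)) => hup c)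
  have hR : ∑ c : C, (K * (if c = 0 then 1 else 0) + K * (if c = hh then 1 else 0)) = K + K := by
    rw [Finset.sum_add_distrib, ← Finset.mul_sum, ← Finset.mul_sum]
    simp only [Finset.sum_ite_eq', Finset.mem_univ, if_true, mul_one]
  have htot := (hlow.trans hsum).trans_eq hR
  -- contradiction
  have hj2pos : 0 < j ^ 2 := by positivity
  have hA : s + 2 ≤ 4 * s - 3 * j - 1 := by linarith
  have hKle : K ≤ 4 * j ^ 2 * (n * n - n) := by
    rw [hK, hNj]
    have : (n - j) ^ 2 - (n - j) + 2 * s * j - j ^ 2 - j ≤ (n : ℤ) * n - n := by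
      have h1 : s ≤ n := by rw [hn]; nlinarith
      nlinarith
    exact mul_le_mul_of_nonneg_left this (by positivity)
  have hCpos : (0 : ℤ) ≤ Fintype.card C := by positivity
  have h1 : (n : ℤ) * n * (j ^ 2 * 10) ≤ (Fintype.card C : ℤ) * (j ^ 2 * (4 * s - 3 * j - 1)) := by
    have h2 : j ^ 2 * 10 ≤ j ^ 2 * (4 * s - 3 * j - 1) :=
      mul_le_mul_of_nonneg_left (by linarith) hj2pos.le
    exact mul_le_mul hcard h2 (by positivity) hCpos
  have h3 : (n : ℤ) * n * (j ^ 2 * 10) ≤ 8 * j ^ 2 * (n * n - n) := by linarith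
  have hnpos : (0 : ℤ) < n := by rw [hn]; nlinarith
  have h4 : j ^ 2 * (2 * (n * n) + 8 * n) ≤ 0 := by nlinarith
  have h5 : 0 < j ^ 2 * (2 * ((n : ℤ) * n) + 8 * n) := by positivity
  linarith

/-- the heaviest word has fewer than `s` zeros -/
lemma case_large [Fintype C] (s : ℤ) (hs : 2 ≤ s) (hn : (n : ℤ) = s * s)
    (hcard : (n : ℤ) * n ≤ Fintype.card C)
    (hW : ∀ c ∈ C, c ≠ 0 → W c ≤ s)
    (h : Fin n → ZMod 2) (hC : h ∈ C) (h0 : h ≠ 0)
    (hmax : ∀ c ∈ C, W h ≤ W c) (hj : s ≤ ((zeros h).card : ℤ)) : False := by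
  classical
  set j : ℤ := ((zeros h).card : ℤ) with hjdef
  have hWh : W h = 2 * j - n := W_zeros h
  set L : ℤ := - W h with hL
  have hLs : -s ≤ L := by have := hW h hC h0; linarith
  have hnpos : (0 : ℤ) < n := by rw [hn]; nlinarith
  have hn1 : s ≤ n := by rw [hn]; nlinarith
  set F : C → ℤ := fun c => ((W (c : Fin n → ZMod 2)) ^ 2 - n) *
    ((W (c : Fin n → ZMod 2) + s) * (W (c : Fin n → ZMod 2) + L)) with hF
  have hlow : (Fintype.card C : ℤ) * (2 * (n * n - n)) ≤ ∑ c : C, F c := by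
    have hQ := pd_Q C Finset.univ
    have h1 := pd_Q_sq C Finset.univ
    have h2 := hQ.intMul (k := n + s * L) (by nlinarith)
    have h3 := ((pd_WS C Finset.univ).mul hQ).intMul (k := s + L) (by linarith)
    have h5 := ((h1.add h2).add h3).sum_nonneg
    have h6 : ∀ c : C, F c - 2 * (n * n - n) =
        ((((WS Finset.univ (c : Fin n → ZMod 2)) ^ 2 - ((Finset.univ : Finset (Fin n)).card : ℤ)) ^ 2
          - 2 * (((Finset.univ : Finset (Fin n)).card : ℤ) * ((Finset.univ : Finset (Fin n)).card : ℤ)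
            - (Finset.univ : Finset (Fin n)).card))
          + (n + s * L) * ((WS Finset.univ (c : Fin n → ZMod 2)) ^ 2
            - ((Finset.univ : Finset (Fin n)).card : ℤ)))
          + (s + L) * (WS Finset.univ (c : Fin n → ZMod 2) *
            ((WS Finset.univ (c : Fin n → ZMod 2)) ^ 2
              - ((Finset.univ : Finset (Fin n)).card : ℤ))) := by
      intro c
      rw [hF, ← W_eq_WS]
      simp only [Finset.card_univ, Fintype.card_fin]
      ring
    rw [← Finset.sum_congr rfl (fun c _ => h6 c), Finset.sum_sub_distrib] at h5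
    simp only [Finset.sum_const, Finset.card_univ, nsmul_eq_mul] at h5
    linarith
  set K : ℤ := ((n : ℤ) * n - n) * ((n + s) * (2 * (n - j))) with hK
  have hjn : j ≤ n := by
    have := Finset.card_le_univ (zeros h)
    rw [Fintype.card_fin] at this
    rw [hjdef]; exact_mod_cast this
  have hup : ∀ c : C, F c ≤ K * (if c = 0 then 1 else 0) := by
    intro c
    by_cases hc0 : c = 0
    · subst hc0
      rw [if_pos rfl, mul_one, hF, hK]
      simp only [ZeroMemClass.coe_zero, W_zero]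
      have : (n : ℤ) + L = 2 * (n - j) := by rw [hL, hWh]; ring
      rw [this]
      apply le_of_eq; ring
    · rw [if_neg hc0, mul_zero, hF]
      have hc0' : (c : Fin n → ZMod 2) ≠ 0 := by
        intro h'; exact hc0 (Subtype.ext h')
      have b1 := hW c c.2 hc0'
      have b2 := hmax c c.2
      simp only
      set x := W (c : Fin n → ZMod 2)
      have e : (x ^ 2 - n) * ((x + s) * (x + L)) = (x - s) * ((x + s) ^ 2 * (x + L)) := by
        rw [hn]; ring
      rw [e]
      apply mul_nonpos_of_nonpos_of_nonneg (by linarith)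
      apply mul_nonneg (sq_nonneg _)
      rw [hL]; linarith
  have hsum := Finset.sum_le_sum (fun c (_ : c ∈ (Finset.univ : Finset C)) => hup c)
  rw [← Finset.mul_sum] at hsum
  simp only [Finset.sum_ite_eq', Finset.mem_univ, if_true, mul_one] at hsum
  have htot := hlow.trans hsum
  have hnn : (0 : ℤ) < n * n - n := by nlinarith
  have h1 : (n : ℤ) * n * (2 * (n * n - n)) ≤ (Fintype.card C : ℤ) * (2 * (n * n - n)) :=
    mul_le_mul_of_nonneg_right hcard (by linarith)
  have h2 : K ≤ ((n : ℤ) * n - n) * (2 * ((n : ℤ) * n - n)) := by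
    rw [hK]
    apply mul_le_mul_of_nonneg_left _ hnn.le
    have : (n + s) * (2 * (n - j)) ≤ (n + s) * (2 * ((n : ℤ) - s)) :=
      mul_le_mul_of_nonneg_left (by linarith) (by linarith)
    have h3 : (n + s) * (2 * ((n : ℤ) - s)) = 2 * ((n : ℤ) * n - n) := by
      have : s * s = (n : ℤ) := hn.symm
      linear_combination (-2 : ℤ) * this
    linarith
  have h3 : (n : ℤ) * n * (2 * (n * n - n)) ≤ ((n : ℤ) * n - n) * (2 * ((n : ℤ) * n - n)) := by
    linarith
  nlinarith

/-- if the all-one word lies in the code, then `W (W² - n) = 0` on the other words -/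
lemma case_zero [Fintype C] (s : ℤ) (hs : 2 ≤ s) (hn : (n : ℤ) = s * s)
    (hcard : (n : ℤ) * n ≤ Fintype.card C)
    (hW : ∀ c ∈ C, c ≠ 0 → W c ≤ s)
    (h1C : (1 : Fin n → ZMod 2) ∈ C) :
    ∀ b ∈ C, b ≠ 0 → b ≠ 1 → W b * ((W b) ^ 2 - (n : ℤ)) = 0 := by
  classical
  have hnpos : (0 : ℤ) < n := by rw [hn]; nlinarith
  have hn1 : s ≤ n := by rw [hn]; nlinarith
  set F : C → ℤ := fun c => (W (c : Fin n → ZMod 2)) ^ 2 *
    ((W (c : Fin n → ZMod 2)) ^ 2 - n) with hF
  set one : C := ⟨1, h1C⟩ with hone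
  have hW1 : W (1 : Fin n → ZMod 2) = -(n : ℤ) := by simp [W, sgn_one]
  have hlow : (Fintype.card C : ℤ) * (2 * (n * n - n)) ≤ ∑ c : C, F c := by
    have hQ := pd_Q C Finset.univ
    have h1 := pd_Q_sq C Finset.univ
    have h2 := hQ.intMul (k := n) (by linarith)
    have h5 := (h1.add h2).sum_nonneg
    have h6 : ∀ c : C, F c - 2 * (n * n - n) =
        ((((WS Finset.univ (c : Fin n → ZMod 2)) ^ 2 - ((Finset.univ : Finset (Fin n)).card : ℤ)) ^ 2
          - 2 * (((Finset.univ : Finset (Fin n)).card : ℤ) * ((Finset.univ : Finset (Fin n)).card : ℤ)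
            - (Finset.univ : Finset (Fin n)).card))
          + (n : ℤ) * ((WS Finset.univ (c : Fin n → ZMod 2)) ^ 2
            - ((Finset.univ : Finset (Fin n)).card : ℤ))) := by
      intro c
      rw [hF, ← W_eq_WS]
      simp only [Finset.card_univ, Fintype.card_fin]
      ring
    rw [← Finset.sum_congr rfl (fun c _ => h6 c), Finset.sum_sub_distrib] at h5
    simp only [Finset.sum_const, Finset.card_univ, nsmul_eq_mul] at h5
    linarith
  set K : ℤ := (n : ℤ) ^ 2 * (n ^ 2 - n) with hK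
  set G : C → ℤ := fun c => K * (if c = 0 then 1 else 0) + K * (if c = one then 1 else 0) - F c
    with hG
  have hone0 : (0 : C) ≠ one := by
    intro h'
    have := congrArg (fun c : C => W (c : Fin n → ZMod 2)) h'
    simp only [hone, ZeroMemClass.coe_zero, W_zero, hW1] at this
    linarith
  have hGnn : ∀ c : C, 0 ≤ G c := by
    intro c
    rw [hG]
    simp only
    by_cases hc0 : c = 0
    · subst hc0
      rw [if_pos rfl, if_neg hone0, hF, hK]
      simp only [ZeroMemClass.coe_zero, W_zero]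
      apply le_of_eq; ring
    by_cases hc1 : c = one
    · subst hc1
      rw [if_pos rfl, if_neg hc0, hF, hK]
      simp only [hone, hW1]
      apply le_of_eq; ring
    rw [if_neg hc0, if_neg hc1, hF]
    have hc0' : (c : Fin n → ZMod 2) ≠ 0 := by
      intro h'; exact hc0 (Subtype.ext h')
    have hc1' : (c : Fin n → ZMod 2) + 1 ≠ 0 := by
      intro h'
      apply hc1
      apply Subtype.ext
      have h2 : (c : Fin n → ZMod 2) = -1 := eq_neg_of_add_eq_zero_left h'
      rw [h2]
      ext i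
      simp only [Pi.neg_apply, ZMod.neg_eq_self_mod_two]
      rfl
    have b1 := hW c c.2 hc0'
    have b2 := hW _ (C.add_mem c.2 h1C) hc1'
    have e : W ((c : Fin n → ZMod 2) + 1) = - W (c : Fin n → ZMod 2) := by
      unfold W
      rw [← Finset.sum_neg_distrib]
      refine Finset.sum_congr rfl (fun i _ => ?_)
      rw [Pi.add_apply, Pi.one_apply, sgn_add, sgn_one]; ring
    rw [e] at b2
    simp only
    set x := W (c : Fin n → ZMod 2)
    have hx : x ^ 2 ≤ n := by
      rw [hn, ← sq]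
      exact sq_le_sq' (by linarith) b1
    have : 0 ≤ x ^ 2 * (n - x ^ 2) := mul_nonneg (sq_nonneg _) (by linarith)
    nlinarith
  have hGsum : ∑ c : C, G c ≤ 0 := by
    rw [hG]
    rw [Finset.sum_sub_distrib, Finset.sum_add_distrib, ← Finset.mul_sum, ← Finset.mul_sum]
    simp only [Finset.sum_ite_eq', Finset.mem_univ, if_true, mul_one]
    have h1 : (n : ℤ) * n * (2 * (n * n - n)) ≤ (Fintype.card C : ℤ) * (2 * (n * n - n)) :=
      mul_le_mul_of_nonneg_right hcard (by nlinarith)
    have h2 : K + K = (n : ℤ) * n * (2 * (n * n - n)) := by rw [hK]; ring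
    linarith
  have hGzero : ∀ c : C, G c = 0 := by
    have h1 : ∑ c : C, G c = 0 := le_antisymm hGsum (Finset.sum_nonneg (fun c _ => hGnn c))
    have h2 := (Finset.sum_eq_zero_iff_of_nonneg (fun c _ => hGnn c)).mp h1
    intro c; exact h2 c (Finset.mem_univ c)
  intro b hb hb0 hb1
  have h3 := hGzero ⟨b, hb⟩
  rw [hG] at h3
  simp only at h3
  have hne0 : (⟨b, hb⟩ : C) ≠ 0 := by
    intro h'; exact hb0 (by simpa using congrArg Subtype.val h')
  have hne1 : (⟨b, hb⟩ : C) ≠ one := by
    intro h'; exact hb1 (by simpa [hone] using congrArg Subtype.val h')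
  rw [if_neg hne0, if_neg hne1, hF] at h3
  simp only at h3
  have h4 : W b * (W b * ((W b) ^ 2 - n)) = 0 := by linarith
  rcases mul_eq_zero.mp h4 with h5 | h5
  · rw [h5]; ring
  · exact h5

end Kerdock

/-- there is no linear code of length `n = 4^t`, `t ≥ 3`, with at least `n²` words and all
nonzero weights at least `(n - √n)/2` -/
theorem no_kerdock (t : ℕ) (ht : 3 ≤ t) {n : ℕ} (hn : n = 2 ^ t * 2 ^ t)
    (C : Submodule (ZMod 2) (Fin n → ZMod 2))
    (hcard : n * n ≤ Nat.card C)
    (hW : ∀ c ∈ C, c ≠ 0 → W c ≤ 2 ^ t) : False := by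
  classical
  have hnz : (n : ℤ) = 2 ^ t * 2 ^ t := by rw [hn]; push_cast; ring
  have hs8 : (8 : ℤ) ≤ 2 ^ t := by
    have : 2 ^ 3 ≤ 2 ^ t := Nat.pow_le_pow_right (by norm_num) ht
    exact_mod_cast this
  have hcard' : (n : ℤ) * n ≤ Fintype.card C := by
    rw [Nat.card_eq_fintype_card] at hcard
    exact_mod_cast hcard
  -- a nonzero word
  have hnt : ∃ c : C, c ≠ 0 := by
    by_contra hcon
    push Not at hcon
    have h1 : Fintype.card C ≤ 1 := Fintype.card_le_one_iff.mpr (fun a b => by rw [hcon a, hcon b])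
    have h2 : (Fintype.card C : ℤ) ≤ 1 := by exact_mod_cast h1
    have h3 : (64 : ℤ) ≤ n := by rw [hnz]; nlinarith
    nlinarith
  -- a word of minimal W
  obtain ⟨h, hhS, hmin⟩ := Finset.exists_min_image (Finset.univ : Finset C)
    (fun c => W (c : Fin n → ZMod 2)) ⟨0, Finset.mem_univ _⟩
  have hne : (h : Fin n → ZMod 2) ≠ 0 := by
    intro h0
    obtain ⟨c, hc⟩ := hnt
    have h1 := hmin c (Finset.mem_univ c)
    have hc' : (c : Fin n → ZMod 2) ≠ 0 := by intro h'; exact hc (Subtype.ext h')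
    have h2 := hW c c.2 hc'
    rw [h0, W_zero] at h1
    nlinarith
  have hmax : ∀ c ∈ C, W (h : Fin n → ZMod 2) ≤ W c := by
    intro c hc
    exact hmin ⟨c, hc⟩ (Finset.mem_univ _)
  rcases Nat.eq_zero_or_pos (zeros (h : Fin n → ZMod 2)).card with hj0 | hjpos
  · have hone : (h : Fin n → ZMod 2) = 1 := by
      ext i
      rw [Finset.card_eq_zero, zeros, Finset.filter_eq_empty_iff] at hj0
      rcases zmod2_cases ((h : Fin n → ZMod 2) i) with h0 | h1
      · exact absurd h0 (hj0 (Finset.mem_univ i))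
      · rw [h1]; rfl
    have h1C : (1 : Fin n → ZMod 2) ∈ C := hone ▸ h.2
    exact no_three_valued t (by omega) hn C hcard h1C
      (case_zero C (2 ^ t) (by linarith) hnz hcard' hW h1C)
  · by_cases hlt : ((zeros (h : Fin n → ZMod 2)).card : ℤ) ≤ 2 ^ t - 1
    · exact case_small C (2 ^ t) hs8 hnz hcard' hW h h.2 (by exact_mod_cast hjpos) hlt
    · exact case_large C (2 ^ t) (by linarith) hnz hcard' hW h h.2 hne hmax (by
        push Not at hlt; linarith)

end Pool.Agent.MP_3ca114_lc
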