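import Pool.Agent.Lib.MP_3ca114_lc.Kerdock

set_option autoImplicit false

namespace Pool.Agent.MP_3ca114_lc

open Finset

section KerdockGen

variable {n : ℕ} (C : Submodule (ZMod 2) (Fin n → ZMod 2))

/-- real version: no word with few zeros -/
lemma case_small_real [Fintype C] (s : ℝ) (hs : 4 ≤ s) (hn : (n : ℝ) = s * s)
    (hcard : (n : ℝ) * n ≤ Fintype.card C)
    (hW : ∀ c ∈ C, c ≠ 0 → (W c : ℝ) ≤ s)
    (h : Fin n → ZMod 2) (hC : h ∈ C)
    (hj1 : 1 ≤ ((zeros h).card : ℝ)) (hj2 : ((zeros h).card : ℝ) * (s + 1) ≤ s * s) : False := by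
  classical
  set j : ℝ := ((zeros h).card : ℝ) with hj
  have hjs : j ≤ s := by nlinarith
  set N : ℝ := ((zeros h)ᶜ.card : ℝ) with hN
  have hNj : N = n - j := by
    have := card_compl_zeros h
    rw [hN, hj]; exact_mod_cast this
  set X : C → ℝ := fun c => (WS (zeros h)ᶜ (c : Fin n → ZMod 2) : ℝ) with hX
  set T : C → ℝ := fun c => (WS (zeros h) (c : Fin n → ZMod 2) : ℝ) with hT
  -- the four moment inequalities
  have hTpd := pd_WS C (zeros h)
  have S1 : 0 ≤ ∑ c : C, ((X c) ^ 2 - N) * ((j + T c) * (j + T c)) := by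
    have hg : PD (fun c : C => ((zeros h).card : ℤ) + WS (zeros h) (c : Fin n → ZMod 2)) :=
      (PD.const (by positivity)).add hTpd
    have := ((pd_Q C (zeros h)ᶜ).mul (hg.mul hg)).sum_nonneg
    have h2 : (0 : ℝ) ≤ ((∑ c : C, ((WS (zeros h)ᶜ (c : Fin n → ZMod 2)) ^ 2
        - ((zeros h)ᶜ.card : ℤ)) * ((((zeros h).card : ℤ) + WS (zeros h) (c : Fin n → ZMod 2)) *
        (((zeros h).card : ℤ) + WS (zeros h) (c : Fin n → ZMod 2))) : ℤ) : ℝ) := by
      exact_mod_cast this
    push_cast at h2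
    exact h2
  have S2 : 0 ≤ ∑ c : C, T c := by
    have := hTpd.sum_nonneg
    have h2 : (0 : ℝ) ≤ ((∑ c : C, WS (zeros h) (c : Fin n → ZMod 2) : ℤ) : ℝ) := by
      exact_mod_cast this
    push_cast at h2
    exact h2
  have S3 : 0 ≤ ∑ c : C, ((T c) ^ 2 - j) := by
    have := (pd_Q C (zeros h)).sum_nonneg
    have h2 : (0 : ℝ) ≤ ((∑ c : C, ((WS (zeros h) (c : Fin n → ZMod 2)) ^ 2
        - ((zeros h).card : ℤ)) : ℤ) : ℝ) := by
      exact_mod_cast this
    push_cast at h2
    exact h2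
  have S4 : 0 ≤ ∑ c : C, T c * (T c * T c) := by
    have := (hTpd.mul (hTpd.mul hTpd)).sum_nonneg
    have h2 : (0 : ℝ) ≤ ((∑ c : C, WS (zeros h) (c : Fin n → ZMod 2) *
        (WS (zeros h) (c : Fin n → ZMod 2) * WS (zeros h) (c : Fin n → ZMod 2)) : ℤ) : ℝ) := by
      exact_mod_cast this
    push_cast at h2
    exact h2
  set F : C → ℝ := fun c => ((X c) ^ 2 - N) * ((j + T c) * (j + T c))
      + (- j ^ 3 + 2 * (s - 1) * j ^ 2 * T c + (4 * s * j - 2 * j ^ 2 - j) * (T c) ^ 2
        + 2 * (s - j) * (T c) ^ 3) with hF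
  have hlow : (Fintype.card C : ℝ) * (j ^ 2 * (4 * s - 3 * j - 1)) ≤ ∑ c : C, F c := by
    have h6 : ∑ c : C, F c = (∑ c : C, ((X c) ^ 2 - N) * ((j + T c) * (j + T c)))
        + (2 * (s - 1) * j ^ 2) * (∑ c : C, T c)
        + (4 * s * j - 2 * j ^ 2 - j) * (∑ c : C, ((T c) ^ 2 - j))
        + (2 * (s - j)) * (∑ c : C, T c * (T c * T c))
        + ∑ c : C, (j ^ 2 * (4 * s - 3 * j - 1)) := by
      rw [Finset.mul_sum, Finset.mul_sum, Finset.mul_sum, ← Finset.sum_add_distrib,
        ← Finset.sum_add_distrib, ← Finset.sum_add_distrib, ← Finset.sum_add_distrib]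
      refine Finset.sum_congr rfl (fun c _ => ?_)
      rw [hF]; ring
    rw [h6]
    simp only [Finset.sum_const, Finset.card_univ, nsmul_eq_mul]
    have a1 : 0 ≤ (2 * (s - 1) * j ^ 2) * (∑ c : C, T c) :=
      mul_nonneg (by have : 0 ≤ s - 1 := by linarith
                     positivity) S2
    have a2 : 0 ≤ (4 * s * j - 2 * j ^ 2 - j) * (∑ c : C, ((T c) ^ 2 - j)) :=
      mul_nonneg (by nlinarith) S3
    have a3 : 0 ≤ (2 * (s - j)) * (∑ c : C, T c * (T c * T c)) :=
      mul_nonneg (by linarith) S4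
    linarith
  set K : ℝ := 4 * j ^ 2 * (n * n - n - 2 * j * (n - s)) with hK
  set hh : C := ⟨h, hC⟩ with hhh
  have hup : ∀ c : C, F c ≤ K * (if c = 0 then 1 else 0) + K * (if c = hh then 1 else 0) := by
    have hKnn : 0 ≤ K := by
      have h1 : 0 ≤ (n : ℝ) * n - n - 2 * j * (n - s) := by
        rw [hn]
        have h2 : j * (s * s - s) ≤ s * (s * s - s) :=
          mul_le_mul_of_nonneg_right hjs (by nlinarith)
        nlinarith [mul_nonneg (by linarith : (0:ℝ) ≤ s - 2) (by linarith : (0:ℝ) ≤ s - 1),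
          sq_nonneg (s * (s - 1))]
      positivity
    intro c
    by_cases hc0 : c = 0
    · subst hc0
      have e : F 0 = K := by
        rw [hF, hK]
        simp only [hX, hT, ZeroMemClass.coe_zero, WS_zero]
        push_cast
        rw [← hN, ← hj, hNj, hn]; ring
      rw [e]
      simp only [if_true]
      split_ifs <;> nlinarith
    by_cases hch : c = hh
    · subst hch
      have e : F hh = K := by
        rw [hF, hK, hhh]
        simp only [hX, hT, WS_zeros_self, WS_compl_self]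
        push_cast
        rw [← hN, ← hj, hNj, hn]; ring
      rw [e]
      simp only [if_true]
      split_ifs <;> nlinarith
    rw [if_neg hc0, if_neg hch]
    have hc0' : (c : Fin n → ZMod 2) ≠ 0 := by
      intro h'; exact hc0 (Subtype.ext h')
    have hch' : (c : Fin n → ZMod 2) + h ≠ 0 := by
      intro h'
      apply hch
      apply Subtype.ext
      have h2 : (c : Fin n → ZMod 2) = -h := eq_neg_of_add_eq_zero_left h'
      rw [h2]
      ext i
      simp only [Pi.neg_apply, ZMod.neg_eq_self_mod_two]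
      rfl
    have b1 := hW c c.2 hc0'
    have b2 := hW _ (C.add_mem c.2 hC) hch'
    rw [W_split (zeros h)] at b1 b2
    rw [WS_add_zeros, WS_add_compl] at b2
    push_cast at b1 b2
    have b3 : |T c| ≤ j := by
      have := abs_WS_le (zeros h) (c : Fin n → ZMod 2)
      show |((WS (zeros h) (c : Fin n → ZMod 2) : ℤ) : ℝ)| ≤ _
      rw [hj]
      exact_mod_cast this
    rw [abs_le] at b3
    rw [hF]
    simp only
    have b1' : X c + T c ≤ s := b1
    have b2' : - X c + T c ≤ s := b2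
    generalize X c = x at b1' b2' ⊢
    generalize T c = y at b1' b2' b3 ⊢
    have hX2 : x ^ 2 ≤ (s - y) ^ 2 := by
      apply sq_le_sq'
      · linarith
      · linarith
    have hT4 : 0 ≤ y ^ 2 * (j ^ 2 - y ^ 2) := by
      have : y ^ 2 ≤ j ^ 2 := sq_le_sq' b3.1 b3.2
      exact mul_nonneg (sq_nonneg y) (by linarith)
    have hmain : (x ^ 2 - (s - y) ^ 2) * ((j + y) * (j + y)) ≤ 0 := by
      have h1 : 0 ≤ (j + y) * (j + y) := mul_self_nonneg _
      have h2 : x ^ 2 - (s - y) ^ 2 ≤ 0 := by linarith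
      exact mul_nonpos_of_nonpos_of_nonneg h2 h1
    have hid : (x ^ 2 - N) * ((j + y) * (j + y)) + (-j ^ 3 + 2 * (s - 1) * j ^ 2 * y
        + (4 * s * j - 2 * j ^ 2 - j) * y ^ 2 + 2 * (s - j) * y ^ 3)
        = (x ^ 2 - (s - y) ^ 2) * ((j + y) * (j + y)) - y ^ 2 * (j ^ 2 - y ^ 2)
          + (s * s - j - N) * ((j + y) * (j + y)) := by ring
    rw [hid]
    have : s * s - j - N = 0 := by rw [hNj, hn]; ring
    rw [this]; linarith
  have hsum := Finset.sum_le_sum (fun c (_ : c ∈ (Finset.univ : Finset C)) => hup c)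
  have hR : ∑ c : C, (K * (if c = 0 then 1 else 0) + K * (if c = hh then 1 else 0)) = K + K := by
    rw [Finset.sum_add_distrib, ← Finset.mul_sum, ← Finset.mul_sum]
    simp only [Finset.sum_ite_eq', Finset.mem_univ, if_true, mul_one]
  have htot := (hlow.trans hsum).trans_eq hR
  -- contradiction
  have hj2pos : 0 < j ^ 2 := by positivity
  have hA : 0 ≤ 4 * s - 3 * j - 1 := by linarith
  have h1 : (n : ℝ) * n * (j ^ 2 * (4 * s - 3 * j - 1))
      ≤ (Fintype.card C : ℝ) * (j ^ 2 * (4 * s - 3 * j - 1)) :=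
    mul_le_mul_of_nonneg_right hcard (by positivity)
  have h2 : j ^ 2 * ((n : ℝ) * n * (4 * s - 3 * j - 1))
      ≤ j ^ 2 * (8 * (n * n - n - 2 * j * (n - s))) := by
    rw [hK] at htot
    linarith
  have h3 := le_of_mul_le_mul_left h2 hj2pos
  -- D(j) > 0
  rw [hn] at h3
  have hslope : 0 < 3 * (s * s) * (s * s) - 16 * (s * s - s) := by nlinarith
  have h4 : 0 < s * s * (s ^ 4 - 5 * s ^ 3 + 7 * s ^ 2 - 8 * s + 8) := by
    have h5 : 0 < s ^ 4 - 5 * s ^ 3 + 7 * s ^ 2 - 8 * s + 8 := by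
      have e : s ^ 4 - 5 * s ^ 3 + 7 * s ^ 2 - 8 * s + 8
          = (s - 4) * (s ^ 3 - s ^ 2 + 3 * s + 4) + 24 := by ring
      rw [e]
      have h6 : 0 ≤ s ^ 3 - s ^ 2 + 3 * s + 4 := by nlinarith [sq_nonneg s]
      have h7 : 0 ≤ (s - 4) * (s ^ 3 - s ^ 2 + 3 * s + 4) :=
        mul_nonneg (by linarith) h6
      linarith
    positivity
  -- (s+1) * D(j) = [value at j = s^2/(s+1)] + slope * (s^2 - (s+1) j)
  have h5 : (s + 1) * (s * s * (s * s) * (4 * s - 3 * j - 1)
      - 8 * (s * s * (s * s) - s * s - 2 * j * (s * s - s)))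
      = s * s * (s ^ 4 - 5 * s ^ 3 + 7 * s ^ 2 - 8 * s + 8)
        + (3 * (s * s) * (s * s) - 16 * (s * s - s)) * (s * s - j * (s + 1)) := by ring
  have h6 : 0 ≤ (3 * (s * s) * (s * s) - 16 * (s * s - s)) * (s * s - j * (s + 1)) :=
    mul_nonneg hslope.le (by linarith)
  have h7 : (s + 1) * (s * s * (s * s) * (4 * s - 3 * j - 1)
      - 8 * (s * s * (s * s) - s * s - 2 * j * (s * s - s))) ≤ 0 :=
    mul_nonpos_of_nonneg_of_nonpos (by linarith) (by linarith)
  linarith

/-- real version: the heaviest word has few zeros -/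
lemma case_large_real [Fintype C] (s : ℝ) (hs : 4 ≤ s) (hn : (n : ℝ) = s * s)
    (hcard : (n : ℝ) * n ≤ Fintype.card C)
    (hW : ∀ c ∈ C, c ≠ 0 → (W c : ℝ) ≤ s)
    (h : Fin n → ZMod 2) (hC : h ∈ C) (h0 : h ≠ 0)
    (hmax : ∀ c ∈ C, W h ≤ W c) (hj : s * s < ((zeros h).card : ℝ) * (s + 1)) : False := by
  classical
  set j : ℝ := ((zeros h).card : ℝ) with hjdef
  have hWh : (W h : ℝ) = 2 * j - n := by
    have := W_zeros h
    rw [this, hjdef]; push_cast; ring
  set L : ℝ := - (W h : ℝ) with hL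
  have hLs : -s ≤ L := by have := hW h hC h0; rw [hL]; linarith
  have hnpos : (0 : ℝ) < n := by rw [hn]; nlinarith
  set x : C → ℝ := fun c => (W (c : Fin n → ZMod 2) : ℝ) with hx
  set F : C → ℝ := fun c => ((x c) ^ 2 - n) * ((x c + s) * (x c + L)) with hF
  have S1 : 0 ≤ ∑ c : C, (((x c) ^ 2 - n) ^ 2 - 2 * ((n : ℝ) * n - n)) := by
    have := (pd_Q_sq C Finset.univ).sum_nonneg
    have h2 : (0 : ℝ) ≤ ((∑ c : C, (((WS Finset.univ (c : Fin n → ZMod 2)) ^ 2
        - ((Finset.univ : Finset (Fin n)).card : ℤ)) ^ 2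
      - 2 * (((Finset.univ : Finset (Fin n)).card : ℤ) * ((Finset.univ : Finset (Fin n)).card : ℤ)
        - (Finset.univ : Finset (Fin n)).card)) : ℤ) : ℝ) := by
      exact_mod_cast this
    simp only [Finset.card_univ, Fintype.card_fin, ← W_eq_WS] at h2
    push_cast at h2
    exact h2
  have S2 : 0 ≤ ∑ c : C, ((x c) ^ 2 - n) := by
    have := (pd_Q C Finset.univ).sum_nonneg
    have h2 : (0 : ℝ) ≤ ((∑ c : C, ((WS Finset.univ (c : Fin n → ZMod 2)) ^ 2
        - ((Finset.univ : Finset (Fin n)).card : ℤ)) : ℤ) : ℝ) := by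
      exact_mod_cast this
    simp only [Finset.card_univ, Fintype.card_fin, ← W_eq_WS] at h2
    push_cast at h2
    exact h2
  have S3 : 0 ≤ ∑ c : C, (x c) * ((x c) ^ 2 - n) := by
    have := ((pd_WS C Finset.univ).mul (pd_Q C Finset.univ)).sum_nonneg
    have h2 : (0 : ℝ) ≤ ((∑ c : C, (WS Finset.univ (c : Fin n → ZMod 2)) *
        ((WS Finset.univ (c : Fin n → ZMod 2)) ^ 2
        - ((Finset.univ : Finset (Fin n)).card : ℤ)) : ℤ) : ℝ) := by
      exact_mod_cast this
    simp only [Finset.card_univ, Fintype.card_fin, ← W_eq_WS] at h2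
    push_cast at h2
    exact h2
  have hlow : (Fintype.card C : ℝ) * (2 * (n * n - n)) ≤ ∑ c : C, F c := by
    have h6 : ∑ c : C, F c = (∑ c : C, (((x c) ^ 2 - n) ^ 2 - 2 * ((n : ℝ) * n - n)))
        + (n + s * L) * (∑ c : C, ((x c) ^ 2 - n))
        + (s + L) * (∑ c : C, (x c) * ((x c) ^ 2 - n))
        + ∑ c : C, (2 * ((n : ℝ) * n - n)) := by
      rw [Finset.mul_sum, Finset.mul_sum, ← Finset.sum_add_distrib,
        ← Finset.sum_add_distrib, ← Finset.sum_add_distrib]
      refine Finset.sum_congr rfl (fun c _ => ?_)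
      rw [hF]; ring
    rw [h6]
    simp only [Finset.sum_const, Finset.card_univ, nsmul_eq_mul]
    have a1 : 0 ≤ (n + s * L) * (∑ c : C, ((x c) ^ 2 - n)) :=
      mul_nonneg (by rw [hn]; nlinarith) S2
    have a2 : 0 ≤ (s + L) * (∑ c : C, (x c) * ((x c) ^ 2 - n)) :=
      mul_nonneg (by linarith) S3
    linarith
  set K : ℝ := ((n : ℝ) * n - n) * ((n + s) * (2 * (n - j))) with hK
  have hjn : j ≤ n := by
    have := Finset.card_le_univ (zeros h)
    rw [Fintype.card_fin] at this
    rw [hjdef]; exact_mod_cast this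
  have hup : ∀ c : C, F c ≤ K * (if c = 0 then 1 else 0) := by
    intro c
    by_cases hc0 : c = 0
    · subst hc0
      rw [if_pos rfl, mul_one, hF, hK]
      simp only [hx, ZeroMemClass.coe_zero, W_zero]
      push_cast
      have : (n : ℝ) + L = 2 * (n - j) := by rw [hL, hWh]; ring
      rw [this]
      apply le_of_eq; ring
    · rw [if_neg hc0, mul_zero, hF]
      have hc0' : (c : Fin n → ZMod 2) ≠ 0 := by
        intro h'; exact hc0 (Subtype.ext h')
      have b1 : x c ≤ s := hW c c.2 hc0'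
      have b2 : (W h : ℝ) ≤ x c := by
        show (W h : ℝ) ≤ ((W (c : Fin n → ZMod 2) : ℤ) : ℝ)
        exact_mod_cast hmax c c.2
      simp only
      generalize x c = y at b1 b2 ⊢
      have e : (y ^ 2 - n) * ((y + s) * (y + L)) = (y - s) * ((y + s) ^ 2 * (y + L)) := by
        rw [hn]; ring
      rw [e]
      apply mul_nonpos_of_nonpos_of_nonneg (by linarith)
      apply mul_nonneg (sq_nonneg _)
      rw [hL]; linarith
  have hsum := Finset.sum_le_sum (fun c (_ : c ∈ (Finset.univ : Finset C)) => hup c)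
  have hR : ∑ c : C, (K * (if c = 0 then (1 : ℝ) else 0)) = K := by
    rw [← Finset.mul_sum]
    simp only [Finset.sum_ite_eq', Finset.mem_univ, if_true, mul_one]
  have htot := (hlow.trans hsum).trans_eq hR
  have hn16 : (16 : ℝ) ≤ n := by rw [hn]; nlinarith
  have hnn : (0 : ℝ) < n * n - n := by nlinarith
  have h1 : (n : ℝ) * n * (2 * (n * n - n)) ≤ (Fintype.card C : ℝ) * (2 * (n * n - n)) :=
    mul_le_mul_of_nonneg_right hcard (by linarith)
  have h2 : ((n : ℝ) * n - n) * (2 * (n * n)) ≤ ((n : ℝ) * n - n) * (2 * ((n + s) * (n - j))) := by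
    rw [hK] at htot
    linarith
  have h3 := le_of_mul_le_mul_left h2 hnn
  -- (n + s)(n - j) < n²
  have h4 : (n + s) * ((n : ℝ) - j) = n * n - s * (j * (s + 1) - s * s) := by
    rw [hn]; ring
  have h5 : 0 < s * (j * (s + 1) - s * s) := mul_pos (by linarith) (by linarith)
  linarith

/-- real version of the case of the all-one word: moments -/
lemma case_zero_real [Fintype C] (hn16 : 16 ≤ n)
    (hcard : (n : ℤ) * n ≤ Fintype.card C)
    (hW : ∀ c ∈ C, c ≠ 0 → W c ≤ 0 ∨ (W c) ^ 2 ≤ n)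
    (h1C : (1 : Fin n → ZMod 2) ∈ C) :
    (Fintype.card C = n * n) ∧
      ∀ b ∈ C, b ≠ 0 → b ≠ 1 → W b * ((W b) ^ 2 - (n : ℤ)) = 0 := by
  classical
  have hn16z : (16 : ℤ) ≤ n := by exact_mod_cast hn16
  have hnpos : (0 : ℤ) < n := by linarith
  set F : C → ℤ := fun c => (W (c : Fin n → ZMod 2)) ^ 2 *
    ((W (c : Fin n → ZMod 2)) ^ 2 - n) with hF
  set one : C := ⟨1, h1C⟩ with hone
  have hW1 : W (1 : Fin n → ZMod 2) = -(n : ℤ) := by simp [W, sgn_one]
  have hlow : (Fintype.card C : ℤ) * (2 * (n * n - n)) ≤ ∑ c : C, F c := by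
    have hQ := pd_Q C Finset.univ
    have h1 := pd_Q_sq C Finset.univ
    have h2 := hQ.intMul (k := n) (by linarith)
    have h5 := (h1.add h2).sum_nonneg
    have h6 : ∀ c : C, F c - 2 * (n * n - n) =
        ((((WS Finset.univ (c : Fin n → ZMod 2)) ^ 2 - ((Finset.univ : Finset (Fin n)).card : ℤ)) ^ 2
          - 2 * (((Finset.univ : Finset (Fin n)).card : ℤ) * ((Finset.univ : Finset (Fin n)).card : ℤ)
            - (Finset.univ : Finset (Fin n)).card))
          + (n : ℤ) * ((WS Finset.univ (c : Fin n → ZMod 2)) ^ 2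
            - ((Finset.univ : Finset (Fin n)).card : ℤ))) := by
      intro c
      rw [hF, ← W_eq_WS]
      simp only [Finset.card_univ, Fintype.card_fin]
      ring
    rw [← Finset.sum_congr rfl (fun c _ => h6 c), Finset.sum_sub_distrib] at h5
    simp only [Finset.sum_const, Finset.card_univ, nsmul_eq_mul] at h5
    linarith
  set K : ℤ := (n : ℤ) ^ 2 * (n ^ 2 - n) with hK
  set G : C → ℤ := fun c => K * (if c = 0 then 1 else 0) + K * (if c = one then 1 else 0) - F c
    with hG
  have hone0 : (0 : C) ≠ one := by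
    intro h'
    have := congrArg (fun c : C => W (c : Fin n → ZMod 2)) h'
    simp only [hone, ZeroMemClass.coe_zero, W_zero, hW1] at this
    linarith
  have hGnn : ∀ c : C, 0 ≤ G c := by
    intro c
    rw [hG]
    simp only
    by_cases hc0 : c = 0
    · subst hc0
      rw [if_pos rfl, if_neg hone0, hF, hK]
      simp only [ZeroMemClass.coe_zero, W_zero]
      apply le_of_eq; ring
    by_cases hc1 : c = one
    · subst hc1
      rw [if_pos rfl, if_neg hc0, hF, hK]
      simp only [hone, hW1]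
      apply le_of_eq; ring
    rw [if_neg hc0, if_neg hc1, hF]
    have hc0' : (c : Fin n → ZMod 2) ≠ 0 := by
      intro h'; exact hc0 (Subtype.ext h')
    have hc1' : (c : Fin n → ZMod 2) + 1 ≠ 0 := by
      intro h'
      apply hc1
      apply Subtype.ext
      have h2 : (c : Fin n → ZMod 2) = -1 := eq_neg_of_add_eq_zero_left h'
      rw [h2]
      ext i
      simp only [Pi.neg_apply, ZMod.neg_eq_self_mod_two]
      rfl
    have b1 := hW c c.2 hc0'
    have b2 := hW _ (C.add_mem c.2 h1C) hc1'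
    have e : W ((c : Fin n → ZMod 2) + 1) = - W (c : Fin n → ZMod 2) := by
      unfold W
      rw [← Finset.sum_neg_distrib]
      refine Finset.sum_congr rfl (fun i _ => ?_)
      rw [Pi.add_apply, Pi.one_apply, sgn_add, sgn_one]; ring
    rw [e] at b2
    simp only
    set x := W (c : Fin n → ZMod 2)
    have hx : x ^ 2 ≤ n := by
      rcases b1 with b1 | b1
      · rcases b2 with b2 | b2
        · have : x = 0 := by linarith
          rw [this]; simp
        · rw [neg_sq] at b2; exact b2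
      · exact b1
    have : 0 ≤ x ^ 2 * (n - x ^ 2) := mul_nonneg (sq_nonneg _) (by linarith)
    nlinarith
  have hGval : ∑ c : C, G c = 2 * K - ∑ c : C, F c := by
    rw [hG]
    rw [Finset.sum_sub_distrib, Finset.sum_add_distrib, ← Finset.mul_sum, ← Finset.mul_sum]
    simp only [Finset.sum_ite_eq', Finset.mem_univ, if_true, mul_one]
    ring
  have hnn : (0 : ℤ) < 2 * (n * n - n) := by nlinarith
  have h1 : (n : ℤ) * n * (2 * (n * n - n)) ≤ (Fintype.card C : ℤ) * (2 * (n * n - n)) :=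
    mul_le_mul_of_nonneg_right hcard hnn.le
  have h2 : 2 * K = (n : ℤ) * n * (2 * (n * n - n)) := by rw [hK]; ring
  have hGs0 : 0 ≤ ∑ c : C, G c := Finset.sum_nonneg (fun c _ => hGnn c)
  have hcard2 : (Fintype.card C : ℤ) ≤ n * n := by
    have h3 : (Fintype.card C : ℤ) * (2 * (n * n - n)) ≤ (n : ℤ) * n * (2 * (n * n - n)) := by
      linarith
    exact le_of_mul_le_mul_right h3 hnn
  have hGzero : ∀ c : C, G c = 0 := by
    have h3 : ∑ c : C, G c = 0 := by
      apply le_antisymm _ hGs0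
      linarith
    have h4 := (Finset.sum_eq_zero_iff_of_nonneg (fun c _ => hGnn c)).mp h3
    intro c; exact h4 c (Finset.mem_univ c)
  refine ⟨by exact_mod_cast le_antisymm hcard2 hcard, ?_⟩
  intro b hb hb0 hb1
  have h3 := hGzero ⟨b, hb⟩
  rw [hG] at h3
  simp only at h3
  have hne0 : (⟨b, hb⟩ : C) ≠ 0 := by
    intro h'; exact hb0 (by simpa using congrArg Subtype.val h')
  have hne1 : (⟨b, hb⟩ : C) ≠ one := by
    intro h'; exact hb1 (by simpa [hone] using congrArg Subtype.val h')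
  rw [if_neg hne0, if_neg hne1, hF] at h3
  simp only at h3
  have h4 : W b * (W b * ((W b) ^ 2 - n)) = 0 := by linarith
  rcases mul_eq_zero.mp h4 with h5 | h5
  · rw [h5]; ring
  · exact h5

end KerdockGen

/-- every binary linear code of length `n ≥ 16` whose nonzero words have weight at least
`(n - √n)/2` has fewer than `n²` words -/
theorem card_lt_sq (n : ℕ) (hn16 : 16 ≤ n) (C : Submodule (ZMod 2) (Fin n → ZMod 2))
    (hC : ∀ c ∈ C, c ≠ 0 → (n : ℝ) - Real.sqrt n ≤ 2 * (hammingNorm c : ℝ)) :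
    Nat.card C < n ^ 2 := by
  classical
  by_contra hcon
  push Not at hcon
  set s : ℝ := Real.sqrt n with hs
  have hnn : (0 : ℝ) ≤ n := by positivity
  have hsn : (n : ℝ) = s * s := (Real.mul_self_sqrt hnn).symm
  have hs0 : 0 ≤ s := Real.sqrt_nonneg _
  have hn16r : (16 : ℝ) ≤ n := by exact_mod_cast hn16
  have hs4 : 4 ≤ s := by nlinarith
  have hW : ∀ c ∈ C, c ≠ 0 → (W c : ℝ) ≤ s := by
    intro c hc hc0
    have h1 := hC c hc hc0
    rw [W_eq_sub]; push_cast; linarith
  rw [Nat.card_eq_fintype_card] at hcon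
  have hcardz : (n : ℤ) * n ≤ Fintype.card C := by
    have : n * n ≤ Fintype.card C := by rw [← sq]; exact hcon
    exact_mod_cast this
  have hcardr : (n : ℝ) * n ≤ Fintype.card C := by exact_mod_cast hcardz
  have hnt : ∃ c : C, c ≠ 0 := by
    by_contra hcon2
    push Not at hcon2
    have h1 : Fintype.card C ≤ 1 := Fintype.card_le_one_iff.mpr (fun a b => by rw [hcon2 a, hcon2 b])
    have h2 : (Fintype.card C : ℝ) ≤ 1 := by exact_mod_cast h1
    nlinarith
  obtain ⟨h, hhS, hmin⟩ := Finset.exists_min_image (Finset.univ : Finset C)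
    (fun c => W (c : Fin n → ZMod 2)) ⟨0, Finset.mem_univ _⟩
  have hne : (h : Fin n → ZMod 2) ≠ 0 := by
    intro h0
    obtain ⟨c, hc⟩ := hnt
    have h1 := hmin c (Finset.mem_univ c)
    have hc' : (c : Fin n → ZMod 2) ≠ 0 := by intro h'; exact hc (Subtype.ext h')
    have h2 := hW c c.2 hc'
    rw [h0, W_zero] at h1
    have h3 : (n : ℝ) ≤ (W (c : Fin n → ZMod 2) : ℝ) := by exact_mod_cast h1
    nlinarith
  have hmax : ∀ c ∈ C, W (h : Fin n → ZMod 2) ≤ W c := by
    intro c hc
    exact hmin ⟨c, hc⟩ (Finset.mem_univ _)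
  rcases Nat.eq_zero_or_pos (zeros (h : Fin n → ZMod 2)).card with hj0 | hjpos
  · have hone : (h : Fin n → ZMod 2) = 1 := by
      ext i
      rw [Finset.card_eq_zero, zeros, Finset.filter_eq_empty_iff] at hj0
      rcases zmod2_cases ((h : Fin n → ZMod 2) i) with h0 | h1
      · exact absurd h0 (hj0 (Finset.mem_univ i))
      · rw [h1]; rfl
    have h1C : (1 : Fin n → ZMod 2) ∈ C := hone ▸ h.2
    have hW' : ∀ c ∈ C, c ≠ 0 → W c ≤ 0 ∨ (W c) ^ 2 ≤ (n : ℤ) := by
      intro c hc hc0
      by_cases hle : W c ≤ 0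
      · exact Or.inl hle
      · right
        push Not at hle
        have h1 := hW c hc hc0
        have h2 : (0 : ℝ) ≤ (W c : ℝ) := by exact_mod_cast hle.le
        have h3 : (W c : ℝ) ^ 2 ≤ (n : ℝ) := by
          rw [hsn, ← sq]; exact pow_le_pow_left₀ h2 h1 2
        exact_mod_cast h3
    obtain ⟨hcard, hval⟩ := case_zero_real C hn16 hcardz hW' h1C
    -- n is a power of two
    have hpow : Fintype.card C = 2 ^ Module.finrank (ZMod 2) C := by
      have := Module.card_eq_pow_finrank (K := ZMod 2) (V := C)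
      simpa [ZMod.card] using this
    have hdvd : n ∣ 2 ^ Module.finrank (ZMod 2) C := by
      rw [← hpow, hcard]; exact dvd_mul_right n n
    obtain ⟨l, _, hl⟩ := (Nat.dvd_prime_pow Nat.prime_two).mp hdvd
    rcases Nat.even_or_odd l with ⟨t, ht⟩ | ⟨t, ht⟩
    · have hnt2 : n = 2 ^ t * 2 ^ t := by rw [hl, ht, pow_add]
      have ht2 : 2 ≤ t := by
        by_contra hlt
        have : 2 ^ t ≤ 2 ^ 1 := Nat.pow_le_pow_right (by norm_num) (by omega)
        have h5 : n ≤ 2 ^ 1 * 2 ^ 1 := by rw [hnt2]; exact Nat.mul_le_mul this this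
        omega
      refine no_three_valued t ht2 hnt2 C ?_ h1C hval
      rw [Nat.card_eq_fintype_card, hcard]
    · -- n is not a square
      have hnsq : ∀ z : ℤ, z ^ 2 ≠ (n : ℤ) := by
        intro z hz
        have h5 : z.natAbs ^ 2 = 2 ^ l := by
          have : ((z.natAbs ^ 2 : ℕ) : ℤ) = n := by rw [Nat.cast_pow, Int.natCast_natAbs, sq_abs, hz]
          have h6 : z.natAbs ^ 2 = n := by exact_mod_cast this
          rw [h6, hl]
        have h6 : z.natAbs ∣ 2 ^ l := by rw [← h5]; exact dvd_pow_self _ (by norm_num)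
        obtain ⟨r, _, hr⟩ := (Nat.dvd_prime_pow Nat.prime_two).mp h6
        rw [hr, ← pow_mul] at h5
        have h7 := Nat.pow_right_injective (le_refl 2) h5
        omega
      have hzero : ∀ b ∈ C, b ≠ 0 → b ≠ 1 → W b = 0 := by
        intro b hb hb0 hb1
        rcases mul_eq_zero.mp (hval b hb hb0 hb1) with h5 | h5
        · exact h5
        · exact absurd (by linarith) (hnsq (W b))
      have h2 := (pd_Q C Finset.univ).sum_nonneg
      rw [Finset.sum_sub_distrib] at h2
      simp only [Finset.sum_const, Finset.card_univ, Fintype.card_fin, nsmul_eq_mul,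
        ← W_eq_WS] at h2
      have hup : ∀ c : C, (W (c : Fin n → ZMod 2)) ^ 2 ≤
          (n : ℤ) ^ 2 * (if c = 0 then 1 else 0) + (n : ℤ) ^ 2 * (if c = ⟨1, h1C⟩ then 1 else 0) := by
        intro c
        by_cases hc0 : c = 0
        · subst hc0
          rw [if_pos rfl]
          simp only [ZeroMemClass.coe_zero, W_zero]
          split_ifs <;> nlinarith
        · by_cases hc1 : c = ⟨1, h1C⟩
          · subst hc1
            rw [if_pos rfl, if_neg hc0]
            have hW1 : W (1 : Fin n → ZMod 2) = -(n : ℤ) := by simp [W, sgn_one]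
            simp only [hW1]
            linarith [sq_nonneg (n : ℤ), neg_sq (n : ℤ)]
          · rw [if_neg hc0, if_neg hc1, hzero c c.2 (fun h' => hc0 (Subtype.ext h'))
              (fun h' => hc1 (Subtype.ext h'))]
            simp
      have hsum := Finset.sum_le_sum (fun c (_ : c ∈ (Finset.univ : Finset C)) => hup c)
      rw [Finset.sum_add_distrib, ← Finset.mul_sum, ← Finset.mul_sum] at hsum
      simp only [Finset.sum_ite_eq', Finset.mem_univ, if_true, mul_one] at hsum
      have hn16z : (16 : ℤ) ≤ n := by exact_mod_cast hn16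
      have h8 : (n : ℤ) * n * n ≤ Fintype.card C * n :=
        mul_le_mul_of_nonneg_right hcardz (by linarith)
      nlinarith
  · by_cases hlt : ((zeros (h : Fin n → ZMod 2)).card : ℝ) * (s + 1) ≤ s * s
    · exact case_small_real C s hs4 hsn hcardr hW h h.2 (by exact_mod_cast hjpos) hlt
    · exact case_large_real C s hs4 hsn hcardr hW h h.2 hne hmax (by push Not at hlt; exact hlt)

end Pool.Agent.MP_3ca114_lc
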