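import Pool.Agent.Lib.MP_3ca114_lc.Final

set_option autoImplicit false

namespace Pool.Agent.MP_3ca114_lc

open Finset

section Prep

variable {n : ℕ}

/-- unit vector -/
def ev (i : Fin n) : Fin n → ZMod 2 := Pi.single i 1

lemma add_self_eq (v : Fin n → ZMod 2) : v + v = 0 := by
  ext i; exact CharTwo.add_self_eq_zero _

/-- pairing with a word -/
def pairHom (b : Fin n → ZMod 2) : (Fin n → ZMod 2) →+ ZMod 2 where
  toFun v := b ⬝ᵥ v
  map_zero' := by simp
  map_add' := by intro x y; exact dotProduct_add b x y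

lemma pairHom_apply (b v : Fin n → ZMod 2) : pairHom b v = b ⬝ᵥ v := rfl

lemma pair_ev (b : Fin n → ZMod 2) (i : Fin n) : b ⬝ᵥ (ev i) = b i := by
  simp [ev]

lemma pairHom_eq_zero {b : Fin n → ZMod 2} : pairHom b = 0 ↔ b = 0 := by
  constructor
  · intro h
    ext i
    have := DFunLike.congr_fun h (ev i)
    rw [pairHom_apply, pair_ev] at this
    simpa using this
  · intro h; subst h; ext v; simp [pairHom]

/-- sum of a nontrivial character over the whole space -/
lemma sum_pair (b : Fin n → ZMod 2) :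
    ∑ v : Fin n → ZMod 2, sgn (b ⬝ᵥ v) = if b = 0 then (2 : ℤ) ^ n else 0 := by
  have h := sum_char (pairHom b)
  simp only [pairHom_apply, pairHom_eq_zero] at h
  rw [h]
  simp [ZMod.card]

/-- the dual code -/
def dualCode (E : Submodule (ZMod 2) (Fin n → ZMod 2)) : Submodule (ZMod 2) (Fin n → ZMod 2) where
  carrier := {b | ∀ c ∈ E, b ⬝ᵥ c = 0}
  zero_mem' := by intro c _; simp
  add_mem' := by
    intro a b ha hb c hc
    rw [add_dotProduct, ha c hc, hb c hc, add_zero]
  smul_mem' := by
    intro k b hb c hc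
    rw [smul_dotProduct, hb c hc, smul_zero]

lemma mem_dualCode {E : Submodule (ZMod 2) (Fin n → ZMod 2)} {b : Fin n → ZMod 2} :
    b ∈ dualCode E ↔ ∀ c ∈ E, b ⬝ᵥ c = 0 := Iff.rfl

lemma sum_over_code (E : Submodule (ZMod 2) (Fin n → ZMod 2)) [Fintype E]
    [DecidablePred (· ∈ dualCode E)] (b : Fin n → ZMod 2) :
    ∑ c : E, sgn (b ⬝ᵥ (c : Fin n → ZMod 2)) =
      if b ∈ dualCode E then (Fintype.card E : ℤ) else 0 := by
  have h := sum_char ((pairHom b).comp E.subtype.toAddMonoidHom)
  have h2 : ((pairHom b).comp E.subtype.toAddMonoidHom = 0) ↔ b ∈ dualCode E := by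
    rw [mem_dualCode]
    constructor
    · intro h3 c hc
      exact DFunLike.congr_fun h3 (⟨c, hc⟩ : E)
    · intro h3
      ext c
      exact h3 c c.2
  have h3 : ∑ c : E, sgn (b ⬝ᵥ (c : Fin n → ZMod 2))
      = ∑ c : E, sgn (((pairHom b).comp E.subtype.toAddMonoidHom) c) := rfl
  rw [h3, h]
  by_cases hb : b ∈ dualCode E
  · rw [if_pos (h2.mpr hb), if_pos hb]
  · rw [if_neg (fun h4 => hb (h2.mp h4)), if_neg hb]

lemma card_dual (E : Submodule (ZMod 2) (Fin n → ZMod 2)) :
    Nat.card (dualCode E) * Nat.card E = 2 ^ n := by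
  classical
  have h1 : ∑ b : Fin n → ZMod 2, ∑ c : E, sgn (b ⬝ᵥ (c : Fin n → ZMod 2))
      = (Fintype.card (dualCode E) : ℤ) * Fintype.card E := by
    rw [Finset.sum_congr rfl (fun b _ => sum_over_code E b)]
    rw [← Finset.sum_filter, Finset.sum_const, nsmul_eq_mul]
    congr 1
    rw [Fintype.card_subtype]
  have h2 : ∑ b : Fin n → ZMod 2, ∑ c : E, sgn (b ⬝ᵥ (c : Fin n → ZMod 2)) = (2 : ℤ) ^ n := by
    rw [Finset.sum_comm]
    have h3 : ∀ c : E, ∑ b : Fin n → ZMod 2, sgn (b ⬝ᵥ (c : Fin n → ZMod 2))
        = if c = 0 then (2 : ℤ) ^ n else 0 := by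
      intro c
      have h4 := sum_pair (c : Fin n → ZMod 2)
      have h5 : ∀ b : Fin n → ZMod 2, sgn (b ⬝ᵥ (c : Fin n → ZMod 2))
          = sgn ((c : Fin n → ZMod 2) ⬝ᵥ b) := fun b => by rw [dotProduct_comm]
      rw [Finset.sum_congr rfl (fun b _ => h5 b), h4]
      by_cases hc : c = 0
      · subst hc; simp
      · have hc' : (c : Fin n → ZMod 2) ≠ 0 := fun h => hc (Subtype.ext h)
        rw [if_neg hc, if_neg hc']
    rw [Finset.sum_congr rfl (fun c _ => h3 c)]
    simp
  rw [Nat.card_eq_fintype_card, Nat.card_eq_fintype_card]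
  have h6 := h1.symm.trans h2
  exact_mod_cast h6

lemma hammingNorm_ev_le (i : Fin n) : hammingNorm (ev i) ≤ 1 := by
  classical
  unfold hammingNorm ev
  refine (Finset.card_le_card (t := {i}) ?_).trans (by simp)
  intro j hj
  rw [Finset.mem_filter] at hj
  rw [Finset.mem_singleton]
  by_contra hne
  exact hj.2 (by simp [hne])

lemma hammingNorm_add_le (u v : Fin n → ZMod 2) :
    hammingNorm (u + v) ≤ hammingNorm u + hammingNorm v := by
  classical
  unfold hammingNorm
  refine (Finset.card_le_card ?_).trans (Finset.card_union_le _ _)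
  intro j hj
  rw [Finset.mem_filter] at hj
  rw [Finset.mem_union, Finset.mem_filter, Finset.mem_filter]
  by_contra hcon
  push Not at hcon
  have h1 := hcon.1 (Finset.mem_univ j)
  have h2 := hcon.2 (Finset.mem_univ j)
  exact hj.2 (by simp [h1, h2])

lemma ev_apply (i k : Fin n) : ev i k = if k = i then 1 else 0 := by
  unfold ev
  rw [Pi.single_apply]

/-- four unit vectors summing to zero, the last two distinct -/
lemma four_zero {a b x y : Fin n} (hxy : x ≠ y) (h : ev a + ev b + ev x + ev y = 0) :
    (a = x ∧ b = y) ∨ (a = y ∧ b = x) := by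
  have hx := congrFun h x
  have hy := congrFun h y
  simp only [Pi.add_apply, ev_apply, Pi.zero_apply, if_true, if_neg hxy, if_neg hxy.symm] at hx hy
  by_cases h1 : x = a
  · by_cases h2 : y = b
    · exact Or.inl ⟨h1.symm, h2.symm⟩
    · exfalso
      have h3 : y ≠ a := by rw [← h1]; exact hxy.symm
      rw [if_neg h3, if_neg h2] at hy
      revert hy; decide
  · by_cases h2 : x = b
    · by_cases h3 : y = a
      · exact Or.inr ⟨h3.symm, h2.symm⟩
      · exfalso
        have h4 : y ≠ b := by rw [← h2]; exact hxy.symm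
        rw [if_neg h3, if_neg h4] at hy
        revert hy; decide
    · exfalso
      rw [if_neg h1, if_neg h2] at hx
      revert hx; decide

variable (E : Submodule (ZMod 2) (Fin n → ZMod 2))

open Classical in
/-- ordered triples `(i, x, y)`, `x ≠ y`, with `v + e_i + e_x + e_y ∈ E` -/
noncomputable def S3 (v : Fin n → ZMod 2) : Finset (Fin n × (Fin n × Fin n)) :=
  (Finset.univ ×ˢ (Finset.univ : Finset (Fin n)).offDiag).filter
    (fun t => v + ev t.1 + ev t.2.1 + ev t.2.2 ∈ E)

lemma mem_S3 {v : Fin n → ZMod 2} {t : Fin n × (Fin n × Fin n)} :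
    t ∈ S3 E v ↔ t.2.1 ≠ t.2.2 ∧ v + ev t.1 + ev t.2.1 + ev t.2.2 ∈ E := by
  classical
  unfold S3
  rw [Finset.mem_filter, Finset.mem_product, Finset.mem_offDiag]
  simp

/-- short words of `E` vanish -/
lemma four_mem (hE : ∀ c ∈ E, c ≠ 0 → 6 ≤ hammingNorm c) {a b x y : Fin n}
    (h : ev a + ev b + ev x + ev y ∈ E) : ev a + ev b + ev x + ev y = 0 := by
  by_contra hne
  have h1 := hE _ h hne
  have h2 := hammingNorm_add_le (ev a + ev b + ev x) (ev y)
  have h3 := hammingNorm_add_le (ev a + ev b) (ev x)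
  have h4 := hammingNorm_add_le (ev a) (ev b)
  have := hammingNorm_ev_le a
  have := hammingNorm_ev_le b
  have := hammingNorm_ev_le x
  have := hammingNorm_ev_le y
  omega

lemma S3_card_le_two_mul (hE : ∀ c ∈ E, c ≠ 0 → 6 ≤ hammingNorm c) (v : Fin n → ZMod 2) :
    (S3 E v).card ≤ 2 * n := by
  classical
  have h := Finset.card_le_mul_card_image_of_maps_to (s := S3 E v) (t := Finset.univ)
    (f := fun t => t.1) (fun _ _ => Finset.mem_univ _) 2 (by
      intro i _
      by_cases hne : ((S3 E v).filter (fun t => t.1 = i)).Nonempty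
      · obtain ⟨t, ht⟩ := hne
        rw [Finset.mem_filter, mem_S3] at ht
        refine (Finset.card_le_card (t := {(i, (t.2.1, t.2.2)), (i, (t.2.2, t.2.1))}) ?_).trans
          (Finset.card_le_two)
        intro u hu
        rw [Finset.mem_filter, mem_S3] at hu
        have h1 : ev t.2.1 + ev t.2.2 + ev u.2.1 + ev u.2.2 ∈ E := by
          have h2 := E.add_mem ht.1.2 hu.1.2
          have h3 : v + ev t.1 + ev t.2.1 + ev t.2.2 + (v + ev u.1 + ev u.2.1 + ev u.2.2)
              = (v + v) + (ev i + ev i) + (ev t.2.1 + ev t.2.2 + ev u.2.1 + ev u.2.2) := by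
            rw [ht.2, hu.2]; abel
          rw [h3, add_self_eq, add_self_eq, zero_add, zero_add] at h2
          exact h2
        have h4 := four_mem E hE h1
        rw [Finset.mem_insert, Finset.mem_singleton]
        rcases four_zero hu.1.1 h4 with ⟨h5, h6⟩ | ⟨h5, h6⟩
        · left
          ext1
          · exact hu.2
          · ext1
            · exact h5.symm
            · exact h6.symm
        · right
          ext1
          · exact hu.2
          · ext1
            · exact h6.symm
            · exact h5.symm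
      · rw [Finset.not_nonempty_iff_eq_empty] at hne
        rw [hne]; simp)
  simpa using h

/-- bound for the number of triples -/
lemma S3_card_bound (hE : ∀ c ∈ E, c ≠ 0 → 6 ≤ hammingNorm c) (hn3 : n % 3 = 1)
    (v : Fin n → ZMod 2) : (S3 E v).card ≤ 2 * (n - 1) := by
  classical
  by_cases hk : ∃ k, v + ev k ∈ E
  · obtain ⟨k, hk⟩ := hk
    -- triples are (x, x, k) or (y, k, y)
    have hsub : S3 E v ⊆ ((Finset.univ.erase k).image (fun x => (x, (x, k)))) ∪
        ((Finset.univ.erase k).image (fun x => (x, (k, x)))) := by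
      intro t ht
      rw [mem_S3] at ht
      have h1 : ev t.1 + ev k + ev t.2.1 + ev t.2.2 ∈ E := by
        have h2 := E.add_mem ht.2 hk
        have h3 : v + ev t.1 + ev t.2.1 + ev t.2.2 + (v + ev k)
            = (v + v) + (ev t.1 + ev k + ev t.2.1 + ev t.2.2) := by abel
        rw [h3, add_self_eq, zero_add] at h2
        exact h2
      have h4 := four_mem E hE h1
      rw [Finset.mem_union, Finset.mem_image, Finset.mem_image]
      rcases four_zero ht.1 h4 with ⟨h5, h6⟩ | ⟨h5, h6⟩
      · left
        refine ⟨t.1, ?_, ?_⟩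
        · rw [Finset.mem_erase]
          refine ⟨?_, Finset.mem_univ _⟩
          intro h7; exact ht.1 (by rw [← h5, h7, h6])
        · ext1
          · rfl
          · ext1
            · exact h5
            · exact h6
      · right
        refine ⟨t.1, ?_, ?_⟩
        · rw [Finset.mem_erase]
          refine ⟨?_, Finset.mem_univ _⟩
          intro h7; exact ht.1 (by rw [← h6, ← h7, h5])
        · ext1
          · rfl
          · ext1
            · exact h6
            · exact h5
    refine (Finset.card_le_card hsub).trans ((Finset.card_union_le _ _).trans ?_)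
    have h1 := Finset.card_image_le (s := Finset.univ.erase k) (f := fun x : Fin n => (x, (x, k)))
    have h2 := Finset.card_image_le (s := Finset.univ.erase k) (f := fun x : Fin n => (x, (k, x)))
    rw [Finset.card_erase_of_mem (Finset.mem_univ k), Finset.card_univ, Fintype.card_fin] at h1 h2
    omega
  · push Not at hk
    have hdist : ∀ t ∈ S3 E v, t.1 ≠ t.2.1 ∧ t.1 ≠ t.2.2 ∧ t.2.1 ≠ t.2.2 := by
      intro t ht
      rw [mem_S3] at ht
      refine ⟨?_, ?_, ht.1⟩
      · intro h
        apply hk t.2.2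
        have h2 := ht.2
        rw [h] at h2
        have h3 : v + ev t.2.1 + ev t.2.1 + ev t.2.2 = (ev t.2.1 + ev t.2.1) + (v + ev t.2.2) := by
          abel
        rw [h3, add_self_eq, zero_add] at h2
        exact h2
      · intro h
        apply hk t.2.1
        have h2 := ht.2
        rw [h] at h2
        have h3 : v + ev t.2.2 + ev t.2.1 + ev t.2.2 = (ev t.2.2 + ev t.2.2) + (v + ev t.2.1) := by
          abel
        rw [h3, add_self_eq, zero_add] at h2
        exact h2
    -- rotation
    have h3 : 3 ∣ (S3 E v).card := by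
      have hrot : ∀ t ∈ S3 E v, ((t.2.1, (t.2.2, t.1)) : Fin n × (Fin n × Fin n)) ∈ S3 E v := by
        intro t ht
        have hd := hdist t ht
        rw [mem_S3] at ht ⊢
        refine ⟨fun h => hd.2.1 h.symm, ?_⟩
        have : v + ev t.2.1 + ev t.2.2 + ev t.1 = v + ev t.1 + ev t.2.1 + ev t.2.2 := by abel
        rw [this]; exact ht.2
      set f : Function.End (S3 E v) := fun t => ⟨_, hrot t.1 t.2⟩ with hf
      have hf3 : f ^ 3 ^ 1 = 1 := by
        funext t
        rfl
      have hmod := Equiv.Perm.card_fixedPoints_modEq (f := f) (p := 3) (n := 1) hf3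
      have hfix : Fintype.card (Function.fixedPoints f) = 0 := by
        rw [Fintype.card_eq_zero_iff]
        refine ⟨fun t => ?_⟩
        have h5 : f t.1 = t.1 := t.2
        have h6 := congrArg (fun u : S3 E v => (u : Fin n × (Fin n × Fin n)).1) h5
        exact (hdist _ t.1.2).1 h6.symm
      rw [hfix, Fintype.card_coe] at hmod
      exact (Nat.modEq_zero_iff_dvd).mp hmod
    have h2 : 2 ∣ (S3 E v).card := by
      have hrot : ∀ t ∈ S3 E v, ((t.1, (t.2.2, t.2.1)) : Fin n × (Fin n × Fin n)) ∈ S3 E v := by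
        intro t ht
        rw [mem_S3] at ht ⊢
        refine ⟨fun h => ht.1 h.symm, ?_⟩
        have : v + ev t.1 + ev t.2.2 + ev t.2.1 = v + ev t.1 + ev t.2.1 + ev t.2.2 := by abel
        rw [this]; exact ht.2
      set f : Function.End (S3 E v) := fun t => ⟨_, hrot t.1 t.2⟩ with hf
      have hf3 : f ^ 2 ^ 1 = 1 := by
        funext t
        rfl
      have hmod := Equiv.Perm.card_fixedPoints_modEq (f := f) (p := 2) (n := 1) hf3
      have hfix : Fintype.card (Function.fixedPoints f) = 0 := by
        rw [Fintype.card_eq_zero_iff]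
        refine ⟨fun t => ?_⟩
        have h5 : f t.1 = t.1 := t.2
        have h6 := congrArg (fun u : S3 E v => (u : Fin n × (Fin n × Fin n)).2.1) h5
        exact (hdist _ t.1.2).2.2 h6.symm
      rw [hfix, Fintype.card_coe] at hmod
      exact (Nat.modEq_zero_iff_dvd).mp hmod
    have hle := S3_card_le_two_mul E hE v
    omega

end Prep

end Pool.Agent.MP_3ca114_lc
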