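import Pool.Agent.Lib.MP_3ca114_lc.Preparata

set_option autoImplicit false

namespace Pool.Agent.MP_3ca114_lc

open Finset

section Prep2

variable {n : ℕ}

/-- parity of a word -/
lemma sum_eq_norm (v : Fin n → ZMod 2) : ∑ i, v i = ((hammingNorm v : ℕ) : ZMod 2) := by
  classical
  have h : ∀ i, v i = if v i ≠ 0 then 1 else 0 := by
    intro i
    rcases zmod2_cases (v i) with h | h <;> simp [h]
  rw [Finset.sum_congr rfl (fun i _ => h i), Finset.sum_boole]
  rfl

lemma one_dot (v : Fin n → ZMod 2) : (1 : Fin n → ZMod 2) ⬝ᵥ v = ∑ i, v i := by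
  simp [dotProduct]

lemma one_dot_ev (i : Fin n) : (1 : Fin n → ZMod 2) ⬝ᵥ (ev i) = 1 := by
  rw [pair_ev]; rfl

/-- for a large enough even code with minimum weight at least `6`, the dual words other than
`0` and `1` satisfy `W (W² - n) = 0`, and the dual code is large -/
theorem even_case (E : Submodule (ZMod 2) (Fin n → ZMod 2)) (hn1 : 2 ≤ n) (hn3 : n % 3 = 1)
    (hE : ∀ c ∈ E, c ≠ 0 → 6 ≤ hammingNorm c) (heven : ∀ c ∈ E, (1 : Fin n → ZMod 2) ⬝ᵥ c = 0)
    (hcard : 2 ^ n ≤ n * n * Nat.card E) :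
    n * n ≤ Nat.card (dualCode E) ∧
      ∀ b ∈ dualCode E, b ≠ 0 → b ≠ 1 → W b * ((W b) ^ 2 - (n : ℤ)) = 0 := by
  classical
  rw [Nat.card_eq_fintype_card] at hcard
  -- the bound for every word
  have hbound : ∀ v : Fin n → ZMod 2,
      ((S3 E v).card : ℤ) ≤ ((n : ℤ) - 1) * (1 - sgn ((1 : Fin n → ZMod 2) ⬝ᵥ v)) := by
    intro v
    rcases zmod2_cases ((1 : Fin n → ZMod 2) ⬝ᵥ v) with h | h
    · rw [h, sgn_zero, sub_self, mul_zero]
      have : S3 E v = ∅ := by
        rw [Finset.eq_empty_iff_forall_notMem]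
        intro t ht
        rw [mem_S3] at ht
        have h1 := heven _ ht.2
        rw [dotProduct_add, dotProduct_add, dotProduct_add, h, one_dot_ev, one_dot_ev,
          one_dot_ev] at h1
        revert h1; decide
      rw [this]; simp
    · rw [h, sgn_one]
      have := S3_card_bound E hE hn3 v
      have h2 : ((S3 E v).card : ℤ) ≤ ((2 * (n - 1) : ℕ) : ℤ) := by exact_mod_cast this
      rw [Nat.cast_mul, Nat.cast_sub (by omega)] at h2
      push_cast at h2
      linarith
  -- a general twisted sum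
  have htwist : ∀ b : Fin n → ZMod 2,
      ∑ v : Fin n → ZMod 2, sgn (b ⬝ᵥ v) * ((S3 E v).card : ℤ)
        = (W b * ((W b) ^ 2 - n)) * ∑ c : E, sgn (b ⬝ᵥ (c : Fin n → ZMod 2)) := by
    intro b
    have h1 : ∀ v : Fin n → ZMod 2, sgn (b ⬝ᵥ v) * ((S3 E v).card : ℤ)
        = ∑ t ∈ (Finset.univ ×ˢ (Finset.univ : Finset (Fin n)).offDiag),
            sgn (b ⬝ᵥ v) * (if v + ev t.1 + ev t.2.1 + ev t.2.2 ∈ E then 1 else 0) := by
      intro v
      rw [← Finset.mul_sum]
      congr 1
      rw [Finset.sum_boole]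
      unfold S3
      congr
    rw [Finset.sum_congr rfl (fun v _ => h1 v), Finset.sum_comm]
    have h2 : ∀ t : Fin n × (Fin n × Fin n),
        ∑ v : Fin n → ZMod 2, sgn (b ⬝ᵥ v) *
          (if v + ev t.1 + ev t.2.1 + ev t.2.2 ∈ E then (1 : ℤ) else 0)
        = (sgn (b t.1) * (sgn (b t.2.1) * sgn (b t.2.2))) *
            ∑ c : E, sgn (b ⬝ᵥ (c : Fin n → ZMod 2)) := by
      intro t
      have h3 : ∑ v : Fin n → ZMod 2, sgn (b ⬝ᵥ v) *
          (if v + ev t.1 + ev t.2.1 + ev t.2.2 ∈ E then (1 : ℤ) else 0)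
          = ∑ v : Fin n → ZMod 2, sgn (b ⬝ᵥ (v + (ev t.1 + ev t.2.1 + ev t.2.2))) *
              (if v ∈ E then (1 : ℤ) else 0) := by
        rw [← Equiv.sum_comp (Equiv.addRight (ev t.1 + ev t.2.1 + ev t.2.2))
          (fun v : Fin n → ZMod 2 => sgn (b ⬝ᵥ v) *
          (if v + ev t.1 + ev t.2.1 + ev t.2.2 ∈ E then (1 : ℤ) else 0))]
        refine Finset.sum_congr rfl (fun v _ => ?_)
        simp only [Equiv.coe_addRight]
        have e : v + (ev t.1 + ev t.2.1 + ev t.2.2) + ev t.1 + ev t.2.1 + ev t.2.2 = v := by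
          have e2 : v + (ev t.1 + ev t.2.1 + ev t.2.2) + ev t.1 + ev t.2.1 + ev t.2.2
              = v + ((ev t.1 + ev t.1) + (ev t.2.1 + ev t.2.1) + (ev t.2.2 + ev t.2.2)) := by abel
          rw [e2, add_self_eq (ev t.1), add_self_eq (ev t.2.1), add_self_eq (ev t.2.2)]; simp
        congr 1
        exact if_congr (by rw [e]) rfl rfl
      rw [h3]
      have h4 : ∀ v : Fin n → ZMod 2, sgn (b ⬝ᵥ (v + (ev t.1 + ev t.2.1 + ev t.2.2))) *
              (if v ∈ E then (1 : ℤ) else 0)
          = if v ∈ E then (sgn (b t.1) * (sgn (b t.2.1) * sgn (b t.2.2))) * sgn (b ⬝ᵥ v)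
            else 0 := by
        intro v
        split_ifs
        · rw [dotProduct_add, dotProduct_add, dotProduct_add, pair_ev, pair_ev, pair_ev,
            sgn_add, sgn_add, sgn_add]; ring
        · ring
      rw [Finset.sum_congr rfl (fun v _ => h4 v), ← Finset.sum_filter, ← Finset.mul_sum]
      congr 1
      rw [← Finset.sum_subtype (Finset.univ.filter (fun v : Fin n → ZMod 2 => v ∈ E))
        (fun v => by simp) (fun v => sgn (b ⬝ᵥ v))]
    rw [Finset.sum_congr rfl (fun t _ => h2 t), ← Finset.sum_mul]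
    congr 1
    rw [Finset.sum_product]
    have h5 : (W b) ^ 2 - (n : ℤ) = ∑ p ∈ (Finset.univ : Finset (Fin n)).offDiag,
        sgn (b p.1) * sgn (b p.2) := by
      have := WS_sq (Finset.univ : Finset (Fin n)) b
      rw [← W_eq_WS, Finset.card_univ, Fintype.card_fin] at this
      exact this
    rw [h5]
    unfold W
    rw [Finset.sum_mul_sum]
  have hsgnsum : ∑ v : Fin n → ZMod 2, (1 - sgn ((1 : Fin n → ZMod 2) ⬝ᵥ v)) = (2 : ℤ) ^ n := by
    have h1n : (1 : Fin n → ZMod 2) ≠ 0 := by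
      intro h
      have := congrFun h ⟨0, by omega⟩
      simp at this
    rw [Finset.sum_sub_distrib, sum_pair, if_neg h1n]
    simp [ZMod.card]
  -- total
  have htotal : ∑ v : Fin n → ZMod 2, ((S3 E v).card : ℤ) = (n * (n ^ 2 - n)) * Fintype.card E := by
    have h := htwist 0
    simp only [zero_dotProduct, sgn_zero, one_mul, W_zero] at h
    rw [h]; simp
  have hsumle := Finset.sum_le_sum (fun v (_ : v ∈ (Finset.univ : Finset (Fin n → ZMod 2))) =>
    hbound v)
  rw [htotal, ← Finset.mul_sum, hsgnsum] at hsumle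
  have hcardz : (2 : ℤ) ^ n ≤ n * n * Fintype.card E := by exact_mod_cast hcard
  have hn1z : (0 : ℤ) < (n : ℤ) - 1 := by
    have : (2 : ℤ) ≤ n := by exact_mod_cast hn1
    linarith
  -- equality
  have heq : ((n : ℤ) * (n ^ 2 - n)) * Fintype.card E = ((n : ℤ) - 1) * 2 ^ n := by
    apply le_antisymm hsumle
    have : ((n : ℤ) - 1) * 2 ^ n ≤ ((n : ℤ) - 1) * (n * n * Fintype.card E) :=
      mul_le_mul_of_nonneg_left hcardz hn1z.le
    calc ((n : ℤ) - 1) * 2 ^ n ≤ ((n : ℤ) - 1) * (n * n * Fintype.card E) := this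
      _ = _ := by ring
  have hcardeq : (n : ℤ) * n * Fintype.card E = 2 ^ n := by
    have h1 : ((n : ℤ) - 1) * ((n : ℤ) * n * Fintype.card E) = ((n : ℤ) - 1) * 2 ^ n := by
      rw [← heq]; ring
    exact mul_left_cancel₀ hn1z.ne' h1
  have hexact : ∀ v : Fin n → ZMod 2,
      ((S3 E v).card : ℤ) = ((n : ℤ) - 1) * (1 - sgn ((1 : Fin n → ZMod 2) ⬝ᵥ v)) := by
    have h0 : ∑ v : Fin n → ZMod 2, (((n : ℤ) - 1) * (1 - sgn ((1 : Fin n → ZMod 2) ⬝ᵥ v))
        - ((S3 E v).card : ℤ)) = 0 := by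
      rw [Finset.sum_sub_distrib, htotal, ← Finset.mul_sum, hsgnsum, heq, sub_self]
    have h1 := (Finset.sum_eq_zero_iff_of_nonneg (fun v _ => sub_nonneg.mpr (hbound v))).mp h0
    intro v
    have := h1 v (Finset.mem_univ v)
    linarith
  constructor
  · have h1 := card_dual E
    rw [Nat.card_eq_fintype_card (α := E)] at h1
    have h2 : n * n * Fintype.card E = 2 ^ n := by exact_mod_cast hcardeq
    have hpos : 0 < Fintype.card E := Fintype.card_pos
    have h3 : Nat.card (dualCode E) * Fintype.card E = n * n * Fintype.card E := by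
      rw [h1, h2]
    exact (Nat.eq_of_mul_eq_mul_right hpos h3).ge
  · intro b hb hb0 hb1
    have h1 := htwist b
    rw [sum_over_code E b, if_pos hb] at h1
    have h2 : ∑ v : Fin n → ZMod 2, sgn (b ⬝ᵥ v) * ((S3 E v).card : ℤ) = 0 := by
      have h3 : ∀ v : Fin n → ZMod 2, sgn (b ⬝ᵥ v) * ((S3 E v).card : ℤ)
          = ((n : ℤ) - 1) * (sgn (b ⬝ᵥ v) - sgn ((b + 1) ⬝ᵥ v)) := by
        intro v
        rw [hexact v, add_dotProduct, sgn_add]; ring
      rw [Finset.sum_congr rfl (fun v _ => h3 v), ← Finset.mul_sum, Finset.sum_sub_distrib,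
        sum_pair, sum_pair, if_neg hb0, if_neg]
      · ring
      · intro h
        apply hb1
        have h4 : b = -1 := eq_neg_of_add_eq_zero_left h
        rw [h4]
        ext i
        simp only [Pi.neg_apply, ZMod.neg_eq_self_mod_two]
    rw [h2] at h1
    have hpos : (0 : ℤ) < Fintype.card E := by exact_mod_cast Fintype.card_pos
    rcases mul_eq_zero.mp h1.symm with h | h
    · exact h
    · linarith

/-- replace the coordinate `i0` by the parity of the others -/
def evenMap (i0 : Fin n) : (Fin n → ZMod 2) →ₗ[ZMod 2] (Fin n → ZMod 2) where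
  toFun c := c + (∑ i, c i) • ev i0
  map_add' := by
    intro x y
    ext i
    simp only [Pi.add_apply, Finset.sum_add_distrib, Pi.smul_apply, smul_eq_mul]
    ring
  map_smul' := by
    intro k x
    ext i
    simp only [Pi.add_apply, Pi.smul_apply, smul_eq_mul, RingHom.id_apply, ← Finset.mul_sum]
    ring

lemma evenMap_apply (i0 : Fin n) (c : Fin n → ZMod 2) :
    evenMap i0 c = c + (∑ i, c i) • ev i0 := rfl

lemma hammingNorm_le_evenMap (i0 : Fin n) (c : Fin n → ZMod 2) :
    hammingNorm c ≤ hammingNorm (evenMap i0 c) + 1 := by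
  have h : c = evenMap i0 c + (∑ i, c i) • ev i0 := by
    rw [evenMap_apply, add_assoc, ← add_smul, CharTwo.add_self_eq_zero, zero_smul, add_zero]
  have h2 : hammingNorm ((∑ i, c i) • ev i0) ≤ 1 := by
    rcases zmod2_cases (∑ i, c i) with h0 | h1
    · rw [h0, zero_smul]; simp
    · rw [h1, one_smul]; exact hammingNorm_ev_le i0
  calc hammingNorm c = hammingNorm (evenMap i0 c + (∑ i, c i) • ev i0) := by rw [← h]
    _ ≤ hammingNorm (evenMap i0 c) + hammingNorm ((∑ i, c i) • ev i0) := hammingNorm_add_le _ _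
    _ ≤ _ := by omega

lemma evenMap_even (i0 : Fin n) (c : Fin n → ZMod 2) :
    (1 : Fin n → ZMod 2) ⬝ᵥ (evenMap i0 c) = 0 := by
  rw [evenMap_apply, dotProduct_add, dotProduct_smul, one_dot_ev, one_dot]
  simp [CharTwo.add_self_eq_zero]

/-- there is no linear code of length `n = 4^t`, `t ≥ 2`, with at least `2^n / n²` words and
minimum distance at least `6` -/
theorem no_preparata (t : ℕ) (ht : 2 ≤ t) (hn : n = 2 ^ t * 2 ^ t)
    (C : Submodule (ZMod 2) (Fin n → ZMod 2))
    (hC : ∀ c ∈ C, c ≠ 0 → 6 ≤ hammingNorm c)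
    (hcard : 2 ^ n ≤ n * n * Nat.card C) : False := by
  classical
  have h4 : 2 ^ 2 ≤ 2 ^ t := Nat.pow_le_pow_right (by norm_num) ht
  have hn16 : 16 ≤ n := by rw [hn]; nlinarith
  have hn3 : n % 3 = 1 := by
    rw [hn, ← pow_add, ← two_mul, pow_mul]
    have : (2 ^ 2) ^ t % 3 = ((2 ^ 2) % 3) ^ t % 3 := by rw [Nat.pow_mod]
    rw [this]; simp
  set i0 : Fin n := ⟨0, by omega⟩
  set E := C.map (evenMap i0) with hEdef
  have heven : ∀ c ∈ E, (1 : Fin n → ZMod 2) ⬝ᵥ c = 0 := by
    intro c hc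
    rw [hEdef, Submodule.mem_map] at hc
    obtain ⟨c', _, rfl⟩ := hc
    exact evenMap_even i0 c'
  have hE : ∀ c ∈ E, c ≠ 0 → 6 ≤ hammingNorm c := by
    intro c hc hne
    have hp := heven c hc
    rw [one_dot, sum_eq_norm] at hp
    rw [hEdef, Submodule.mem_map] at hc
    obtain ⟨c', hc', rfl⟩ := hc
    have hc'0 : c' ≠ 0 := by
      intro h; apply hne; rw [h, map_zero]
    have h1 := hC c' hc' hc'0
    have h2 := hammingNorm_le_evenMap i0 c'
    have h3 : Even (hammingNorm (evenMap i0 c')) := by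
      rw [ZMod.natCast_eq_zero_iff] at hp
      exact even_iff_two_dvd.mpr hp
    obtain ⟨k, hk⟩ := h3
    omega
  have hinj : ∀ c ∈ C, evenMap i0 c = 0 → c = 0 := by
    intro c hc h
    by_contra hne
    have h1 := hC c hc hne
    have h2 := hammingNorm_le_evenMap i0 c
    rw [h, hammingNorm_zero] at h2
    omega
  have hcardE : Nat.card C ≤ Nat.card E := by
    have hmem : ∀ c : C, evenMap i0 (c : Fin n → ZMod 2) ∈ E := by
      intro c
      rw [hEdef]; exact Submodule.mem_map_of_mem c.2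
    refine Nat.card_le_card_of_injective (fun c : C => (⟨evenMap i0 c, hmem c⟩ : E)) ?_
    intro a b hab
    have h1 : evenMap i0 (a : Fin n → ZMod 2) = evenMap i0 (b : Fin n → ZMod 2) :=
      congrArg Subtype.val hab
    have h2 : evenMap i0 ((a : Fin n → ZMod 2) - b) = 0 := by rw [map_sub, h1, sub_self]
    have h3 := hinj _ (C.sub_mem a.2 b.2) h2
    exact Subtype.ext (sub_eq_zero.mp h3)
  have hcard' : 2 ^ n ≤ n * n * Nat.card E :=
    hcard.trans (Nat.mul_le_mul_left _ hcardE)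
  obtain ⟨hB, hBW⟩ := even_case E (by omega) hn3 hE heven hcard'
  have h1B : (1 : Fin n → ZMod 2) ∈ dualCode E := fun c hc => heven c hc
  exact no_three_valued t ht hn (dualCode E) hB h1B hBW

end Prep2

end Pool.Agent.MP_3ca114_lc
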